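import Pool.Agent.RelY.NN
import Pool.Agent.RelB.DENT
import Pool.Agent.RelM.HFIX

/-!
# The supergales and their bits
-/

set_option autoImplicit false

namespace Pool.Agent.RelY

open Pool.Agent.RelT (Fast)
open Pool.Agent.RelB (ML qbs qf ee qf_nonneg qf_sum)
open Pool.Agent.RelM (Lang Instr Cfg run Halts triple str pre hq)
open Pool.Agent.RelO (lev IsGale IsGaleCover st)
open Pool.Agent.RelM.HFIX_ (hq_inj hq_length triple_length)

/-! ## The probabilities -/

theorem hv0 (η : ℕ → ℕ → ℝ) (j t : ℕ) : 0 ≤ hv η j t := by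
  unfold hv
  split_ifs
  · exact le_max_left _ _
  · norm_num

theorem hv1 (η : ℕ → ℕ → ℝ) (j t : ℕ) : hv η j t ≤ 1 := by
  unfold hv
  split_ifs
  · exact max_le (by norm_num) (min_le_left _ _)
  · norm_num

theorem Pw_append (η : ℕ → ℕ → ℝ) (j : ℕ) (w : List Bool) (b : Bool) :
    Pw η j (w ++ [b]) = Pw η j w * qf (hv η j w.length) b := by
  unfold Pw
  rw [List.length_append, List.length_singleton, Finset.prod_range_succ]
  congr 1
  · refine Finset.prod_congr rfl fun t ht => ?_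
    rw [Finset.mem_range] at ht
    rw [List.getD_append _ _ _ _ ht]
  · rw [List.getD_append_right _ _ _ _ le_rfl]
    simp

theorem Pw_nonneg (η : ℕ → ℕ → ℝ) (j : ℕ) (w : List Bool) :
    0 ≤ Pw η j w := Finset.prod_nonneg fun _ _ => qf_nonneg (hv0 _ _ _) (hv1 _ _ _) _

theorem Pw_sum (η : ℕ → ℕ → ℝ) (j : ℕ) (w : List Bool) :
    Pw η j (w ++ [false]) + Pw η j (w ++ [true]) = Pw η j w := by
  rw [Pw_append, Pw_append, ← mul_add, qf_sum, mul_one]

theorem Pw_short (η : ℕ → ℕ → ℝ) (j : ℕ) (w : List Bool)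
    (h : w.length ≤ 2 ^ nn j) : Pw η j w = (1 / 2 : ℝ) ^ w.length := by
  unfold Pw
  rw [Finset.prod_congr rfl (g := fun _ => (1 / 2 : ℝ))]
  · simp
  · intro t ht
    rw [Finset.mem_range] at ht
    have h1 : hv η j t = 1 / 2 := by
      unfold hv
      rw [if_neg]
      omega
    rw [h1]
    unfold qf
    split_ifs <;> norm_num

theorem PP_nonneg (η : ℕ → ℕ → ℝ) (w : List Bool) : 0 ≤ PP η w := by
  exact add_nonneg (Finset.sum_nonneg fun j _ => mul_nonneg (by positivity) (Pw_nonneg η j w))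
    (by positivity)

theorem lt_two_nn (j : ℕ) : j < 2 ^ nn j := by
  have h1 := nnge j
  have h2 : nn j < 2 ^ nn j := Nat.lt_two_pow_self
  omega

theorem PP_sum (η : ℕ → ℕ → ℝ) (w : List Bool) :
    PP η (w ++ [false]) + PP η (w ++ [true]) = PP η w := by
  have h1 : Pw η w.length (w ++ [false]) + Pw η w.length (w ++ [true]) =
      (1 / 2 : ℝ) ^ w.length := by
    rw [Pw_sum, Pw_short η w.length w (lt_two_nn _).le]
  unfold PP
  rw [List.length_append, List.length_append, List.length_singleton, List.length_singleton,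
    Finset.sum_range_succ, Finset.sum_range_succ]
  have h2 : ∑ j ∈ Finset.range w.length, (1 / 2 : ℝ) ^ (j + 1) * Pw η j (w ++ [false]) +
      ∑ j ∈ Finset.range w.length, (1 / 2 : ℝ) ^ (j + 1) * Pw η j (w ++ [true]) =
      ∑ j ∈ Finset.range w.length, (1 / 2 : ℝ) ^ (j + 1) * Pw η j w := by
    rw [← Finset.sum_add_distrib]
    refine Finset.sum_congr rfl fun j _ => ?_
    rw [← mul_add, Pw_sum]
  have h3 : (1 / 2 : ℝ) ^ (w.length + 1) * Pw η w.length (w ++ [false]) +
      (1 / 2 : ℝ) ^ (w.length + 1) * Pw η w.length (w ++ [true]) =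
      (1 / 2 : ℝ) ^ (w.length + 1) * (1 / 2 : ℝ) ^ w.length := by
    rw [← mul_add, h1]
  have h4 : (1 / 2 : ℝ) ^ (w.length + 1) = (1 / 2 : ℝ) ^ w.length * (1 / 2) := pow_succ _ _
  rw [h4] at h3 ⊢
  nlinarith [h2, h3]

theorem PP_nil (η : ℕ → ℕ → ℝ) : PP η [] = 1 := by
  simp [PP]

theorem PP_le (η : ℕ → ℕ → ℝ) (w : List Bool) : PP η w ≤ 1 := by
  induction w using List.reverseRecOn with
  | nil => rw [PP_nil]
  | append_singleton w b ih =>
    have h1 := PP_sum η w
    have h2 := PP_nonneg η (w ++ [false])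
    have h3 := PP_nonneg η (w ++ [true])
    cases b <;> linarith

/-! ## The supergales -/

theorem dd_nonneg (η : ℕ → ℕ → ℝ) (k : ℕ) (w : List Bool) :
    0 ≤ dd η k w := by
  unfold dd
  have := PP_nonneg η w
  positivity

theorem dd_sum (η : ℕ → ℕ → ℝ) (k : ℕ) (w : List Bool) :
    dd η k (w ++ [false]) + dd η k (w ++ [true]) = (2 : ℝ) ^ sK k * dd η k w := by
  unfold dd
  rw [List.length_append, List.length_append, List.length_singleton, List.length_singleton,
    ← mul_add, PP_sum, Nat.cast_add, Nat.cast_one, mul_add, mul_one,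
    Real.rpow_add (by norm_num : (0 : ℝ) < 2)]
  ring

theorem dgale (η : ℕ → ℕ → ℝ) (k : ℕ) : IsGale (sK k) (dd η k) :=
  ⟨dd_nonneg η k, fun w => (dd_sum η k w).le⟩

theorem dnil (η : ℕ → ℕ → ℝ) (k : ℕ) : dd η k [] ≤ (1 / 2 : ℝ) ^ k := by
  unfold dd
  rw [PP_nil]
  simp

theorem dlow (η : ℕ → ℕ → ℝ) (k j : ℕ) (w : List Bool) (h : j < w.length) :
    (1 / 2 : ℝ) ^ k * (2 : ℝ) ^ (sK k * w.length) * ((1 / 2 : ℝ) ^ (j + 1) * Pw η j w) ≤
      dd η k w := by
  unfold dd
  refine mul_le_mul_of_nonneg_left ?_ (by positivity)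
  unfold PP
  have h1 : (1 / 2 : ℝ) ^ (j + 1) * Pw η j w ≤
      ∑ j ∈ Finset.range w.length, (1 / 2 : ℝ) ^ (j + 1) * Pw η j w := by
    refine Finset.single_le_sum (f := fun j => (1 / 2 : ℝ) ^ (j + 1) * Pw η j w)
      (fun i _ => ?_) (Finset.mem_range.2 h)
    have := Pw_nonneg η i w
    positivity
  have h2 : (0 : ℝ) ≤ (1 / 2 : ℝ) ^ w.length * (1 / 2 : ℝ) ^ w.length := by positivity
  linarith

theorem dlocal (η η' : ℕ → ℕ → ℝ) (k : ℕ) (w : List Bool)
    (h : ∀ j, 2 ^ nn j ≤ w.length → η j = η' j) : dd η k w = dd η' k w := by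
  have h1 : PP η w = PP η' w := by
    unfold PP
    congr 1
    refine Finset.sum_congr rfl fun j _ => ?_
    congr 1
    by_cases hj : 2 ^ nn j ≤ w.length
    · unfold Pw hv
      rw [h j hj]
    · rw [Pw_short η j w (by omega), Pw_short η' j w (by omega)]
  unfold dd
  rw [h1]

theorem sK_le (k : ℕ) : sK k ≤ 2 := min_le_left _ _

theorem dd_le (η : ℕ → ℕ → ℝ) (k : ℕ) (w : List Bool) :
    dd η k w ≤ 2 ^ (2 * w.length) := by
  unfold dd
  have h1 : (1 / 2 : ℝ) ^ k ≤ 1 := pow_le_one₀ (by norm_num) (by norm_num)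
  have h2 : (2 : ℝ) ^ (sK k * w.length) ≤ 2 ^ (2 * w.length) := by
    rw [← Real.rpow_natCast 2 (2 * w.length)]
    refine Real.rpow_le_rpow_of_exponent_le (by norm_num) ?_
    push_cast
    exact mul_le_mul_of_nonneg_right (sK_le k) (by positivity)
  have h3 := PP_le η w
  have h4 := PP_nonneg η w
  have h5 : (0 : ℝ) ≤ (2 : ℝ) ^ (sK k * w.length) := by positivity
  calc (1 / 2 : ℝ) ^ k * (2 : ℝ) ^ (sK k * w.length) * PP η w
      ≤ 1 * 2 ^ (2 * w.length) * 1 := by gcongr
    _ = _ := by ring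

/-! ## The bits -/

theorem bloc : T_BLOC := by
  intro η η' u hu
  have key : ∀ (a b : Bool) (j k r : ℕ) (w : List Bool), u = hq a b j k r w →
      num η k r w = num η' k r w := by
    intro a b j k r w h1
    unfold num
    rw [dlocal η η' k w fun i hi => hu i ?_]
    rw [h1, hq_length]
    omega
  unfold bitsOf
  rw [decide_eq_decide]
  refine or_congr ?_ (or_congr ?_ Iff.rfl)
  · refine exists_congr fun j => exists_congr fun k => exists_congr fun r =>
      exists_congr fun w => and_congr_right fun h => ?_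
    rw [key _ _ _ _ _ _ h]
  · refine exists_congr fun j => exists_congr fun k => exists_congr fun r =>
      exists_congr fun w => and_congr_right fun h => ?_
    rw [key _ _ _ _ _ _ h]

theorem bits (η : ℕ → ℕ → ℝ) (j k r : ℕ) (w : List Bool) :
    (bitsOf η (hq false false j k r w) = true ↔ j < Nat.size (num η k r w)) ∧
    (bitsOf η (hq false true j k r w) = true ↔ Nat.testBit (num η k r w) j = true) ∧
    (bitsOf η (hq true false j k r w) = true ↔ j < r + 1) := by
  classical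
  unfold bitsOf
  refine ⟨?_, ?_, ?_⟩
  · rw [decide_eq_true_eq]
    constructor
    · rintro (⟨j', k', r', w', h, h'⟩ | ⟨j', k', r', w', h, h'⟩ | ⟨j', k', r', w', h, h'⟩)
      · obtain ⟨-, -, rfl, rfl, rfl, rfl⟩ := hq_inj h
        exact h'
      · obtain ⟨-, h2, -⟩ := hq_inj h
        exact absurd h2 (by decide)
      · obtain ⟨h2, -⟩ := hq_inj h
        exact absurd h2 (by decide)
    · intro h
      exact Or.inl ⟨j, k, r, w, rfl, h⟩
  · rw [decide_eq_true_eq]
    constructor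
    · rintro (⟨j', k', r', w', h, h'⟩ | ⟨j', k', r', w', h, h'⟩ | ⟨j', k', r', w', h, h'⟩)
      · obtain ⟨-, h2, -⟩ := hq_inj h
        exact absurd h2 (by decide)
      · obtain ⟨-, -, rfl, rfl, rfl, rfl⟩ := hq_inj h
        exact h'
      · obtain ⟨h2, -⟩ := hq_inj h
        exact absurd h2 (by decide)
    · intro h
      exact Or.inr (Or.inl ⟨j, k, r, w, rfl, h⟩)
  · rw [decide_eq_true_eq]
    constructor
    · rintro (⟨j', k', r', w', h, h'⟩ | ⟨j', k', r', w', h, h'⟩ | ⟨j', k', r', w', h, h'⟩)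
      · obtain ⟨h2, -⟩ := hq_inj h
        exact absurd h2 (by decide)
      · obtain ⟨h2, -⟩ := hq_inj h
        exact absurd h2 (by decide)
      · obtain ⟨-, -, rfl, rfl, rfl, rfl⟩ := hq_inj h
        exact h'
    · intro h
      exact Or.inr (Or.inr ⟨j, k, r, w, rfl, h⟩)

theorem numok (η : ℕ → ℕ → ℝ) (k r : ℕ) (w : List Bool) :
    Nat.size (num η k r w) ≤ 2 * (triple k r w).length + 4 ∧
    |(num η k r w : ℝ) / 2 ^ (r + 1) - dd η k w| ≤ (1 / 2 : ℝ) ^ r := by
  have h0 : 0 ≤ dd η k w := dd_nonneg η k w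
  have h1 : 0 ≤ (2 : ℝ) ^ (r + 1) * dd η k w := by positivity
  constructor
  · rw [Nat.size_le]
    have h2 : num η k r w ≤ 2 ^ (r + 1) * 2 ^ (2 * w.length) := by
      unfold num
      refine Nat.floor_le_of_le ?_
      push_cast
      exact mul_le_mul_of_nonneg_left (dd_le η k w) (by positivity)
    calc num η k r w ≤ 2 ^ (r + 1) * 2 ^ (2 * w.length) := h2
      _ = 2 ^ (r + 1 + 2 * w.length) := (pow_add _ _ _).symm
      _ < 2 ^ (2 * (triple k r w).length + 4) := by
        rw [triple_length]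
        exact Nat.pow_lt_pow_right (by norm_num) (by omega)
  · have h2 : ((num η k r w : ℕ) : ℝ) ≤ (2 : ℝ) ^ (r + 1) * dd η k w := Nat.floor_le h1
    have h3 : (2 : ℝ) ^ (r + 1) * dd η k w < (num η k r w : ℕ) + 1 := Nat.lt_floor_add_one _
    have hp : (0 : ℝ) < 2 ^ (r + 1) := by positivity
    have h4 : (num η k r w : ℝ) / 2 ^ (r + 1) - dd η k w =
        ((num η k r w : ℝ) - 2 ^ (r + 1) * dd η k w) / 2 ^ (r + 1) := by
      field_simp
    rw [h4, abs_div, abs_of_pos hp, div_le_iff₀ hp, abs_le]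
    have h5 : (1 / 2 : ℝ) ^ r * 2 ^ (r + 1) = 2 := by
      rw [pow_succ, ← mul_assoc, ← mul_pow]
      norm_num
    rw [h5]
    constructor <;> linarith

end Pool.Agent.RelY
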