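import Pool.Agent.RelY.MEAS
import Pool.Agent.RelY.DENT
import Pool.Agent.RelB.ACC

/-!
# Locality of acceptance
-/

set_option autoImplicit false

namespace Pool.Agent.RelY

open MeasureTheory Set
open scoped ENNReal
open Pool.Agent.RelB (ML qbs acc_congr str_len_le qbs_mono qb_le_qbs ask_len)
open Pool.Agent.RelM (Lang Instr Cfg run Halts pair triple str pre hq wq sq0 sq1 Asks code qb)
open Pool.Agent.RelO (lev st)
open Pool.Agent.RelS (Z Rl orcV orc acc Idx Om Dep mixP oloc mixP_pos mixP_neg)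
open Pool.Agent.RelU (NM)

theorem Wd_lt {j t : ℕ} (h : t ∈ Wd j) : t < 2 ^ (nn j + j) := (Finset.mem_Ico.1 h).2

theorem qb_small {j t : ℕ} (h : t ∈ Wd j) :
    qbs (ms j) (str t).length < nn (j + 1) ∧ qbs (ms j) (str t).length < 2 ^ nn j ∧
    ((j : ℝ) + 1) * (2 * (qbs (ms j) (str t).length : ℝ)) ≤ 2 ^ (nn j / 2) := by
  have h1 := qbs_mono (ms j) (str_len_le (Wd_lt h))
  have h2 := nnq j (nn j) le_rfl
  have h3 := nnmd j (nn j) le_rfl
  refine ⟨h1.trans_lt (nnnext j), by omega, le_trans ?_ h3⟩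
  have h4 : (qbs (ms j) (str t).length : ℝ) ≤ qbs (ms j) (nn j + j) := by exact_mod_cast h1
  gcongr

theorem mem_one (j : ℕ) : ucode (st j) ∈ ms j := List.mem_cons_self

theorem qb_le (j : ℕ) (n : ℕ) : qb (ucode (st j)) n ≤ qbs (ms j) n := qb_le_qbs (mem_one j) n

/-- Acceptance in terms of witnesses. -/
theorem acc_iff (O : Lang) (v : NM) (x : List Bool) : acc O v x ↔ ∃ y, accw O v x y := Iff.rfl

/-- The acceptance of a witness depends only on the answers to short words. -/
theorem accw_loc {O O' : Lang} {v : NM} {x y : List Bool}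
    (h : ∀ q : List Bool, q.length ≤ qb v x.length → O q = O' q) (ha : accw O v x y) :
    accw O' v x y := by
  obtain ⟨hy, hr⟩ := ha
  refine ⟨hy, ?_⟩
  rw [Pool.Agent.RelM.loc O O' v.1 (pair x y) ((x.length + 2) ^ v.2.2)
    (fun s hs q hq => h q (ask_len hy hs hq)) _ le_rfl]
  exact hr

theorem accw_congr {O O' : Lang} {v : NM} {x y : List Bool}
    (h : ∀ q : List Bool, q.length ≤ qb v x.length → O q = O' q) :
    accw O v x y ↔ accw O' v x y :=
  ⟨accw_loc h, accw_loc fun q hq => (h q hq).symm⟩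

theorem amb_congr {O O' : Lang} {v : NM} {x : List Bool}
    (h : ∀ q : List Bool, q.length ≤ qb v x.length → O q = O' q) :
    amb O v x ↔ amb O' v x := by
  unfold amb
  refine exists_congr fun y => exists_congr fun y' => and_congr_right fun _ => ?_
  rw [accw_congr h, accw_congr h]

/-- The oracles agree on the words that the machine of stage `j` can ask. -/
theorem orc_loc {j t : ℕ} {η η' : ℕ → ℕ → ℝ} {z z' : Z} (ht : t ∈ Wd j)
    (hh : ∀ i, i < j → η i = η' i)
    (hz : ∀ κ x y, lev κ x < nn (j + 1) → y.length = lev κ x → z κ x y = z' κ x y)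
    {q : List Bool} (hq : q.length ≤ qbs (ms j) (str t).length) :
    orc (bitsOf η) z q = orc (bitsOf η') z' q := by
  obtain ⟨q1, q2, -⟩ := qb_small ht
  refine oloc _ _ _ _ _ (qbs (ms j) (str t).length) ?_ ?_ q hq
  · intro κ x y h1 h2
    exact hz κ x y (by omega) h2
  · intro u hu
    refine bloc _ _ u fun j' hj' => hh j' ?_
    by_contra h5
    have h6 : 2 ^ nn j ≤ 2 ^ nn j' :=
      Nat.pow_le_pow_right (by norm_num) (nnmono.monotone (by omega))
    omega

theorem accw_stage {j t : ℕ} {η η' : ℕ → ℕ → ℝ} {z z' : Z} (ht : t ∈ Wd j)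
    (hh : ∀ i, i < j → η i = η' i)
    (hz : ∀ κ x y, lev κ x < nn (j + 1) → y.length = lev κ x → z κ x y = z' κ x y)
    (y : List Bool) : accw (orc (bitsOf η) z) (ucode (st j)) (str t) y ↔
      accw (orc (bitsOf η') z') (ucode (st j)) (str t) y :=
  accw_congr fun _ hq => orc_loc ht hh hz (hq.trans (qb_le j _))

theorem accl : T_ACC := by
  intro j t η η' ω ω' ht hh hw
  have hz : ∀ κ x y, lev κ x < nn (j + 1) → y.length = lev κ x →
      zo ω κ x y = zo ω' κ x y := fun κ x y h1 h2 => zo_old hw h1 h2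
  constructor
  · exact acc_congr fun _ hq => orc_loc ht hh hz (hq.trans (qb_le j _))
  · exact amb_congr fun _ hq => orc_loc ht hh hz (hq.trans (qb_le j _))

end Pool.Agent.RelY
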