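import Pool.Agent.RelY.Core
import Pool.Agent.RelU.Targets

/-!
# RelY: the targets of the jobs

THEOREM in preparation (`MP_a0edbc_lc`, part 2 of RELU): there is an oracle relative to which
`NP ∩ coNP ∩ E` has no null cover in `p`, `NP ∩ coNP ∩ E_2` has none in `p_2` (so Q1 and Q2 hold, even for
`NP ∩ coNP`), while `UP` has dimension `0` in `E` and `E_2`. Paper proof: idea row 5393.

Every target `T_X` is to be proved as `theorem p_X : T_X` (targets named in brackets may be taken as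
hypotheses, `theorem p_X_of (h : T_Y) : T_X`) in a NEW file `Pool/Agent/RelY/P_X.lean`, namespace
`Pool.Agent.RelY`, helper lemmas in a namespace `X_`. `RelY/Core.lean` is `RelU/Core.lean` with the SAME names
(`nn`, `Old`, `coin`, `zo`, `pa`, `hs`, `oo`, `Vis`, `Tr`, `Tr2`, `fail`, ..), so many files are edits of
the file of the same name in `Pool/Agent/RelU`. `RelY/NN.lean`, `DENT.lean`, `MEAS.lean`, `ACC.lean` (helper18)
contain the lemmas of the files of the same name in `RelU`. All landed files may be used.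
-/

set_option autoImplicit false

namespace Pool.Agent.RelY

open MeasureTheory Set
open scoped ENNReal
open Pool.Agent.RelM (Lang Instr Cfg step run Halts Decides E1 E2 NP pair triple binVal outVal
  Approx IsDensity str pre IsNullCover Null1 Null2 wq sq0 sq1 Asks hq code qb)
open Pool.Agent.RelO (lev IsGale IsGaleCover GaleNull1 GaleNull2 st)
open Pool.Agent.RelS (Z Rl orcV orc acc Idx Om bern bern_prob Dep mixP PF wt)
open Pool.Agent.RelB (ML qbs qf ee DD WW iot)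
open Pool.Agent.RelT (Fast)
open Pool.Agent.RelU (NM NPco)

/-! ## Stages (THR: a job; the others helper18, files NN, DENT, ACC) -/

/-- **THR** (25 min). `RelB.NN_.list_bound j (1 : ℝ) ..` for the first condition; `qbs (ms j) (n + j) = max (qb v (n + j)) 0`,
`qb v m = (m + 2) ^ (v.2.1 + v.2.2 + 3)` (unfold), so the second condition is a polynomial against
`2 ^ (n / 2)` (`RelB.NN_.exp_bound_real` for `n / 2` instead of `n`, or `RelM.poly_lt_exp`); the third: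
`3 * n ≤ 2 ^ (n / 8)` for large `n`, and `exp (-3 n) ≤ (1 / 8) ^ n` (`exp (-3) ≤ 1 / 8`). -/
def T_THR : Prop := ∀ j : ℕ, ∃ N : ℕ, ∀ n, N ≤ n →
  qbs (ms j) (n + j) + 2 < 2 ^ n ∧
  ((j : ℝ) + 1) * (2 * (qbs (ms j) (n + j) : ℝ)) ≤ 2 ^ (n / 2) ∧
  Real.exp (-(2 : ℝ) ^ (n / 8)) ≤ (1 / 8) ^ n

def T_NNMONO : Prop := StrictMono nn

def T_NNGE : Prop := ∀ j, 8 * (j + 3) ≤ nn j

def T_JJ : Prop := ∀ m, m < nn (jj m) ∧ ∀ j, j < jj m → nn j ≤ m

def T_OLDFIN : Prop := ∀ j, (Old j).Finite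

/-- The probabilities before stage `j + 1` depend only on the coins that are old at stage `j`. -/
def T_HSDEP : Prop := ∀ (j : ℕ) (ω ω' : Om), (∀ a ∈ Old j, ω a = ω' a) →
  hs ω (j + 1) = hs ω' (j + 1)

def T_HSVAL : Prop := ∀ (ω : Om) (m j : ℕ), j < m → hs ω m j = hf ω j

/-- The bits of the supergales depend only on the stages that can be read. -/
def T_BLOC : Prop := ∀ (η η' : ℕ → ℕ → ℝ) (u : List Bool),
  (∀ j, 2 ^ nn j ≤ u.length → η j = η' j) → bitsOf η u = bitsOf η' u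

/-- The answers on a word of stage `j` depend only on the coins that are old at stage `j + 1` and on
the probabilities before stage `j`. -/
def T_ACC : Prop := ∀ (j t : ℕ) (η η' : ℕ → ℕ → ℝ) (ω ω' : Om), t ∈ Wd j →
  (∀ i, i < j → η i = η' i) → (∀ a ∈ Old (j + 1), ω a = ω' a) →
  (ans j η ω t ↔ ans j η' ω' t) ∧ (ans2 j η ω t ↔ ans2 j η' ω' t)

/-! ## The lower half -/

/-- **KEYP** (40 min). `l = lev κ x`, `v = jj l ≥ 1`, `kk v = nn (v - 1) / 8 ≤ l / 8`. Union over `i ≤ kk v`: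
`1 - exp (-a) ≤ a` with `a = 2 ^ i * 2 ^ (l / 8) / 2 ^ l`, the sum is at most `2 ^ (kk v + 1) * 2 ^ (l / 8) / 2 ^ l
≤ 2 * 2 ^ (2 * (l / 8)) / 2 ^ l`; `NoKey ω κ x i` has the probability `exp (-a) ^ (2 ^ l) = exp (-2 ^ i * 2 ^ (l / 8)) ≤
exp (-2 ^ (l / 8)) ≤ (1 / 8) ^ l` (`NN.nnexp`), `kk v + 1 ≤ 2 ^ l`. Together at most `2 ^ -(l / 2)`, as
`l ≥ nn 0 ≥ 24`. (`coin_cyl` of `MEAS.lean`; `RelC/FAIR.lean` `Ys`, `card_Ys` for the words of length `l`.) Prove also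
`theorem KEYP_.nokey : coin {ω | NoKey ω κ x i} ≤ ENNReal.ofReal ((1 / 8) ^ lev κ x)` for `nn 0 ≤ lev κ x`. -/
def T_KEYP : Prop := ∀ (κ : ℕ) (x y : List Bool), nn 0 ≤ lev κ x → y.length = lev κ x →
  coin {ω | ∃ i ≤ kk (jj (lev κ x)), ω (κ, x, y, i) = true ∨ NoKey ω κ x i} ≤
    (2⁻¹ : ℝ≥0∞) ^ (lev κ x / 2)

/-- **HIT** (45 min; from T_KEYP). Edit of `RelU/P_HIT.lean`; the level is `lev κ (str t ++ [false])`. For a pair
κ', x' that is not in `SS κ t` the event `zo ω κ' x' y = true` is contained in the event of KEYP (`op ω v ≤ kk v`,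
`NN.op_le`), which depends only on the key coins of the pair, and these are not in `Vis κ t`. `ov` depends on
`Vis κ t` only (`NN.zo_congr`). -/
def T_HIT : Prop := ∀ (κ t : ℕ) (Pr : List Instr) (X : Om → List Bool) (τ : ℕ),
  nn 0 ≤ lev κ (str t ++ [false]) → Dep (Vis κ t) X →
  (∀ ω, (X ω).length + τ < 2 ^ lev κ (str t ++ [false])) →
  coin {ω | ∃ s ≤ τ, run (oo ω) Pr (X ω) s ≠ run (ov κ t ω) Pr (X ω) s}
    ≤ τ * (2⁻¹ : ℝ≥0∞) ^ (lev κ (str t ++ [false]) / 2)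

/-- **FAIR** (20 min). `Hl κ ω (str t) = ω (κ, str t, [], 0)` is a fair coin that is not in `Vis κ t`: edit of
`RelU/P_FAIR.lean`. -/
def T_FAIR : Prop := ∀ (κ t : ℕ) (H : Om → ℝ≥0∞) (b : Bool),
  nn 0 ≤ lev κ (str t ++ [false]) → Measurable H → Dep (Vis κ t) H →
  ∫⁻ ω in {ω | Hl κ ω (str t) = b}, H ω ∂coin = 2⁻¹ * ∫⁻ ω, H ω ∂coin

/-- **NONB** (50 min; from T_HIT, T_FAIR). Edit of `RelU/P_NONB.lean` with `Hl κ ω` instead of `Rl (zo ω) κ` and
`lev κ (str t ++ [false])` instead of `lev κ (str t)` (`levmono`, so `Fast` may be used). -/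
def T_NONB : Prop := ∀ (κ : ℕ) (Pr : List Instr) (T : ℕ → ℕ), Fast κ T →
  ∀ᵐ ω ∂coin, ¬ ∃ d : ℕ → List Bool → ℝ,
    IsNullCover d {Hl κ ω} ∧ Approx (oo ω) Pr T d

/-- **NPM** (25 min; from `RelB.T_NPA`, `RelB.T_APP`). `Rl (zo ω) κ (x ++ [c]) = (c == ω (κ, x, [], 0))` (`NN.rl_zo`), so
`Hl κ ω = fun x => Rl (zo ω) κ (x ++ [true])` and its complement is `fun x => Rl (zo ω) κ (x ++ [false])`; `RelT.e1r`,
`RelT.e2r` for `Rl (zo ω) κ`. -/
def T_NPM : Prop := ∀ (G : Lang) (ω : Om) (κ : ℕ), Hl κ ω ∈ NPco (orc G (zo ω)) ∧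
  (κ % 2 = 1 → Hl κ ω ∈ E1 (orc G (zo ω))) ∧ (κ % 2 = 0 → Hl κ ω ∈ E2 (orc G (zo ω)))

/-! ## Sprinkling (finite) -/

open Classical in
/-- **OR** (40 min). The union of two independent random sets in which `d` is missing with the
probability `s d` is a random set in which `d` is missing with the probability `s d ^ 2`. (`RelS.PF_def`; sum over
`V = V₁ ∪ V₂`; `Finset.prod_univ_sum` or induction.) -/
def T_OR : Prop := ∀ (D : Type) [Fintype D] (s : D → ℝ) (A : Set (D → Bool)),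
  PF (fun d => s d ^ 2) A = ∑ V₁ : D → Bool, ∑ V₂ : D → Bool, wt s V₁ * wt s V₂ *
    if (fun d => V₁ d || V₂ d) ∈ A then 1 else 0

/-- **SPR** (50 min; from T_OR). PROOF. For `w` with an accepted witness choose one, `u w`. If `w₁`, `w₂` have accepted
witnesses, `w₂` is `false` on `Qs (u w₁) w₁` and `w₁` is `false` on `Qs (u w₂) w₂`, then (`loc`) `u w₁` and `u w₂` are
accepted with `w = w₁ ∪ w₂`, and `u w₁ ≠ u w₂`: if both are `u` then `Qs u w₁ = Qs u w = Qs u w₂ = Q`, and `w₁` is `false` on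
`Q`, so by `loc` `u` is accepted with `fun _ => false`, a contradiction. The probability that `w₂` is `true` somewhere on
`Qs (u w₁) w₁` is at most `q * ρ` (`w₂` is independent of `w₁`). -/
def T_SPR : Prop := ∀ (D : Type) [Fintype D] (U : Type) (q : ℕ) (T : Tree D U q) (s : D → ℝ)
  (ρ : ℝ), (∀ d, 0 ≤ s d) → (∀ d, s d ≤ 1) → (∀ d, 1 - s d ≤ ρ) → 0 ≤ ρ →
  (∀ u, ¬ T.Ac u fun _ => false) →
  PF s {w | ∃ u, T.Ac u w} ^ 2 ≤
    PF (fun d => s d ^ 2) {w | ∃ u u', u ≠ u' ∧ T.Ac u w ∧ T.Ac u' w} + 2 * (q * ρ)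

/-- **CSA** (20 min). If the witness `u` is accepted with `fun _ => false`, it is accepted with every `w` that is
`false` on `Qs u (fun _ => false)`. -/
def T_CSA : Prop := ∀ (D : Type) [Fintype D] (U : Type) (q : ℕ) (T : Tree D U q) (s : D → ℝ)
  (ρ : ℝ), (∀ d, 0 ≤ s d) → (∀ d, s d ≤ 1) → (∀ d, 1 - s d ≤ ρ) → 0 ≤ ρ →
  (∃ u, T.Ac u fun _ => false) → 1 - q * ρ ≤ PF s {w | ∃ u, T.Ac u w}

/-! ## The machine of a stage -/

/-- **TRE** (50 min). `Qs y w` = the `d` with `wq d.1.1 d.1.2.1 d.1.2.2` asked in the run on `pair (str t) y` with the oracle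
`orc (bitsOf η) (Wz j ω τ w)` (empty if `y` is too long); at most one per step, and there are at most
`qb v (str t).length` steps. `loc`: if `w = w'` on `Qs y w` the two oracles agree on all words asked (all other words of
length at most `qbs (ms j) _ < 2 ^ nn j`, `< nn (j + 1)` do not depend on `w`: `sq1` needs `lev < nn j`), so the runs
are the same (`RelM.loc`). Templates: `RelB/ACC.lean` `cert`, `RelU/P_CRT.lean`. -/
def T_TRE : Prop := ∀ (j t : ℕ) (η : ℕ → ℕ → ℝ) (ω τ : Om), t ∈ Wd j →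
  ∃ T : Tree (Dj j) (List Bool) (qbs (ms j) (str t).length),
    ∀ y w, T.Ac y w ↔ Aw j η ω τ (ucode (st j)) t y w

/-- **LKY** (40 min). Outside `NK j` the new words with the right sign have a key, so `zo (mixP (Old j) ω τ)` is
`Wz j ω τ (fun d => τ (iot .. (op τ (j + 1)) d))` on all words of level less than `nn (j + 1)` (for `lev κ x < nn j` all
coins used are old, for `nn j ≤ lev κ x < nn (j + 1)` none is, `jj (lev κ x) = j + 1`). Template `RelU/P_LNK.lean`. -/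
def T_LKY : Prop := ∀ (j t : ℕ) (η : ℕ → ℕ → ℝ) (ω τ : Om), t ∈ Wd j → τ ∉ NK j →
  (ans j η (mixP (Old j) ω τ) t ↔ ∃ y, Aw j η ω τ (ucode (st j)) t y
    fun d => τ (iot (nn j) (nn (j + 1)) (op τ (j + 1)) d)) ∧
  (ans2 j η (mixP (Old j) ω τ) t ↔ ∃ y y', y ≠ y' ∧
    (Aw j η ω τ (ucode (st j)) t y fun d => τ (iot (nn j) (nn (j + 1)) (op τ (j + 1)) d)) ∧
    (Aw j η ω τ (ucode (st j)) t y' fun d => τ (iot (nn j) (nn (j + 1)) (op τ (j + 1)) d)))

/-- **NKB** (50 min; the lemma `KEYP_.nokey` may be proved here again in your namespace). Union over the pairs with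
`nn j ≤ lev κ x < nn (j + 1)` and `i ≤ kk (j + 1) = nn j / 8`: each `NoKey τ κ x i` has probability at most
`(1 / 8) ^ lev κ x`; `κ ≤ lev κ x` and `x.length ≤ lev κ x` (`RelO.levfin`), so at most `(l + 1) * 2 ^ (l + 1)` pairs have
level `l`; sum over `l ≥ nn j` of `(l + 1) ^ 2 * 2 ^ (l + 1) * (1 / 8) ^ l ≤ 2 * (1 / 2) ^ l`, so at most
`4 * (1 / 2) ^ nn j ≤ 1 / (j + 1)`. -/
def T_NKB : Prop := ∀ j : ℕ, coin.real (NK j) ≤ 1 / ((j : ℝ) + 1)

/-- **RHO** (20 min). The words in `Dj j` are not empty (`lev κ x ≥ 4`), `l = lev κ x ≥ nn j`, `i ≤ nn j / 8`: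
`1 - exp (-a) ≤ a = 2 ^ i * 2 ^ (l / 8) / 2 ^ l ≤ 2 ^ -(nn j / 2)`. -/
def T_RHO : Prop := (∀ (j i : ℕ) (d : Dj j), i ≤ kk (j + 1) →
    1 - si j i d ≤ (1 / 2 : ℝ) ^ (nn j / 2)) ∧
  ∀ (j i : ℕ), si j (i + 1) = fun d => si j i d ^ 2

/-- **AVG** (60 min). The option `op τ (j + 1)` is `i ≤ kk (j + 1)` with the probability `pr (j + 1) i` (`coin_cyl`: the
first `i` option coins are `true`, the next `false`); it is independent of the other coins; for fixed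
signs the new key coins with the option `i` have the law `PF (si j i)` (`coin_map`, `RelB.pi_real`). Use
`MEAS.indep`, `lint_mix` (with `p` = all coins except the new key coins). -/
def T_AVG : Prop := ∀ (j : ℕ) (Q : Om → Set (Dj j → Bool)),
  (∀ τ τ' : Om, (∀ a ∈ Old (j + 1), a.2.2.1 = [] → a.2.2.2 = 0 → τ a = τ' a) → Q τ = Q τ') →
  coin.real {τ | (fun d => τ (iot (nn j) (nn (j + 1)) (op τ (j + 1)) d)) ∈ Q τ} =
    ∫ τ, ∑ i ∈ Finset.range (kk (j + 1) + 1), pr (j + 1) i * PF (si j i) (Q τ) ∂coin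

/-- **PAQ** (50 min; from T_SPR, T_CSA, T_TRE, T_LKY, T_NKB, T_RHO, T_AVG). Put `q = qbs (ms j) _`, `ρ = (1 / 2) ^ (nn j / 2)`,
`2 q ρ ≤ 1 / (j + 1)` (`ACC.qb_small`), `ν = coin.real (NK j)`, `A τ = {w | ∃ y, Aw ..}`, `B τ = {w | two witnesses}` (they depend
only on the signs). Whether some `y` is accepted with `fun _ => false` does not depend on `τ`. (a) If so, CSA and AVG
(`∑ pr = 1`) give `1 - pa ≤ q ρ + ν`. (b) If not, for `g i = PF (si j i) (A τ)`, `h i = PF (si j i) (B τ)`: `g i ≤ θ + (g i) ^ 2 / θ ≤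
θ + (h (i + 1) + 2 q ρ) / θ` (SPR, RHO), `pr i ≤ 2 pr (i + 1)` for `i < kk`, `pr kk = (1 / 2) ^ kk ≤ 1 / (j + 1)`, so
`∑ pr i g i ≤ θ + 2 q ρ / θ + (2 / θ) ∑ pr i h i + 1 / (j + 1)`. Integrate (AVG for `A` and for `B`):
`pa ≤ ν + θ + 2 q ρ / θ + (2 / θ) (ε + ν) + 1 / (j + 1)`. -/
def T_PAQ : Prop := ∀ (j t : ℕ) (η : ℕ → ℕ → ℝ) (ω : Om) (θ ε : ℝ), t ∈ Wd j → 0 < θ →
  coin.real {τ | ans2 j η (mixP (Old j) ω τ) t} ≤ ε →
  pa j η ω t * (1 - pa j η ω t) ≤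
    θ + 2 / θ * (ε + 2 * (1 / ((j : ℝ) + 1))) + 2 * (1 / ((j : ℝ) + 1))

/-! ## Infinitely many successes -/

/-- **DNS** (10 min). Copy of `RelU/P_DNS.lean`. -/
def T_DNS : Prop := ∀ (S : Set Om), MeasurableSet S → coin S ≠ 0 → ∀ ε : ℝ, 0 < ε →
  ∀ e m : ℕ, ∃ j, m ≤ j ∧ st j = e ∧ ∃ ω : Om, coin.real {τ | mixP (Old j) ω τ ∉ S} ≤ ε

/-- **SUC** (10 min). Copy of `RelU/P_SUC.lean`. -/
def T_SUC : Prop := ∀ (δ : ℝ), 0 < δ → ∀ (j : ℕ) (ω : Om),
  ∑ t ∈ Wd j, Real.binEntropy (pp j t ω) ≤ δ / 2 * 2 ^ (nn j + j) →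
  coin {τ | mixP (Old j) ω τ ∈ fail δ j} ≤ ENNReal.ofReal (1 / 2)

/-- **PWL** (10 min). Copy of `RelU/P_PWL.lean`. -/
def T_PWL : Prop := ∀ (δ : ℝ) (j : ℕ) (ω : Om), ω ∉ fail δ j →
  Real.exp (-(δ * 2 ^ (nn j + j) + 2 ^ nn j)) ≤ Pw (hf ω) j (pre (Lj j ω) (2 ^ (nn j + j)))

/-- **IOS** (30 min; from T_PAQ, `RelU.T_ENT`, T_DNS, T_SUC). Edit of `RelU/P_IOS.lean`: the event of the failure of the
hypothesis at `t` is now `Tr2`; `θ = γ / 4`, `ε` and `1 / (j + 1)` so small that the bound of PAQ is at most `γ`. -/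
def T_IOS : Prop := ∀ (e : ℕ) (δ : ℝ), 0 < δ → ∀ᵐ ω ∂coin,
  (∀ j, st j = e → ∀ t ∈ Wd j, ¬ Tr2 j t ω) →
  ∀ m : ℕ, ∃ j, m ≤ j ∧ st j = e ∧ ω ∉ fail δ j

/-- **UPP** (30 min; from T_IOS, T_PWL, `RelB.T_AFF`). Edit of `RelU/P_UPP.lean`: for `A ∈ UP (oo ω)` there is `e` with
`ucode e = (P, j, k)`, `A x = true ↔ acc (oo ω) (ucode e) x` and `¬ amb (oo ω) (ucode e) x`. -/
def T_UPP : Prop := ∀ᵐ ω ∂coin, ∀ s : ℝ, 0 < s →
  GaleNull1 s (oo ω) (Pool.Agent.RelQ.UP (oo ω)) ∧ GaleNull2 s (oo ω) (Pool.Agent.RelQ.UP (oo ω))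

end Pool.Agent.RelY
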