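import Pool.Agent.RelY.NN
import Pool.Agent.RelY.MEAS

/-!
# RelY, target AVG: the law of the option and of the new key coins
-/

set_option autoImplicit false

namespace Pool.Agent.RelY

open MeasureTheory Set
open scoped ENNReal
open Pool.Agent.RelO (lev)
open Pool.Agent.RelS (Idx Om bern bern_prob Dep mixP PF wt fd meas_of_dep mixP_pos mixP_neg
  PF_nonneg PF_le_one)
open Pool.Agent.RelB (iot iot_inj pi_real)

namespace AVG_

theorem sInf_iff {s : Set ℕ} (hs : s.Nonempty) (i : ℕ) :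
    sInf s = i ↔ i ∈ s ∧ ∀ m < i, m ∉ s := by
  constructor
  · rintro rfl
    exact ⟨Nat.sInf_mem hs, fun m hm => Nat.notMem_of_lt_sInf hm⟩
  · rintro ⟨h1, h2⟩
    refine le_antisymm (Nat.sInf_le h1) ?_
    by_contra hlt
    exact h2 _ (not_le.1 hlt) (Nat.sInf_mem hs)

theorem op_iff (τ : Om) (v i : ℕ) : op τ v = i ↔
    (τ (v, [], [], i + 1) = false ∨ kk v ≤ i) ∧
      ∀ m < i, ¬ (τ (v, [], [], m + 1) = false ∨ kk v ≤ m) := by
  unfold op
  exact sInf_iff (s := {m | τ (v, [], [], m + 1) = false ∨ kk v ≤ m}) ⟨kk v, Or.inr le_rfl⟩ i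

theorem op_lt {τ : Om} {v i : ℕ} (hi : i < kk v) : op τ v = i ↔
    ∀ m ∈ Finset.range (i + 1), τ (v, [], [], m + 1) = decide (m < i) := by
  rw [op_iff]
  constructor
  · rintro ⟨h1, h2⟩ m hm
    have hm' := Finset.mem_range.1 hm
    rcases lt_or_eq_of_le (Nat.lt_succ_iff.1 hm') with h | rfl
    · have h3 := h2 m h
      rw [not_or] at h3
      rw [decide_eq_true h]
      simpa using h3.1
    · rcases h1 with h1 | h1
      · rw [h1]
        simp
      · omega
  · intro h
    refine ⟨Or.inl ?_, fun m hm => ?_⟩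
    · rw [h i (Finset.mem_range.2 (by omega))]
      simp
    · rw [h m (Finset.mem_range.2 (by omega)), decide_eq_true hm]
      rintro (h3 | h3)
      · simp at h3
      · omega

theorem op_eq {τ : Om} {v : ℕ} : op τ v = kk v ↔
    ∀ m ∈ Finset.range (kk v), τ (v, [], [], m + 1) = true := by
  rw [op_iff]
  constructor
  · rintro ⟨-, h2⟩ m hm
    have h3 := h2 m (Finset.mem_range.1 hm)
    rw [not_or] at h3
    simpa using h3.1
  · intro h
    refine ⟨Or.inr le_rfl, fun m hm => ?_⟩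
    rw [h m (Finset.mem_range.2 hm)]
    rintro (h3 | h3)
    · simp at h3
    · omega

theorem cyl2 (v : ℕ) (N : Finset ℕ) (b : ℕ → Bool) :
    coin {ω | ∀ m ∈ N, ω (v, [], [], m + 1) = b m} = ENNReal.ofReal ((1 / 2) ^ N.card) := by
  classical
  have h := coin_cyl (N.image fun m => ((v, [], [], m + 1) : Idx)) fun a => b (a.2.2.2 - 1)
  have hs : {ω : Om | ∀ a ∈ N.image fun m => ((v, [], [], m + 1) : Idx),
      ω a = b (a.2.2.2 - 1)} = {ω | ∀ m ∈ N, ω (v, [], [], m + 1) = b m} := by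
    ext ω
    simp
  rw [hs] at h
  rw [h, Finset.prod_image (fun m _ m' _ hm => by simpa using hm)]
  rw [ENNReal.ofReal_pow (by norm_num), ← Finset.prod_const]
  refine Finset.prod_congr rfl fun m _ => ?_
  have h2 : sv ((v, [], [], m + 1) : Idx) = 1 / 2 := by
    unfold sv
    rw [if_pos rfl]
  rw [h2]
  congr 1
  split_ifs <;> norm_num

theorem op_law {v i : ℕ} (hi : i ≤ kk v) : coin {τ | op τ v = i} = ENNReal.ofReal (pr v i) := by
  rcases lt_or_eq_of_le hi with h | rfl
  · have h1 : {τ : Om | op τ v = i} =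
        {τ | ∀ m ∈ Finset.range (i + 1), τ (v, [], [], m + 1) = decide (m < i)} := by
      ext τ
      exact op_lt h
    rw [h1, cyl2, Finset.card_range]
    unfold pr
    rw [if_pos h]
  · have h1 : {τ : Om | op τ v = kk v} =
        {τ | ∀ m ∈ Finset.range (kk v), τ (v, [], [], m + 1) = true} := by
      ext τ
      exact op_eq
    rw [h1, cyl2 v (Finset.range (kk v)) fun _ => true, Finset.card_range]
    unfold pr
    rw [if_neg (lt_irrefl _)]

theorem op_meas (v i : ℕ) : MeasurableSet {τ : Om | op τ v = i} := by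
  refine fd (F := ((Finset.range (kk v)).image fun m => ((v, [], [], m + 1) : Idx) :
    Finset Idx)) (Finset.finite_toSet _) fun ω ω' h => ?_
  have h1 : op ω v = op ω' v := op_congr fun m hm => h _ (by
    rw [Finset.coe_image]
    exact ⟨m, Finset.mem_coe.2 (Finset.mem_range.2 hm), rfl⟩)
  show op ω v = i ↔ op ω' v = i
  rw [h1]

theorem iot_ne {j i : ℕ} (d : Dj j) : (iot (nn j) (nn (j + 1)) i d).2.2.1 ≠ [] :=
  key_ne d.2.2.2

theorem key_meas (j i : ℕ) (Q : Set (Dj j → Bool)) :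
    MeasurableSet {τ : Om | (fun d => τ (iot (nn j) (nn (j + 1)) i d)) ∈ Q} := by
  have h1 : Measurable fun (τ : Om) (d : Dj j) => τ (iot (nn j) (nn (j + 1)) i d) :=
    measurable_pi_lambda _ fun d => measurable_pi_apply _
  exact h1 MeasurableSet.of_discrete

theorem key_law (j i : ℕ) (Q : Set (Dj j → Bool)) :
    coin {τ : Om | (fun d => τ (iot (nn j) (nn (j + 1)) i d)) ∈ Q} =
      ENNReal.ofReal (PF (si j i) Q) := by
  have h1 := coin_map (iot (nn j) (nn (j + 1)) i) (iot_inj _ _ i)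
  have h2 := pi_real (q := si j i) (fun d => (sv_pos _).le) (fun d => sv_le_one _) Q
  have h3 : (coin.map fun (ω : Om) (d : Dj j) => ω (iot (nn j) (nn (j + 1)) i d)) Q =
      coin {τ : Om | (fun d => τ (iot (nn j) (nn (j + 1)) i d)) ∈ Q} :=
    Measure.map_apply (measurable_pi_lambda _ fun d => measurable_pi_apply _)
      MeasurableSet.of_discrete
  rw [← h3, h1, ← h2]
  have : IsProbabilityMeasure (Measure.pi fun d : Dj j =>
      bern (sv (iot (nn j) (nn (j + 1)) i d))) := by infer_instance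
  exact (ENNReal.ofReal_toReal (measure_ne_top _ _)).symm

theorem inter_law (j i : ℕ) (hi : i ≤ kk (j + 1)) (Q : Set (Dj j → Bool)) :
    coin ({τ : Om | op τ (j + 1) = i} ∩
      {τ : Om | (fun d => τ (iot (nn j) (nn (j + 1)) i d)) ∈ Q}) =
      ENNReal.ofReal (pr (j + 1) i * PF (si j i) Q) := by
  have hA := op_meas (j + 1) i
  have hC := key_meas j i Q
  have h0 : (0 : ℝ) ≤ pr (j + 1) i := by
    unfold pr
    split_ifs <;> positivity
  rw [ENNReal.ofReal_mul h0, ← op_law hi, ← key_law j i Q]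
  rw [← lintegral_indicator_one (hA.inter hC), ← lintegral_indicator_one hA,
    ← lintegral_indicator_one hC]
  rw [← indep (p := {a : Idx | a.2.2.1 = []}) (measurable_one.indicator hA)
    (measurable_one.indicator hC)]
  · refine lintegral_congr fun τ => ?_
    by_cases h1 : τ ∈ {τ : Om | op τ (j + 1) = i}
    · by_cases h2 : τ ∈ {τ : Om | (fun d => τ (iot (nn j) (nn (j + 1)) i d)) ∈ Q}
      · rw [indicator_of_mem h1, indicator_of_mem h2,
          indicator_of_mem (Set.mem_inter h1 h2)]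
        simp
      · rw [indicator_of_mem h1, indicator_of_notMem h2, indicator_of_notMem fun h => h2 h.2]
        simp
    · rw [indicator_of_notMem h1, indicator_of_notMem fun h => h1 h.1]
      simp
  · intro ω ω' h
    have h1 : op ω (j + 1) = op ω' (j + 1) := op_congr fun m _ => h _ rfl
    have h2 : ω ∈ {τ : Om | op τ (j + 1) = i} ↔ ω' ∈ {τ : Om | op τ (j + 1) = i} := by
      show op ω (j + 1) = i ↔ op ω' (j + 1) = i
      rw [h1]
    by_cases h3 : ω ∈ {τ : Om | op τ (j + 1) = i}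
    · rw [indicator_of_mem h3, indicator_of_mem (h2.1 h3)]
      rfl
    · rw [indicator_of_notMem h3, indicator_of_notMem fun h => h3 (h2.2 h)]
  · intro ω ω' h
    have h1 : (fun d => ω (iot (nn j) (nn (j + 1)) i d)) =
        fun d => ω' (iot (nn j) (nn (j + 1)) i d) := by
      funext d
      exact h _ fun h4 => iot_ne d h4
    have h2 : ω ∈ {τ : Om | (fun d => τ (iot (nn j) (nn (j + 1)) i d)) ∈ Q} ↔
        ω' ∈ {τ : Om | (fun d => τ (iot (nn j) (nn (j + 1)) i d)) ∈ Q} := by
      show (fun d => ω (iot (nn j) (nn (j + 1)) i d)) ∈ Q ↔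
        (fun d => ω' (iot (nn j) (nn (j + 1)) i d)) ∈ Q
      rw [h1]
    by_cases h3 : ω ∈ {τ : Om | (fun d => τ (iot (nn j) (nn (j + 1)) i d)) ∈ Q}
    · rw [indicator_of_mem h3, indicator_of_mem (h2.1 h3)]
      rfl
    · rw [indicator_of_notMem h3, indicator_of_notMem fun h => h3 (h2.2 h)]

/-- the law of the new coins for a fixed event -/
theorem law (j : ℕ) (Q : Set (Dj j → Bool)) :
    coin {τ : Om | (fun d => τ (iot (nn j) (nn (j + 1)) (op τ (j + 1)) d)) ∈ Q} =
      ENNReal.ofReal (∑ i ∈ Finset.range (kk (j + 1) + 1), pr (j + 1) i * PF (si j i) Q) := by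
  have h1 : {τ : Om | (fun d => τ (iot (nn j) (nn (j + 1)) (op τ (j + 1)) d)) ∈ Q} =
      ⋃ i ∈ Finset.range (kk (j + 1) + 1), ({τ : Om | op τ (j + 1) = i} ∩
        {τ : Om | (fun d => τ (iot (nn j) (nn (j + 1)) i d)) ∈ Q}) := by
    ext τ
    simp only [Set.mem_iUnion, Set.mem_inter_iff, Set.mem_ofPred_eq, Finset.mem_range,
      exists_prop]
    constructor
    · intro h
      exact ⟨op τ (j + 1), Nat.lt_succ_of_le (op_le τ (j + 1)), rfl, h⟩
    · rintro ⟨i, -, h2, h3⟩
      rw [h2]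
      exact h3
  rw [h1, measure_biUnion_finset]
  · rw [ENNReal.ofReal_sum_of_nonneg]
    · exact Finset.sum_congr rfl fun i hi =>
        inter_law j i (Nat.lt_succ_iff.1 (Finset.mem_range.1 hi)) Q
    · intro i _
      have h0 : (0 : ℝ) ≤ pr (j + 1) i := by
        unfold pr
        split_ifs <;> positivity
      exact mul_nonneg h0 (PF_nonneg (fun d => (sv_pos _).le) (fun d => sv_le_one _) Q)
  · intro i _ i' _ hne
    refine Set.disjoint_left.2 fun τ h2 h3 => hne ?_
    have h4 : op τ (j + 1) = i := h2.1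
    have h5 : op τ (j + 1) = i' := h3.1
    rw [← h4, ← h5]
  · exact fun i _ => (op_meas (j + 1) i).inter (key_meas j i Q)

end AVG_

theorem p_AVG : T_AVG := by
  intro j Q hQ
  set S : Set Idx := {a | a ∈ Old (j + 1) ∧ a.2.2.1 = [] ∧ a.2.2.2 = 0} with hS
  have hSf : S.Finite := (oldfin (j + 1)).subset fun a ha => ha.1
  have hQ' : ∀ τ τ' : Om, (∀ a ∈ S, τ a = τ' a) → Q τ = Q τ' := fun τ τ' h =>
    hQ τ τ' fun a h1 h2 h3 => h a ⟨h1, h2, h3⟩
  set E : Set Om := {τ | (fun d => τ (iot (nn j) (nn (j + 1)) (op τ (j + 1)) d)) ∈ Q τ} with hE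
  have hEm : MeasurableSet E := by
    refine fd (oldfin (j + 1)) fun ω ω' h => ?_
    have h1 : op ω (j + 1) = op ω' (j + 1) := op_congr fun m hm => h _ (old_op le_rfl hm)
    have h2 : Q ω = Q ω' := hQ' ω ω' fun a ha => h a ha.1
    have h3 : (fun d => ω (iot (nn j) (nn (j + 1)) (op ω (j + 1)) d)) =
        fun d => ω' (iot (nn j) (nn (j + 1)) (op ω' (j + 1)) d) := by
      funext d
      rw [← h1]
      refine h _ (old_key d.2.2.1 d.2.2.2 ?_)
      have h4 := op_le ω (j + 1)
      have h5 := kk_le (le_refl (j + 1))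
      omega
    show (fun d => ω (iot (nn j) (nn (j + 1)) (op ω (j + 1)) d)) ∈ Q ω ↔
      (fun d => ω' (iot (nn j) (nn (j + 1)) (op ω' (j + 1)) d)) ∈ Q ω'
    rw [h2, h3]
  have key : coin E = ∫⁻ ω, ENNReal.ofReal
      (∑ i ∈ Finset.range (kk (j + 1) + 1), pr (j + 1) i * PF (si j i) (Q ω)) ∂coin := by
    have h1 := lint_mix (p := S) hEm (H := fun _ => 1) measurable_const fun _ _ _ => rfl
    rw [lintegral_const, Measure.restrict_apply MeasurableSet.univ, Set.univ_inter, one_mul] at h1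
    rw [h1]
    refine lintegral_congr fun ω => ?_
    rw [one_mul, ← AVG_.law j (Q ω)]
    congr 1
    ext τ
    have h2 : op (mixP S ω τ) (j + 1) = op τ (j + 1) := op_congr fun m _ =>
      mixP_neg fun h => Nat.succ_ne_zero m h.2.2
    have h3 : Q (mixP S ω τ) = Q ω := hQ' _ _ fun a ha => mixP_pos ha
    have h4 : ∀ (i : ℕ) (d : Dj j), mixP S ω τ (iot (nn j) (nn (j + 1)) i d) =
        τ (iot (nn j) (nn (j + 1)) i d) := fun i d =>
      mixP_neg fun h => AVG_.iot_ne d h.2.1
    show (fun d => mixP S ω τ (iot (nn j) (nn (j + 1)) (op (mixP S ω τ) (j + 1)) d)) ∈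
      Q (mixP S ω τ) ↔ (fun d => τ (iot (nn j) (nn (j + 1)) (op τ (j + 1)) d)) ∈ Q ω
    rw [h2, h3]
    simp only [h4]
  have hnn : ∀ ω : Om, 0 ≤
      ∑ i ∈ Finset.range (kk (j + 1) + 1), pr (j + 1) i * PF (si j i) (Q ω) := by
    intro ω
    refine Finset.sum_nonneg fun i _ => ?_
    have h0 : (0 : ℝ) ≤ pr (j + 1) i := by
      unfold pr
      split_ifs <;> positivity
    exact mul_nonneg h0 (PF_nonneg (fun d => (sv_pos _).le) (fun d => sv_le_one _) _)
  have hms : Measurable fun ω : Om =>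
      ∑ i ∈ Finset.range (kk (j + 1) + 1), pr (j + 1) i * PF (si j i) (Q ω) := by
    refine meas_of_dep hSf fun ω ω' h => ?_
    show (∑ i ∈ Finset.range (kk (j + 1) + 1), pr (j + 1) i * PF (si j i) (Q ω)) =
      ∑ i ∈ Finset.range (kk (j + 1) + 1), pr (j + 1) i * PF (si j i) (Q ω')
    rw [hQ' ω ω' h]
  rw [integral_eq_lintegral_of_nonneg_ae (Filter.Eventually.of_forall hnn)
    hms.aestronglyMeasurable, ← key]
  rfl

end Pool.Agent.RelY
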