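import Pool.Agent.RelY.P_THR
import Pool.Agent.RelB.NN
import Pool.Agent.RelO.LEV
import Pool.Agent.RelM.LOC
import Pool.Agent.RelS.NNS

/-!
# The beginnings of the stages
-/

set_option autoImplicit false

namespace Pool.Agent.RelY

open Pool.Agent.RelB (ML qbs)
open Pool.Agent.RelM (Lang str qb)
open Pool.Agent.RelO (lev st levfin levmono)
open Pool.Agent.RelS (Z Rl orcV orc acc Idx Om Dep mixP)

namespace NN_

theorem thr_spec (j : ℕ) : 8 * (j + 3) ≤ thr j ∧ 2 ^ j ≤ thr j ∧ ∀ n, thr j ≤ n →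
    qbs (ms j) (n + j) + 2 < 2 ^ n ∧
    ((j : ℝ) + 1) * (2 * (qbs (ms j) (n + j) : ℝ)) ≤ 2 ^ (n / 2) ∧
    Real.exp (-(2 : ℝ) ^ (n / 8)) ≤ (1 / 8) ^ n := by
  have hne : {N | 8 * (j + 3) ≤ N ∧ 2 ^ j ≤ N ∧ ∀ n, N ≤ n →
      qbs (ms j) (n + j) + 2 < 2 ^ n ∧
      ((j : ℝ) + 1) * (2 * (qbs (ms j) (n + j) : ℝ)) ≤ 2 ^ (n / 2) ∧
      Real.exp (-(2 : ℝ) ^ (n / 8)) ≤ (1 / 8) ^ n}.Nonempty := by
    obtain ⟨N, hN⟩ := p_THR j
    refine ⟨max N (max (8 * (j + 3)) (2 ^ j)), ?_, ?_, fun n hn => ?_⟩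
    · exact (le_max_left _ _).trans (le_max_right _ _)
    · exact (le_max_right _ _).trans (le_max_right _ _)
    · exact hN n ((le_max_left _ _).trans hn)
  exact Nat.sInf_mem hne

theorem thr_le (j : ℕ) : thr j ≤ nn j := by
  cases j with
  | zero => exact le_rfl
  | succ j => rw [nn]; exact le_max_right _ _

end NN_

open NN_

theorem nnmono : T_NNMONO := by
  refine strictMono_nat_of_lt_succ fun j => ?_
  rw [nn]
  refine lt_of_lt_of_le (Nat.lt_succ_of_le ?_) (le_max_left _ _)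
  exact (Nat.le_add_right _ _).trans (le_max_right _ _)

theorem nnge : T_NNGE := fun j => (thr_spec j).1.trans (thr_le j)

theorem nnp (j : ℕ) : 2 ^ j ≤ nn j := (thr_spec j).2.1.trans (thr_le j)

theorem nnq (j n : ℕ) (h : nn j ≤ n) : qbs (ms j) (n + j) + 2 < 2 ^ n :=
  ((thr_spec j).2.2 n ((thr_le j).trans h)).1

theorem nnmd (j n : ℕ) (h : nn j ≤ n) :
    ((j : ℝ) + 1) * (2 * (qbs (ms j) (n + j) : ℝ)) ≤ 2 ^ (n / 2) :=
  ((thr_spec j).2.2 n ((thr_le j).trans h)).2.1

/-- The words of late levels have keys with very large probability. -/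
theorem nnexp (n : ℕ) (h : nn 0 ≤ n) : Real.exp (-(2 : ℝ) ^ (n / 8)) ≤ (1 / 8) ^ n :=
  ((thr_spec 0).2.2 n ((thr_le 0).trans h)).2.2

theorem nnnext (j : ℕ) : qbs (ms j) (nn j + j) < nn (j + 1) := by
  rw [nn]
  exact lt_of_lt_of_le (Nat.lt_succ_of_le (le_max_left _ _)) (le_max_left _ _)

theorem nnnext' (j : ℕ) : nn j + j < nn (j + 1) := by
  rw [nn]
  exact lt_of_lt_of_le (Nat.lt_succ_of_le (le_max_right _ _)) (le_max_left _ _)

theorem jjspec : T_JJ := by
  intro m
  have hne : {j | m < nn j}.Nonempty := ⟨m, by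
    have := nnge m
    show m < nn m
    omega⟩
  refine ⟨Nat.sInf_mem hne, fun j hj => ?_⟩
  have := Nat.notMem_of_lt_sInf hj
  exact not_lt.1 this

/-- The stage of a cost between two beginnings. -/
theorem jj_eq {m j : ℕ} (h1 : nn j ≤ m) (h2 : m < nn (j + 1)) : jj m = j + 1 := by
  obtain ⟨h3, h4⟩ := jjspec m
  have h5 : jj m ≤ j + 1 := by
    by_contra h
    have := h4 (j + 1) (by omega)
    omega
  have h6 : j < jj m := by
    by_contra h
    have h7 : nn (jj m) ≤ nn j := nnmono.monotone (by omega)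
    omega
  omega

theorem jj_le {m j : ℕ} (h : m < nn j) : jj m ≤ j := by
  by_contra h1
  have := (jjspec m).2 j (by omega)
  omega

theorem oldfin : T_OLDFIN := by
  intro j
  have h1 : (Set.Iic (nn j) ×ˢ ({x : List Bool | x.length ≤ nn j} ×ˢ
      ({y : List Bool | y.length ≤ nn j} ×ˢ Set.Iic (nn j))) : Set Idx).Finite :=
    (Set.finite_Iic _).prod ((List.finite_length_le Bool _).prod
      ((List.finite_length_le Bool _).prod (Set.finite_Iic _)))
  refine h1.subset ?_
  rintro ⟨κ, x, y, i⟩ ⟨h2, h3, h4, h5, -⟩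
  exact ⟨h2, h3, h4, h5⟩

theorem old_mono {m m' : ℕ} (h : m ≤ m') : Old m ⊆ Old m' := by
  rintro a ⟨h1, h2, h3, h4, h5, h6, h7⟩
  have h8 := nnmono.monotone h
  exact ⟨h1.trans h8, h2.trans h8, h3.trans h8, h4.trans h8,
    fun e1 e2 => (h5 e1 e2).trans_le h8, fun e1 e2 => (h6 e1 e2).trans h,
    fun e1 => (h7 e1).trans_le h8⟩

/-- Every coin is old in the end. -/
theorem old_all (a : Idx) : ∃ m, a ∈ Old m := by
  refine ⟨a.1 + a.2.1.length + a.2.2.1.length + a.2.2.2 + lev a.1 (a.2.1 ++ [false]) +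
    lev a.1 a.2.1, ?_⟩
  have := nnge (a.1 + a.2.1.length + a.2.2.1.length + a.2.2.2 + lev a.1 (a.2.1 ++ [false]) +
    lev a.1 a.2.1)
  refine ⟨?_, ?_, ?_, ?_, ?_, ?_, ?_⟩
  all_goals
    intros
    omega

/-! ## The coins of a pair -/

theorem lev_len {κ : ℕ} {x x' : List Bool} (h : x.length = x'.length) : lev κ x = lev κ x' :=
  le_antisymm (levmono _ _ _ h.le) (levmono _ _ _ h.ge)

theorem lev_pos (κ : ℕ) (x : List Bool) : 0 < lev κ x := by
  unfold lev
  split_ifs <;> positivity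

/-- A key is not the empty word. -/
theorem key_ne {κ : ℕ} {x y : List Bool} (h : y.length = lev κ x) : y ≠ [] := by
  rintro rfl
  have := lev_pos κ x
  simp at h
  omega

/-- The sign coin of a signed word is old if the word is cheap. -/
theorem old_sgn {j κ : ℕ} {x : List Bool} (hx : x ≠ []) (h : lev κ x < nn j) :
    ((κ, x.dropLast, [], 0) : Idx) ∈ Old j := by
  obtain ⟨h1, h2⟩ := levfin κ x (nn j) h.le
  have h3 : (x.dropLast ++ [false]).length = x.length := by
    have := List.length_pos_iff.2 hx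
    simp
    omega
  refine ⟨h1, ?_, Nat.zero_le _, Nat.zero_le _, fun _ _ => ?_, fun _ e => absurd rfl e,
    fun e => absurd rfl e⟩
  · show x.dropLast.length ≤ nn j
    rw [List.length_dropLast]
    omega
  · show lev κ (x.dropLast ++ [false]) < nn j
    rw [lev_len h3]
    exact h

theorem kk_le {v j : ℕ} (h : v ≤ j) : kk v ≤ nn j / 8 :=
  Nat.div_le_div_right (nnmono.monotone (by omega))

/-- The option coins of an old stage are old. -/
theorem old_op {v j m : ℕ} (h : v ≤ j) (hm : m < kk v) : ((v, [], [], m + 1) : Idx) ∈ Old j := by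
  have h1 := nnge j
  have h2 := kk_le h
  refine ⟨?_, Nat.zero_le _, Nat.zero_le _, ?_, fun _ e => absurd e (Nat.succ_ne_zero m),
    fun _ _ => h, fun e => absurd rfl e⟩
  · show v ≤ nn j
    omega
  · show m + 1 ≤ nn j
    omega

/-- The key coins of a cheap word are old. -/
theorem old_key {j κ i : ℕ} {x y : List Bool} (h : lev κ x < nn j) (hy : y.length = lev κ x)
    (hi : i ≤ nn j) : ((κ, x, y, i) : Idx) ∈ Old j := by
  obtain ⟨h1, h2⟩ := levfin κ x (nn j) h.le
  refine ⟨h1, h2, ?_, hi, fun e => absurd e (key_ne hy), fun e => absurd e (key_ne hy),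
    fun _ => h⟩
  show y.length ≤ nn j
  omega

/-! ## The options -/

theorem op_le (ω : Om) (v : ℕ) : op ω v ≤ kk v := Nat.sInf_le (Or.inr le_rfl)

theorem op_congr {ω ω' : Om} {v : ℕ} (h : ∀ m < kk v, ω (v, [], [], m + 1) = ω' (v, [], [], m + 1)) :
    op ω v = op ω' v := by
  unfold op
  congr 1
  ext m
  simp only [Set.mem_ofPred_eq]
  by_cases hm : kk v ≤ m
  · simp [hm]
  · rw [h m (by omega)]

/-- The world depends only on the coins of the pairs and on the options. -/
theorem zo_congr {ω ω' : Om} {κ : ℕ} {x : List Bool}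
    (h0 : x ≠ [] → ω (κ, x.dropLast, [], 0) = ω' (κ, x.dropLast, [], 0))
    (h1 : op ω (jj (lev κ x)) = op ω' (jj (lev κ x)))
    (h2 : ∀ y : List Bool, y.length = lev κ x →
      ω (κ, x, y, op ω (jj (lev κ x))) = ω' (κ, x, y, op ω (jj (lev κ x))))
    {y : List Bool} (hy : y.length = lev κ x) : zo ω κ x y = zo ω' κ x y := by
  have h3 : sgn ω κ x = sgn ω' κ x := by
    unfold sgn
    rcases eq_or_ne x [] with rfl | hx
    · rfl
    · rw [List.getLast?_eq_some_getLast hx]
      simp only [h0 hx]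
  have h4 : NoKey ω κ x (op ω (jj (lev κ x))) ↔ NoKey ω' κ x (op ω' (jj (lev κ x))) := by
    unfold NoKey
    rw [← h1]
    refine forall_congr' fun y' => forall_congr' fun hy' => ?_
    rw [h2 y' hy']
  unfold zo
  rw [h3, h2 y hy, ← h1]
  congr 2
  rw [decide_eq_decide, h4, ← h1]

/-- The old part of the world. -/
theorem zo_old {ω ω' : Om} {j κ : ℕ} {x y : List Bool} (h : ∀ a ∈ Old j, ω a = ω' a)
    (hl : lev κ x < nn j) (hy : y.length = lev κ x) : zo ω κ x y = zo ω' κ x y := by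
  have h1 := jj_le hl
  refine zo_congr (fun hx => h _ (old_sgn hx hl)) (op_congr fun m hm => h _ (old_op h1 hm))
    (fun y' hy' => h _ (old_key hl hy' ?_)) hy
  have h2 := op_le ω (jj (lev κ x))
  have h3 := kk_le h1
  omega

theorem sgn_snoc (ω : Om) (κ : ℕ) (x : List Bool) (c : Bool) :
    sgn ω κ (x ++ [c]) = (c == ω (κ, x, [], 0)) := by
  unfold sgn
  simp

/-- The words with a key are the words with the right sign. -/
theorem rl_zo (ω : Om) (κ : ℕ) (x : List Bool) : Rl (zo ω) κ x = sgn ω κ x := by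
  classical
  unfold Rl
  rw [Bool.eq_iff_iff]
  simp only [decide_eq_true_eq]
  constructor
  · rintro ⟨y, _, hy⟩
    unfold zo at hy
    rw [Bool.and_eq_true] at hy
    exact hy.1
  · intro h
    by_cases hN : NoKey ω κ x (op ω (jj (lev κ x)))
    · refine ⟨List.replicate (lev κ x) false, by simp, ?_⟩
      unfold zo
      simp [h, hN]
    · have hN' := hN
      unfold NoKey at hN'
      push Not at hN'
      obtain ⟨y, hy, hy'⟩ := hN'
      refine ⟨y, hy, ?_⟩
      unfold zo
      rw [h]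
      simp only [Bool.true_and, Bool.or_eq_true]
      left
      simpa using hy'

/-! ## The histories -/

theorem pa_congr {j : ℕ} {ω ω' : Om} (h : ∀ a ∈ Old j, ω a = ω' a) (η : ℕ → ℕ → ℝ)
    (t : ℕ) : pa j η ω t = pa j η ω' t := by
  have h1 : ∀ τ, mixP (Old j) ω τ = mixP (Old j) ω' τ := by
    intro τ
    funext a
    unfold mixP
    by_cases ha : a ∈ Old j
    · rw [if_pos ha, if_pos ha, h a ha]
    · rw [if_neg ha, if_neg ha]
  unfold pa
  simp only [h1]

theorem hs_succ (ω : Om) (j : ℕ) : hs ω (j + 1) =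
    Function.update (hs ω j) j fun t => pa j (hs ω j) ω t := rfl

theorem hsdep : T_HSDEP := by
  intro j
  induction j with
  | zero =>
    intro ω ω' h
    simp only [hs]
    simp only [pa_congr h]
  | succ j ih =>
    intro ω ω' h
    have h1 := ih ω ω' fun a ha => h a (old_mono (Nat.le_succ j) ha)
    rw [hs_succ ω (j + 1), hs_succ ω' (j + 1), h1]
    simp only [pa_congr h]

theorem hs2_succ (ω : Om) (m j : ℕ) (h : j < m) : hs ω (m + 1) j = hs ω m j := by
  rw [hs]
  exact Function.update_of_ne (by omega) _ _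

theorem hs2_le (ω : Om) {m m' j : ℕ} (hm : m ≤ m') (h : j < m) :
    hs ω m' j = hs ω m j := by
  induction m', hm using Nat.le_induction with
  | base => rfl
  | succ m' hm ih => rw [hs2_succ ω m' j (by omega), ih]

theorem hsval : T_HSVAL := by
  intro ω m j hj
  show hs ω m j = hs ω (j + 1) j
  exact hs2_le ω (by omega) (by omega)

end Pool.Agent.RelY
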