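import Pool.Agent.RelU.Core
import Pool.Agent.RelB.ACC

/-!
# An oracle relative to which `NP ∩ coNP` is not null, but `UP` has dimension `0`

For every word `x` and every `κ` there is a fair coin, the sign of `x`. A signed word `x c` (`c` a bit)
has keys only if `c` is the sign of `x`; then every word of the length `lev κ (x c)` is a key with a
small probability, independently; this probability depends on a random option of the stage at
which the signed word is new. The rest is as in `Pool.Agent.RelU.Core`; stage `j` treats one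
nondeterministic machine.
-/

set_option autoImplicit false

namespace Pool.Agent.RelY

open MeasureTheory Set
open scoped ENNReal
open Pool.Agent.RelM (Lang Instr Cfg step run Halts Decides E1 E2 NP pair triple binVal outVal
  Approx IsDensity str pre IsNullCover Null1 Null2 wq sq0 sq1 Asks hq code qb)
open Pool.Agent.RelO (lev IsGale IsGaleCover GaleNull1 GaleNull2 st)
open Pool.Agent.RelS (Z Rl orcV orc acc Idx Om bern bern_prob Dep mixP PF wt)
open Pool.Agent.RelB (ML qbs qf ee DD WW iot)
open Pool.Agent.RelU (NM)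

/-! ## Machines -/

/-- An enumeration of the machines. -/
noncomputable def ucode : ℕ → NM := (exists_surjective_nat NM).choose

theorem ucode_surj : Function.Surjective ucode := (exists_surjective_nat NM).choose_spec

/-- The machine of stage `j`, as a list. -/
noncomputable def ms (j : ℕ) : ML := [ucode (st j)]

/-- The witness `y` of the word `x` is accepted. -/
def accw (O : Lang) (v : NM) (x y : List Bool) : Prop :=
  y.length ≤ (x.length + 2) ^ v.2.1 ∧
    (run O v.1 (pair x y) ((x.length + 2) ^ v.2.2)).st 1 = [true]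

/-- Two witnesses of the word `x` are accepted. -/
def amb (O : Lang) (v : NM) (x : List Bool) : Prop :=
  ∃ y y' : List Bool, y ≠ y' ∧ accw O v x y ∧ accw O v x y'

/-! ## Stages -/

/-- Stage `j` must begin at least here. -/
noncomputable def thr (j : ℕ) : ℕ :=
  sInf {N | 8 * (j + 3) ≤ N ∧ 2 ^ j ≤ N ∧ ∀ n, N ≤ n →
    qbs (ms j) (n + j) + 2 < 2 ^ n ∧
    ((j : ℝ) + 1) * (2 * (qbs (ms j) (n + j) : ℝ)) ≤ 2 ^ (n / 2) ∧
    Real.exp (-(2 : ℝ) ^ (n / 8)) ≤ (1 / 8) ^ n}

/-- The beginning of stage `j`. The gambler of stage `j` bets on the words with the numbers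
`2 ^ nn j, ..., 2 ^ (nn j + j) - 1`. -/
noncomputable def nn : ℕ → ℕ
  | 0 => thr 0
  | j + 1 => max (max (qbs (ms j) (nn j + j)) (nn j + j) + 1) (thr (j + 1))

/-- The coins of cost `m` are old for the first time at stage `jj m`. -/
noncomputable def jj (m : ℕ) : ℕ := sInf {j | m < nn j}

/-! ## Coins -/

/-- The coins are: the sign `(κ, x, [], 0)` of the word `x`; the coins `(v, [], [], m + 1)` for the option of
the words that are old for the first time at stage `v`; the coin `(κ, x, y, i)` which says whether `y` is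
a key of the signed word `x` with the option `i`. This is the probability that a coin is `false`. -/
noncomputable def sv (a : Idx) : ℝ :=
  if a.2.2.1 = [] then 1 / 2
  else Real.exp (-(2 ^ a.2.2.2 * 2 ^ (lev a.1 a.2.1 / 8) / 2 ^ lev a.1 a.2.1))

theorem sv_pos (a : Idx) : 0 < sv a := by
  unfold sv
  split_ifs
  · norm_num
  · exact Real.exp_pos _

theorem sv_le_one (a : Idx) : sv a ≤ 1 := by
  unfold sv
  split_ifs
  · norm_num
  · exact Real.exp_le_one_iff.2 (by
      have : (0 : ℝ) ≤ 2 ^ a.2.2.2 * 2 ^ (lev a.1 a.2.1 / 8) / 2 ^ lev a.1 a.2.1 := by positivity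
      linarith)

instance (a : Idx) : IsProbabilityMeasure (bern (sv a)) :=
  bern_prob (sv_pos a).le (sv_le_one a)

/-- Independent coins. -/
noncomputable def coin : Measure Om := Measure.infinitePi fun a => bern (sv a)

instance : IsProbabilityMeasure coin := by unfold coin; infer_instance

/-- The coins older than stage `j`. -/
def Old (j : ℕ) : Set Idx :=
  {a | a.1 ≤ nn j ∧ a.2.1.length ≤ nn j ∧ a.2.2.1.length ≤ nn j ∧ a.2.2.2 ≤ nn j ∧
    (a.2.2.1 = [] → a.2.2.2 = 0 → lev a.1 (a.2.1 ++ [false]) < nn j) ∧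
    (a.2.2.1 = [] → a.2.2.2 ≠ 0 → a.1 ≤ j) ∧
    (a.2.2.1 ≠ [] → lev a.1 a.2.1 < nn j)}

/-- The number of the options is `kk v + 1`. -/
noncomputable def kk (v : ℕ) : ℕ := nn (v - 1) / 8

/-- The option of the words that are old for the first time at stage `v`. -/
noncomputable def op (ω : Om) (v : ℕ) : ℕ := sInf {m | ω (v, [], [], m + 1) = false ∨ kk v ≤ m}

/-- The signed word `x` has the right sign. -/
def sgn (ω : Om) (κ : ℕ) (x : List Bool) : Bool :=
  match x.getLast? with
  | none => false
  | some c => c == ω (κ, x.dropLast, [], 0)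

/-- With the option `i` there is no key. -/
def NoKey (ω : Om) (κ : ℕ) (x : List Bool) (i : ℕ) : Prop :=
  ∀ y : List Bool, y.length = lev κ x → ω (κ, x, y, i) = false

open Classical in
/-- The world. (If there is no key, all words are keys.) -/
noncomputable def zo (ω : Om) : Z := fun κ x y =>
  sgn ω κ x && (ω (κ, x, y, op ω (jj (lev κ x))) || decide (NoKey ω κ x (op ω (jj (lev κ x)))))

/-! ## The supergales -/

/-- The probabilities of `true` that are used. -/
noncomputable def hv (η : ℕ → ℕ → ℝ) (j t : ℕ) : ℝ :=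
  if 2 ^ nn j ≤ t ∧ t < 2 ^ (nn j + j) then max 0 (min 1 (η j t)) else 1 / 2

/-- The probability given to `w` at stage `j`. -/
noncomputable def Pw (η : ℕ → ℕ → ℝ) (j : ℕ) (w : List Bool) : ℝ :=
  ∏ t ∈ Finset.range w.length, qf (hv η j t) (w.getD t false)

/-- The probability given to `w`. -/
noncomputable def PP (η : ℕ → ℕ → ℝ) (w : List Bool) : ℝ :=
  ∑ j ∈ Finset.range w.length, (1 / 2 : ℝ) ^ (j + 1) * Pw η j w +
    (1 / 2 : ℝ) ^ w.length * (1 / 2 : ℝ) ^ w.length

/-- The parameter of the supergale number `k`. -/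
noncomputable def sK (k : ℕ) : ℝ := min 2 (1 / (((ee k).2 : ℝ) + 1))

/-- The supergale number `k`. -/
noncomputable def dd (η : ℕ → ℕ → ℝ) (k : ℕ) (w : List Bool) : ℝ :=
  (1 / 2 : ℝ) ^ k * (2 : ℝ) ^ (sK k * w.length) * PP η w

/-- The numerator of the approximation. -/
noncomputable def num (η : ℕ → ℕ → ℝ) (k r : ℕ) (w : List Bool) : ℕ :=
  ⌊(2 : ℝ) ^ (r + 1) * dd η k w⌋₊

open Classical in
/-- The bits of the numerators of the approximations. -/
noncomputable def bitsOf (η : ℕ → ℕ → ℝ) : Lang := fun u => decide (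
  (∃ j k r w, u = hq false false j k r w ∧ j < Nat.size (num η k r w)) ∨
  (∃ j k r w, u = hq false true j k r w ∧ Nat.testBit (num η k r w) j = true) ∨
  (∃ j k r w, u = hq true false j k r w ∧ j < r + 1))

/-! ## Probabilities -/

/-- The oracle of the probabilities `η`. -/
noncomputable def oh (η : ℕ → ℕ → ℝ) (ω : Om) : Lang := orc (bitsOf η) (zo ω)

/-- The machine of stage `j` accepts the word number `t`. -/
def ans (j : ℕ) (η : ℕ → ℕ → ℝ) (ω : Om) (t : ℕ) : Prop :=
  acc (oh η ω) (ucode (st j)) (str t)

/-- The machine of stage `j` accepts two witnesses of the word number `t`. -/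
def ans2 (j : ℕ) (η : ℕ → ℕ → ℝ) (ω : Om) (t : ℕ) : Prop :=
  amb (oh η ω) (ucode (st j)) (str t)

/-- The probability that the machine accepts the word number `t`, given the coins older than
stage `j`. -/
noncomputable def pa (j : ℕ) (η : ℕ → ℕ → ℝ) (ω : Om) (t : ℕ) : ℝ :=
  coin.real {τ | ans j η (mixP (Old j) ω τ) t}

/-- The words on which the gambler of stage `j` bets. -/
noncomputable def Wd (j : ℕ) : Finset ℕ := Finset.Ico (2 ^ nn j) (2 ^ (nn j + j))

/-- The probabilities after the stages before `j`. -/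
noncomputable def hs (ω : Om) : ℕ → ℕ → ℕ → ℝ
  | 0 => fun _ _ => 1 / 2
  | j + 1 => Function.update (hs ω j) j fun t => pa j (hs ω j) ω t

/-- The probabilities. -/
noncomputable def hf (ω : Om) : ℕ → ℕ → ℝ := fun j => hs ω (j + 1) j

/-- The oracle. -/
noncomputable def oo (ω : Om) : Lang := oh (hf ω) ω

/-! ## Hiding -/

/-- The stage at which the signed words `x c` become old. -/
noncomputable def bl (κ : ℕ) (x : List Bool) : ℕ := jj (lev κ (x ++ [false]))

/-- The pairs visible to a gambler who bets on the sign of the word number `t`. -/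
def SS (κ t : ℕ) : ℕ → List Bool → Prop := fun κ' x =>
  lev κ' x < nn (bl κ (str t)) ∧ ¬ (κ' = κ ∧ ∃ t', t ≤ t' ∧ ∃ c, x = str t' ++ [c])

/-- The oracle in which only these pairs are visible, and only the part `11` that can be read. -/
noncomputable def ov (κ t : ℕ) (ω : Om) : Lang :=
  orcV (SS κ t) (bitsOf (hs ω (bl κ (str t)))) (zo ω)

/-- The coins visible to a gambler who bets on the sign of the word number `t`. -/
def Vis (κ t : ℕ) : Set Idx :=
  {a | a ∈ Old (bl κ (str t)) ∧
    ¬ (a.1 = κ ∧ a.2.2.1 = [] ∧ a.2.2.2 = 0 ∧ ∃ t', t ≤ t' ∧ a.2.1 = str t') ∧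
    ¬ (a.1 = κ ∧ a.2.2.1 ≠ [] ∧ ∃ t', t ≤ t' ∧ ∃ c, a.2.1 = str t' ++ [c])}

/-- The hidden language. -/
def Hl (κ : ℕ) (ω : Om) : Lang := fun x => ω (κ, x, [], 0)

/-! ## The success of a stage -/

/-- The probability of acceptance used at stage `j`. -/
noncomputable def pp (j t : ℕ) (ω : Om) : ℝ := pa j (hs ω j) ω t

/-- The machine of stage `j` accepts the word number `t` in the end. -/
def Tr (j t : ℕ) (ω : Om) : Prop := acc (oo ω) (ucode (st j)) (str t)

/-- The machine of stage `j` accepts two witnesses of the word number `t` in the end. -/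
def Tr2 (j t : ℕ) (ω : Om) : Prop := amb (oo ω) (ucode (st j)) (str t)

open Classical in
/-- The probability given to the answer on the word number `t`. -/
noncomputable def ql (j t : ℕ) (ω : Om) : ℝ := qf (pp j t ω) (decide (Tr j t ω))

/-- The loss of stage `j`. -/
noncomputable def loss (j : ℕ) (ω : Om) : ℝ := ∑ t ∈ Wd j, -Real.log (ql j t ω)

/-- Stage `j` fails. -/
def fail (δ : ℝ) (j : ℕ) : Set Om :=
  {ω | δ * 2 ^ (nn j + j) ≤ loss j ω ∨ ∃ t ∈ Wd j, ql j t ω = 0}

/-- The language of the machine of stage `j`. -/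
noncomputable def Lj (j : ℕ) (ω : Om) : Lang := by
  classical exact fun x => decide (acc (oo ω) (ucode (st j)) x)

/-! ## The new coins of a stage -/

/-- The key coins that are new at stage `j`. -/
abbrev Dj (j : ℕ) : Type := DD (nn j) (nn (j + 1))

/-- The world with the old part of `ω`, the new keys `w` and the signs of `τ`. -/
noncomputable def Wz (j : ℕ) (ω τ : Om) (w : Dj j → Bool) : Z :=
  WW (nn j) (nn (j + 1)) (zo ω) fun d => sgn τ d.1.1 d.1.2.1 && w d

/-- The machine `v` accepts the witness `y` of the word number `t`. -/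
def Aw (j : ℕ) (η : ℕ → ℕ → ℝ) (ω τ : Om) (v : NM) (t : ℕ) (y : List Bool) (w : Dj j → Bool) :
    Prop := accw (orc (bitsOf η) (Wz j ω τ w)) v (str t) y

/-- Some signed word that is new at stage `j` has no key with some option. -/
def NK (j : ℕ) : Set Om :=
  {τ | ∃ (κ : ℕ) (x : List Bool) (i : ℕ), nn j ≤ lev κ x ∧ lev κ x < nn (j + 1) ∧
    i ≤ kk (j + 1) ∧ NoKey τ κ x i}

/-- The probability of the option `i`. -/
noncomputable def pr (v i : ℕ) : ℝ := if i < kk v then (1 / 2) ^ (i + 1) else (1 / 2) ^ kk v

/-- The probabilities that the new key coins with the option `i` are `false`. -/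
noncomputable def si (j i : ℕ) : Dj j → ℝ := fun d => sv (iot (nn j) (nn (j + 1)) i d)

/-- A tree of questions: `Ac u w` says that the witness `u` is accepted with the answers `w`, `Qs u w` is
the set of the questions asked. -/
structure Tree (D : Type) [Fintype D] (U : Type) (q : ℕ) : Type where
  Ac : U → (D → Bool) → Prop
  Qs : U → (D → Bool) → Finset D
  card : ∀ u w, (Qs u w).card ≤ q
  loc : ∀ (u : U) (w w' : D → Bool), (∀ d ∈ Qs u w, w d = w' d) →
    (Ac u w ↔ Ac u w') ∧ Qs u w' = Qs u w

end Pool.Agent.RelY
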