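import Pool.Agent.RelY.Targets
import Pool.Agent.RelY.ACC

/-!
# PAQ: the probability of acceptance of an unambiguous machine is near `0` or `1`
-/

set_option autoImplicit false

namespace Pool.Agent.RelY

open MeasureTheory Set
open scoped ENNReal
open Pool.Agent.RelM (Lang str)
open Pool.Agent.RelO (lev st)
open Pool.Agent.RelS (Z Rl orcV orc acc Idx Om Dep mixP PF wt meas_of_dep PF_nonneg PF_le_one)
open Pool.Agent.RelB (ML qbs DD WW iot)

namespace PAQ_

/-! ### numbers -/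

theorem geo (k : ℕ) : ∑ i ∈ Finset.range k, (1 / 2 : ℝ) ^ (i + 1) + (1 / 2) ^ k = 1 := by
  induction k with
  | zero => simp
  | succ k ih =>
    rw [Finset.sum_range_succ]
    have := pow_succ (1 / 2 : ℝ) k
    linarith

theorem pr_nonneg (v i : ℕ) : 0 ≤ pr v i := by
  unfold pr
  split_ifs <;> positivity

theorem pr_last (v : ℕ) : pr v (kk v) = (1 / 2) ^ kk v := by
  unfold pr
  rw [if_neg (lt_irrefl _)]

theorem pr_sum (v : ℕ) : ∑ i ∈ Finset.range (kk v + 1), pr v i = 1 := by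
  have h : ∑ i ∈ Finset.range (kk v), pr v i =
      ∑ i ∈ Finset.range (kk v), (1 / 2 : ℝ) ^ (i + 1) := by
    refine Finset.sum_congr rfl fun i hi => ?_
    unfold pr
    rw [if_pos (Finset.mem_range.1 hi)]
  rw [Finset.sum_range_succ, pr_last, h]
  exact geo (kk v)

theorem pr_two {v i : ℕ} (h : i < kk v) : pr v i ≤ 2 * pr v (i + 1) := by
  have h2 := pow_succ (1 / 2 : ℝ) (i + 1)
  have h3 := pow_succ (1 / 2 : ℝ) i
  have h4 : (0 : ℝ) < (1 / 2) ^ i := by positivity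
  unfold pr
  rw [if_pos h]
  split_ifs with h1
  · linarith
  · have h5 : kk v = i + 1 := by omega
    rw [h5]
    linarith

theorem mix (K : ℕ) (p g h : ℕ → ℝ) (θ r : ℝ) (hθ : 0 < θ) (hr : 0 ≤ r) (hp0 : ∀ i, 0 ≤ p i)
    (hp : ∑ i ∈ Finset.range (K + 1), p i = 1) (hpp : ∀ i < K, p i ≤ 2 * p (i + 1))
    (hg1 : ∀ i, g i ≤ 1) (hg0 : ∀ i, 0 ≤ g i) (hh0 : ∀ i, 0 ≤ h i)
    (hgh : ∀ i < K, g i ^ 2 ≤ h (i + 1) + r) :
    ∑ i ∈ Finset.range (K + 1), p i * g i ≤
      θ + r / θ + 2 / θ * ∑ i ∈ Finset.range (K + 1), p i * h i + p K := by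
  have h1 : ∀ i ∈ Finset.range K, p i * g i ≤
      θ * p i + r / θ * p i + 2 / θ * (p (i + 1) * h (i + 1)) := by
    intro i hi
    have hi' := Finset.mem_range.1 hi
    have e1 : θ * (θ * p i + r / θ * p i + 2 / θ * (p (i + 1) * h (i + 1))) =
        θ ^ 2 * p i + r * p i + 2 * (p (i + 1) * h (i + 1)) := by
      field_simp
    have e2 : θ * g i ≤ θ ^ 2 + (h (i + 1) + r) := by
      have := hgh i hi'
      nlinarith [sq_nonneg (θ - g i), mul_nonneg hθ.le (hg0 i)]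
    have e3 : p i * (θ * g i) ≤ p i * (θ ^ 2 + (h (i + 1) + r)) :=
      mul_le_mul_of_nonneg_left e2 (hp0 i)
    have e4 : p i * h (i + 1) ≤ 2 * p (i + 1) * h (i + 1) :=
      mul_le_mul_of_nonneg_right (hpp i hi') (hh0 _)
    refine le_of_mul_le_mul_left ?_ hθ
    rw [e1]
    nlinarith
  have h2 := Finset.sum_le_sum h1
  rw [Finset.sum_add_distrib, Finset.sum_add_distrib, ← Finset.mul_sum, ← Finset.mul_sum,
    ← Finset.mul_sum] at h2
  have h3 : ∑ i ∈ Finset.range K, p i ≤ 1 := by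
    rw [Finset.sum_range_succ] at hp
    linarith [hp0 K]
  have h4 : ∑ i ∈ Finset.range K, p (i + 1) * h (i + 1) ≤
      ∑ i ∈ Finset.range (K + 1), p i * h i := by
    rw [Finset.sum_range_succ' (fun i => p i * h i)]
    linarith [mul_nonneg (hp0 0) (hh0 0)]
  have h5 : θ * ∑ i ∈ Finset.range K, p i ≤ θ * 1 := mul_le_mul_of_nonneg_left h3 hθ.le
  have h6 : r / θ * ∑ i ∈ Finset.range K, p i ≤ r / θ * 1 :=
    mul_le_mul_of_nonneg_left h3 (div_nonneg hr hθ.le)
  have h7 : 2 / θ * ∑ i ∈ Finset.range K, p (i + 1) * h (i + 1) ≤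
      2 / θ * ∑ i ∈ Finset.range (K + 1), p i * h i :=
    mul_le_mul_of_nonneg_left h4 (by positivity)
  have h8 : p K * g K ≤ p K * 1 := mul_le_mul_of_nonneg_left (hg1 K) (hp0 K)
  rw [Finset.sum_range_succ]
  linarith

theorem kk_big (j : ℕ) : (1 / 2 : ℝ) ^ kk (j + 1) ≤ 1 / ((j : ℝ) + 1) := by
  have h1 : j + 3 ≤ kk (j + 1) := by
    have := nnge j
    show j + 3 ≤ nn (j + 1 - 1) / 8
    rw [Nat.add_sub_cancel]
    omega
  have h2 : (1 / 2 : ℝ) ^ kk (j + 1) ≤ (1 / 2) ^ j :=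
    pow_le_pow_of_le_one (by norm_num) (by norm_num) (by omega)
  refine h2.trans ?_
  rw [one_div, inv_pow, one_div]
  refine inv_anti₀ (by positivity) ?_
  have h3 : j + 1 ≤ 2 ^ j := Nat.lt_two_pow_self
  exact_mod_cast h3

theorem rho_q {j t : ℕ} (ht : t ∈ Wd j) :
    2 * ((qbs (ms j) (str t).length : ℝ) * (1 / 2) ^ (nn j / 2)) ≤ 1 / ((j : ℝ) + 1) := by
  obtain ⟨-, -, h⟩ := qb_small ht
  have h1 : (0 : ℝ) < 2 ^ (nn j / 2) := by positivity
  have h2 : (0 : ℝ) < (j : ℝ) + 1 := by positivity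
  rw [one_div, inv_pow, le_div_iff₀ h2]
  have h3 : 2 * ((qbs (ms j) (str t).length : ℝ) * ((2 : ℝ) ^ (nn j / 2))⁻¹) * ((j : ℝ) + 1) =
      (((j : ℝ) + 1) * (2 * (qbs (ms j) (str t).length : ℝ))) / 2 ^ (nn j / 2) := by
    field_simp
  rw [h3, div_le_one h1]
  exact h

/-! ### events -/

/-- Some witness is accepted. -/
def A1 (j : ℕ) (η : ℕ → ℕ → ℝ) (ω : Om) (t : ℕ) (τ : Om) : Set (Dj j → Bool) :=
  {w | ∃ y, Aw j η ω τ (ucode (st j)) t y w}

/-- Two witnesses are accepted. -/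
def B1 (j : ℕ) (η : ℕ → ℕ → ℝ) (ω : Om) (t : ℕ) (τ : Om) : Set (Dj j → Bool) :=
  {w | ∃ y y', y ≠ y' ∧ Aw j η ω τ (ucode (st j)) t y w ∧ Aw j η ω τ (ucode (st j)) t y' w}

theorem sgn_congr {j : ℕ} {τ τ' : Om}
    (h : ∀ a ∈ Old (j + 1), a.2.2.1 = [] → a.2.2.2 = 0 → τ a = τ' a) {κ : ℕ} {x : List Bool}
    (hl : lev κ x < nn (j + 1)) : sgn τ κ x = sgn τ' κ x := by
  unfold sgn
  rcases eq_or_ne x [] with rfl | hx
  · rfl
  · rw [List.getLast?_eq_some_getLast hx]
    simp only [h _ (old_sgn hx hl) rfl rfl]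

theorem Wz_congr {j : ℕ} {ω τ τ' : Om}
    (h : ∀ a ∈ Old (j + 1), a.2.2.1 = [] → a.2.2.2 = 0 → τ a = τ' a) (w : Dj j → Bool) :
    Wz j ω τ w = Wz j ω τ' w := by
  unfold Wz
  congr 1
  funext d
  rw [sgn_congr h d.2.2.1]

theorem A1_congr {j : ℕ} {η : ℕ → ℕ → ℝ} {ω : Om} {t : ℕ} {τ τ' : Om}
    (h : ∀ a ∈ Old (j + 1), a.2.2.1 = [] → a.2.2.2 = 0 → τ a = τ' a) :
    A1 j η ω t τ = A1 j η ω t τ' := by
  unfold A1 Aw
  simp only [Wz_congr h]

theorem B1_congr {j : ℕ} {η : ℕ → ℕ → ℝ} {ω : Om} {t : ℕ} {τ τ' : Om}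
    (h : ∀ a ∈ Old (j + 1), a.2.2.1 = [] → a.2.2.2 = 0 → τ a = τ' a) :
    B1 j η ω t τ = B1 j η ω t τ' := by
  unfold B1 Aw
  simp only [Wz_congr h]

theorem Wz_false {j : ℕ} (ω τ τ' : Om) :
    Wz j ω τ (fun _ => false) = Wz j ω τ' (fun _ => false) := by
  unfold Wz
  simp

/-! ### means -/

/-- The mean over the options. -/
noncomputable def GG (j : ℕ) (Q : Om → Set (Dj j → Bool)) (τ : Om) : ℝ :=
  ∑ i ∈ Finset.range (kk (j + 1) + 1), pr (j + 1) i * PF (si j i) (Q τ)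

theorem si0 (j i : ℕ) (d : Dj j) : 0 ≤ si j i d := (sv_pos _).le

theorem si1 (j i : ℕ) (d : Dj j) : si j i d ≤ 1 := sv_le_one _

theorem GG_nonneg (j : ℕ) (Q : Om → Set (Dj j → Bool)) (τ : Om) : 0 ≤ GG j Q τ :=
  Finset.sum_nonneg fun i _ => mul_nonneg (pr_nonneg _ _) (PF_nonneg (si0 j i) (si1 j i) _)

theorem GG_le (j : ℕ) (Q : Om → Set (Dj j → Bool)) (τ : Om) : GG j Q τ ≤ 1 := by
  rw [← pr_sum (j + 1)]
  refine Finset.sum_le_sum fun i _ => ?_
  have := mul_le_mul_of_nonneg_left (PF_le_one (si0 j i) (si1 j i) (Q τ)) (pr_nonneg (j + 1) i)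
  rwa [mul_one] at this

theorem GG_int {j : ℕ} {Q : Om → Set (Dj j → Bool)}
    (hQ : ∀ τ τ' : Om, (∀ a ∈ Old (j + 1), a.2.2.1 = [] → a.2.2.2 = 0 → τ a = τ' a) →
      Q τ = Q τ') : Integrable (GG j Q) coin := by
  have hm : Measurable (GG j Q) := by
    refine meas_of_dep (oldfin (j + 1)) fun τ τ' h => ?_
    unfold GG
    rw [hQ τ τ' fun a ha _ _ => h a ha]
  refine Integrable.of_bound hm.aestronglyMeasurable 1 (Filter.Eventually.of_forall fun τ => ?_)
  rw [Real.norm_eq_abs, abs_of_nonneg (GG_nonneg j Q τ)]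
  exact GG_le j Q τ

end PAQ_

open PAQ_ in
theorem p_PAQ_of (hSPR : T_SPR) (hCSA : T_CSA) (hTRE : T_TRE) (hLKY : T_LKY) (hNKB : T_NKB)
    (hRHO : T_RHO) (hAVG : T_AVG) : T_PAQ := by
  intro j t η ω θ ε ht hθ hε
  set ν : ℝ := 1 / ((j : ℝ) + 1) with hν
  have hν0 : 0 ≤ ν := by positivity
  have hε0 : 0 ≤ ε := measureReal_nonneg.trans hε
  set r : ℝ := (1 / 2 : ℝ) ^ (nn j / 2) with hr
  have hr0 : 0 ≤ r := by positivity
  set q : ℕ := qbs (ms j) (str t).length with hq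
  have hqr : 2 * ((q : ℝ) * r) ≤ ν := rho_q ht
  have hqr0 : 0 ≤ (q : ℝ) * r := by positivity
  have hN := hNKB j
  rw [← hν] at hN
  set SA : Set Om := {τ | (fun d => τ (iot (nn j) (nn (j + 1)) (op τ (j + 1)) d)) ∈
    A1 j η ω t τ} with hSA
  set SB : Set Om := {τ | (fun d => τ (iot (nn j) (nn (j + 1)) (op τ (j + 1)) d)) ∈
    B1 j η ω t τ} with hSB
  have a1 : {τ | ans j η (mixP (Old j) ω τ) t} ⊆ SA ∪ NK j := by
    intro τ hτ
    by_cases h : τ ∈ NK j
    · exact Or.inr h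
    · exact Or.inl ((hLKY j t η ω τ ht h).1.1 hτ)
  have a2 : SA ⊆ {τ | ans j η (mixP (Old j) ω τ) t} ∪ NK j := by
    intro τ hτ
    by_cases h : τ ∈ NK j
    · exact Or.inr h
    · exact Or.inl ((hLKY j t η ω τ ht h).1.2 hτ)
  have a3 : SB ⊆ {τ | ans2 j η (mixP (Old j) ω τ) t} ∪ NK j := by
    intro τ hτ
    by_cases h : τ ∈ NK j
    · exact Or.inr h
    · exact Or.inl ((hLKY j t η ω τ ht h).2.2 hτ)
  have b1 : pa j η ω t ≤ coin.real SA + ν :=
    ((measureReal_mono a1).trans (measureReal_union_le _ _)).trans (by linarith)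
  have b2 : coin.real SA ≤ pa j η ω t + ν :=
    ((measureReal_mono a2).trans (measureReal_union_le _ _)).trans
      (by show pa j η ω t + _ ≤ _; linarith)
  have b3 : coin.real SB ≤ ε + ν :=
    ((measureReal_mono a3).trans (measureReal_union_le _ _)).trans (by linarith)
  have p0 : 0 ≤ pa j η ω t := measureReal_nonneg
  have p1 : pa j η ω t ≤ 1 := measureReal_le_one
  have cA : coin.real SA = ∫ τ, GG j (A1 j η ω t) τ ∂coin :=
    hAVG j (A1 j η ω t) fun _ _ h => A1_congr h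
  have cB : coin.real SB = ∫ τ, GG j (B1 j η ω t) τ ∂coin :=
    hAVG j (B1 j η ω t) fun _ _ h => B1_congr h
  have iA : Integrable (GG j (A1 j η ω t)) coin := GG_int fun _ _ h => A1_congr h
  have iB : Integrable (GG j (B1 j η ω t)) coin := GG_int fun _ _ h => B1_congr h
  have hkk := kk_big j
  rw [← hν] at hkk
  have hθ' : 0 ≤ 2 / θ := by positivity
  by_cases hy : ∃ y, Aw j η ω ω (ucode (st j)) t y fun _ => false
  · -- accepted without keys
    have d1 : ∀ τ, 1 - (q : ℝ) * r ≤ GG j (A1 j η ω t) τ := by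
      intro τ
      obtain ⟨T, hT⟩ := hTRE j t η ω τ ht
      have e1 : ∀ i ∈ Finset.range (kk (j + 1) + 1), pr (j + 1) i * (1 - (q : ℝ) * r) ≤
          pr (j + 1) i * PF (si j i) (A1 j η ω t τ) := by
        intro i hi
        refine mul_le_mul_of_nonneg_left ?_ (pr_nonneg _ _)
        have h1 := hCSA (Dj j) (List Bool) q T (si j i) r (si0 j i) (si1 j i)
          (fun d => hRHO.1 j i d (by rw [Finset.mem_range] at hi; omega)) hr0 (by
            obtain ⟨y, hy⟩ := hy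
            refine ⟨y, (hT y _).2 ?_⟩
            unfold Aw at hy ⊢
            rwa [Wz_false ω τ ω])
        have h2 : {w | ∃ u, T.Ac u w} = A1 j η ω t τ := by
          ext w
          exact exists_congr fun y => hT y w
        rwa [h2] at h1
      have e2 := Finset.sum_le_sum e1
      rw [← Finset.sum_mul, pr_sum, one_mul] at e2
      exact e2
    have d2 : 1 - (q : ℝ) * r ≤ coin.real SA := by
      rw [cA]
      have h := integral_mono (integrable_const (1 - (q : ℝ) * r)) iA d1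
      simpa using h
    have d3 : pa j η ω t * (1 - pa j η ω t) ≤ 1 * (1 - pa j η ω t) :=
      mul_le_mul_of_nonneg_right p1 (by linarith)
    have d4 : 0 ≤ 2 / θ * (ε + 2 * ν) := mul_nonneg hθ' (by linarith)
    linarith
  · -- not accepted without keys
    have d1 : ∀ τ, GG j (A1 j η ω t) τ ≤
        θ + 2 * ((q : ℝ) * r) / θ + 2 / θ * GG j (B1 j η ω t) τ + ν := by
      intro τ
      obtain ⟨T, hT⟩ := hTRE j t η ω τ ht
      have h0 : ∀ u, ¬ T.Ac u fun _ => false := by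
        intro u hu
        refine hy ⟨u, ?_⟩
        have h1 := (hT u _).1 hu
        unfold Aw at h1 ⊢
        rwa [Wz_false ω ω τ]
      have h2 : {w | ∃ u, T.Ac u w} = A1 j η ω t τ := by
        ext w
        exact exists_congr fun y => hT y w
      have h3 : {w | ∃ u u', u ≠ u' ∧ T.Ac u w ∧ T.Ac u' w} = B1 j η ω t τ := by
        ext w
        refine exists_congr fun y => exists_congr fun y' => and_congr_right fun _ => ?_
        rw [hT y w, hT y' w]
      have h4 := mix (kk (j + 1)) (pr (j + 1)) (fun i => PF (si j i) (A1 j η ω t τ))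
        (fun i => PF (si j i) (B1 j η ω t τ)) θ (2 * ((q : ℝ) * r)) hθ (by linarith)
        (pr_nonneg (j + 1)) (pr_sum (j + 1)) (fun i hi => pr_two hi)
        (fun i => PF_le_one (si0 j i) (si1 j i) _) (fun i => PF_nonneg (si0 j i) (si1 j i) _)
        (fun i => PF_nonneg (si0 j i) (si1 j i) _) (fun i hi => by
          have h5 := hSPR (Dj j) (List Bool) q T (si j i) r (si0 j i) (si1 j i)
            (fun d => hRHO.1 j i d hi.le) hr0 h0
          rw [h2, h3, ← hRHO.2 j i] at h5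
          exact h5)
      rw [pr_last] at h4
      show GG j (A1 j η ω t) τ ≤ _
      refine h4.trans ?_
      have : GG j (B1 j η ω t) τ = ∑ i ∈ Finset.range (kk (j + 1) + 1),
        pr (j + 1) i * PF (si j i) (B1 j η ω t τ) := rfl
      rw [this]
      linarith
    have d2 : coin.real SA ≤ θ + 2 * ((q : ℝ) * r) / θ + 2 / θ * coin.real SB + ν := by
      rw [cA, cB]
      have i2 : Integrable (fun τ => (θ + 2 * ((q : ℝ) * r) / θ + ν) +
          2 / θ * GG j (B1 j η ω t) τ) coin :=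
        (integrable_const _).add (iB.const_mul _)
      have h := integral_mono iA i2 fun τ => by
        have := d1 τ
        show GG j (A1 j η ω t) τ ≤ (θ + 2 * ((q : ℝ) * r) / θ + ν) + 2 / θ * GG j (B1 j η ω t) τ
        linarith
      have e3 : ∫ _ : Om, (θ + 2 * ((q : ℝ) * r) / θ + ν) ∂coin =
          θ + 2 * ((q : ℝ) * r) / θ + ν := by simp
      rw [integral_add (integrable_const _) (iB.const_mul _), integral_const_mul, e3] at h
      linarith
    have d3 : pa j η ω t * (1 - pa j η ω t) ≤ pa j η ω t * 1 :=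
      mul_le_mul_of_nonneg_left (by linarith) p0
    have d4 : 2 / θ * coin.real SB ≤ 2 / θ * (ε + ν) := mul_le_mul_of_nonneg_left b3 hθ'
    have d5 : 2 * ((q : ℝ) * r) / θ ≤ ν / θ := by gcongr
    have d6 : ν / θ ≤ 2 / θ * ν := by
      rw [div_mul_eq_mul_div]
      gcongr
      linarith
    have d7 : 2 / θ * (ε + 2 * ν) = 2 / θ * (ε + ν) + 2 / θ * ν := by ring
    linarith

end Pool.Agent.RelY
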