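import Pool.Agent.RelY.Targets

/-!
# RelY: OR

The union of two independent random sets in which `d` is missing with the probability `s d` is a
random set in which `d` is missing with the probability `s d ^ 2`.
-/

set_option autoImplicit false

namespace Pool.Agent.RelY

open Pool.Agent.RelS (PF wt)

namespace OR_

/-- The probability that a coin is `b`, if it is `false` with probability `x`. -/
noncomputable def c1 (x : ℝ) (b : Bool) : ℝ := if b = true then 1 - x else x

theorem c1_sq (x : ℝ) (v : Bool) :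
    ∑ p : Bool × Bool, (c1 x p.1 * c1 x p.2 * if (p.1 || p.2) = v then 1 else 0) =
      c1 (x ^ 2) v := by
  rw [Fintype.sum_prod_type]
  simp only [Fintype.sum_bool, c1]
  cases v
  · simp
    ring
  · simp
    ring

theorem wt_eq {D : Type} [Fintype D] (s : D → ℝ) (V : D → Bool) :
    wt s V = ∏ d, c1 (s d) (V d) := rfl

theorem fiber {D : Type} [Fintype D] [DecidableEq D] (s : D → ℝ) (V : D → Bool) :
    (∑ V₁ : D → Bool, ∑ V₂ : D → Bool,
      if (fun d => V₁ d || V₂ d) = V then wt s V₁ * wt s V₂ else 0) =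
      wt (fun d => s d ^ 2) V := by
  have h := Finset.prod_univ_sum (fun _ : D => (Finset.univ : Finset (Bool × Bool)))
    (fun d p => c1 (s d) p.1 * c1 (s d) p.2 * if (p.1 || p.2) = V d then 1 else 0)
  rw [Fintype.piFinset_univ] at h
  rw [wt_eq]
  have h2 : (∏ d, c1 (s d ^ 2) (V d)) = ∏ d, ∑ p : Bool × Bool,
      (c1 (s d) p.1 * c1 (s d) p.2 * if (p.1 || p.2) = V d then 1 else 0) :=
    Finset.prod_congr rfl fun d _ => (c1_sq (s d) (V d)).symm
  rw [h2, h, ← Fintype.sum_prod_type',
    ← (Equiv.arrowProdEquivProdArrow D (fun _ => Bool) (fun _ => Bool)).sum_comp]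
  refine Finset.sum_congr rfl fun p _ => ?_
  rw [Finset.prod_mul_distrib, Finset.prod_mul_distrib, Finset.prod_ite_zero]
  simp only [Equiv.arrowProdEquivProdArrow, Equiv.coe_fn_mk, wt_eq]
  by_cases hV : (fun d => (p d).1 || (p d).2) = V
  · rw [if_pos hV, if_pos fun d _ => congrFun hV d]
    simp
  · rw [if_neg hV, if_neg fun hc => hV (funext fun d => hc d (Finset.mem_univ d))]
    simp

end OR_

open Classical in
theorem p_OR : T_OR := by
  intro D _ s A
  rw [RelS.PF_def]
  have h1 : ∀ V : D → Bool, (if V ∈ A then wt (fun d => s d ^ 2) V else 0) =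
      ∑ V₁ : D → Bool, ∑ V₂ : D → Bool,
        if (fun d => V₁ d || V₂ d) = V then (if V ∈ A then wt s V₁ * wt s V₂ else 0) else 0 := by
    intro V
    by_cases hV : V ∈ A
    · rw [if_pos hV, ← OR_.fiber]
      simp only [if_pos hV]
    · rw [if_neg hV]
      symm
      refine Finset.sum_eq_zero fun V₁ _ => Finset.sum_eq_zero fun V₂ _ => ?_
      simp [hV]
  rw [Finset.sum_congr rfl fun V _ => h1 V, Finset.sum_comm]
  refine Finset.sum_congr (by ext V; simp) fun V₁ _ => ?_
  rw [Finset.sum_comm]
  refine Finset.sum_congr (by ext V; simp) fun V₂ _ => ?_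
  rw [Finset.sum_ite_eq]
  simp

end Pool.Agent.RelY
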