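import Pool.Agent.RelY.NN
import Pool.Agent.RelY.MEAS
import Pool.Agent.RelY.DENT
import Pool.Agent.RelM.HIT
import Pool.Agent.RelM.LOC

/-!
# Finding a hidden key
-/

set_option autoImplicit false

namespace Pool.Agent.RelY

open MeasureTheory Set
open scoped ENNReal
open Pool.Agent.RelM (Lang Instr Cfg step run Halts pair str pre wq sq0 sq1 Asks hq)
open Pool.Agent.RelO (lev levmono)
open Pool.Agent.RelS (Z Rl orcV orc Idx Om Dep mixP fd meas_of_dep ovis ocut bern)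

namespace HIT_

lemma lev_str (κ : ℕ) {t t' : ℕ} (ht : t ≤ t') (c : Bool) :
    lev κ (str t ++ [false]) ≤ lev κ (str t' ++ [c]) := by
  refine levmono _ _ _ ?_
  rw [List.length_append, List.length_append, Pool.Agent.RelM.strlen, Pool.Agent.RelM.strlen]
  have := Nat.log_mono_right (b := 2) (show t + 1 ≤ t' + 1 by omega)
  simp only [List.length_singleton]
  omega

/-- Hidden pairs are expensive. -/
lemma hidden_ge (κ t : ℕ) {κ' : ℕ} {x' : List Bool}
    (h : ¬ SS κ t κ' x') : lev κ (str t ++ [false]) ≤ lev κ' x' := by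
  by_cases h1 : lev κ' x' < nn (bl κ (str t))
  · have h2 : κ' = κ ∧ ∃ t', t ≤ t' ∧ ∃ c, x' = str t' ++ [c] := by
      by_contra h3
      exact h ⟨h1, h3⟩
    obtain ⟨rfl, t', ht, c, rfl⟩ := h2
    exact lev_str _ ht c
  · have := (jjspec (lev κ (str t ++ [false]))).1
    unfold bl at h1
    omega

lemma bl_succ (κ t : ℕ) (h0 : nn 0 ≤ lev κ (str t ++ [false])) :
    ∃ J, bl κ (str t) = J + 1 ∧ nn J ≤ lev κ (str t ++ [false]) ∧
      lev κ (str t ++ [false]) < nn (J + 1) := by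
  obtain ⟨h1, h2⟩ := jjspec (lev κ (str t ++ [false]))
  have hpos : jj (lev κ (str t ++ [false])) ≠ 0 := by
    intro h
    rw [h] at h1
    omega
  refine ⟨jj (lev κ (str t ++ [false])) - 1, ?_, h2 _ (by omega), ?_⟩
  · unfold bl
    omega
  · rw [show jj (lev κ (str t ++ [false])) - 1 + 1 = jj (lev κ (str t ++ [false])) by omega]
    exact h1

/-- The key coins of the pair κ, x. -/
def pc (κ : ℕ) (x : List Bool) : Set Idx := {a | a.1 = κ ∧ a.2.1 = x ∧ a.2.2.1 ≠ []}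

/-- The hidden oracle depends only on the visible coins. -/
lemma ov_dep (κ t : ℕ) (h0 : nn 0 ≤ lev κ (str t ++ [false])) {ω ω' : Om}
    (h : ∀ a ∈ Vis κ t, ω a = ω' a) : ov κ t ω = ov κ t ω' := by
  obtain ⟨J, hJ, hJ1, hJ2⟩ := bl_succ κ t h0
  have hh : hs ω (J + 1) = hs ω' (J + 1) := by
    refine hsdep J ω ω' fun a ha => h a ⟨?_, ?_, ?_⟩
    · rw [hJ]
      exact old_mono (Nat.le_succ J) ha
    · rintro ⟨h1, h2, h3, t', ht', h4⟩
      have h5 := ha.2.2.2.2.1 h2 h3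
      rw [h1, h4] at h5
      have h6 := lev_str κ ht' false
      omega
    · rintro ⟨h1, h2, t', ht', c, h4⟩
      have h5 := ha.2.2.2.2.2.2 h2
      rw [h1, h4] at h5
      have h6 := lev_str κ ht' c
      omega
  funext q
  unfold ov
  rw [hJ, hh]
  refine ovis _ _ _ _ (fun κ₁ x₁ y₁ hs₁ hy₁ => ?_) q
  have hop := op_le ω (jj (lev κ₁ x₁))
  have hkk := kk_le (jj_le hs₁.1)
  refine zo_congr (fun hx => h _ ⟨old_sgn hx hs₁.1, ?_, ?_⟩)
    (op_congr fun m hm => h _ ⟨old_op (jj_le hs₁.1) hm, ?_, ?_⟩)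
    (fun y hy => h _ ⟨old_key hs₁.1 hy (by omega), ?_, ?_⟩) hy₁
  · rintro ⟨h1, _, _, t', ht', h4⟩
    have h4' : x₁.dropLast = str t' := h4
    refine hs₁.2 ⟨h1, t', ht', x₁.getLast hx, ?_⟩
    rw [← h4', List.dropLast_append_getLast]
  · rintro ⟨_, h2, _⟩
    exact h2 rfl
  · rintro ⟨_, _, h3, _⟩
    exact absurd h3 (Nat.succ_ne_zero m)
  · rintro ⟨_, h2, _⟩
    exact h2 rfl
  · rintro ⟨_, h2, _⟩
    exact key_ne hy h2
  · rintro ⟨h1, _, t', ht', c, h4⟩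
    exact hs₁.2 ⟨h1, t', ht', c, h4⟩

/-- The event that `wq κ' x' y` with a hidden pair is asked at step `s`. -/
def A (κ t : ℕ) (Pr : List Instr) (X : Om → List Bool) (s : ℕ)
    (i : ℕ × List Bool × List Bool) : Set Om :=
  {ω | (¬ SS κ t i.1 i.2.1 ∧ i.2.2.length = lev i.1 i.2.1) ∧
    Asks (ov κ t ω) Pr (X ω) s (wq i.1 i.2.1 i.2.2)}

lemma visfin (κ t : ℕ) : (Vis κ t).Finite :=
  (oldfin _).subset fun _ h => h.1

lemma A_iff (κ t : ℕ) (h0 : nn 0 ≤ lev κ (str t ++ [false])) {Pr : List Instr}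
    {X : Om → List Bool} (hX : Dep (Vis κ t) X) (s : ℕ) (i : ℕ × List Bool × List Bool)
    {ω ω' : Om} (h : ∀ a ∈ Vis κ t, ω a = ω' a) :
    ω ∈ A κ t Pr X s i ↔ ω' ∈ A κ t Pr X s i := by
  show (_ ∧ Asks (ov κ t ω) Pr (X ω) s _) ↔ (_ ∧ Asks (ov κ t ω') Pr (X ω') s _)
  rw [ov_dep κ t h0 h, hX ω ω' h]

lemma A_meas (κ t : ℕ) (h0 : nn 0 ≤ lev κ (str t ++ [false])) {Pr : List Instr}
    {X : Om → List Bool} (hX : Dep (Vis κ t) X) (s : ℕ) (i : ℕ × List Bool × List Bool) :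
    MeasurableSet (A κ t Pr X s i) :=
  fd (visfin κ t) fun _ _ h => A_iff κ t h0 hX s i h

/-- The key coins of a hidden pair are not visible. -/
lemma hidden_notMem (κ t : ℕ) {κ' : ℕ} {x' : List Bool} (hS : ¬ SS κ t κ' x')
    {a : Idx} (ha : a ∈ Vis κ t) : a ∉ pc κ' x' := by
  rintro ⟨h1, h2, h3⟩
  apply hS
  refine ⟨?_, ?_⟩
  · rw [← h1, ← h2]
    exact ha.1.2.2.2.2.2.2 h3
  · rintro ⟨e1, t', ht', c, hc⟩
    exact ha.2.2 ⟨h1.trans e1, h3, t', ht', c, h2.trans hc⟩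

/-- The event of KEYP. -/
def K (κ' : ℕ) (x' y : List Bool) : Set Om :=
  {ω | ∃ i ≤ kk (jj (lev κ' x')), ω (κ', x', y, i) = true ∨ NoKey ω κ' x' i}

lemma key_K {ω : Om} {κ' : ℕ} {x' y : List Bool} (h : zo ω κ' x' y = true) :
    ω ∈ K κ' x' y := by
  classical
  unfold zo at h
  rw [Bool.and_eq_true, Bool.or_eq_true, decide_eq_true_eq] at h
  exact ⟨op ω (jj (lev κ' x')), op_le ω _, h.2⟩

/-- The coins of the event of KEYP. -/
def kc (κ' : ℕ) (x' : List Bool) : Set Idx :=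
  {a | a.1 = κ' ∧ a.2.1 = x' ∧ a.2.2.1.length = lev κ' x' ∧ a.2.2.2 ≤ kk (jj (lev κ' x'))}

lemma kc_fin (κ' : ℕ) (x' : List Bool) : (kc κ' x').Finite := by
  have h1 : (({κ'} : Set ℕ) ×ˢ (({x'} : Set (List Bool)) ×ˢ
      ({y : List Bool | y.length ≤ lev κ' x'} ×ˢ Set.Iic (kk (jj (lev κ' x'))))) :
      Set Idx).Finite :=
    (Set.finite_singleton _).prod ((Set.finite_singleton _).prod
      ((List.finite_length_le Bool _).prod (Set.finite_Iic _)))
  refine h1.subset ?_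
  rintro ⟨a, b, c, d⟩ ⟨h2, h3, h4, h5⟩
  exact ⟨h2, h3, h4.le, h5⟩

lemma kc_pc (κ' : ℕ) (x' : List Bool) : kc κ' x' ⊆ pc κ' x' := by
  rintro a ⟨h2, h3, h4, h5⟩
  exact ⟨h2, h3, key_ne h4⟩

lemma K_iff {κ' : ℕ} {x' y : List Bool} (hy : y.length = lev κ' x') {ω ω' : Om}
    (h : ∀ a ∈ kc κ' x', ω a = ω' a) : ω ∈ K κ' x' y ↔ ω' ∈ K κ' x' y := by
  show (∃ i ≤ kk (jj (lev κ' x')), ω (κ', x', y, i) = true ∨ NoKey ω κ' x' i) ↔
    (∃ i ≤ kk (jj (lev κ' x')), ω' (κ', x', y, i) = true ∨ NoKey ω' κ' x' i)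
  refine exists_congr fun i => and_congr_right fun hi => ?_
  rw [h (κ', x', y, i) ⟨rfl, rfl, hy, hi⟩]
  refine or_congr_right ?_
  unfold NoKey
  refine forall_congr' fun y' => forall_congr' fun hy' => ?_
  rw [h (κ', x', y', i) ⟨rfl, rfl, hy', hi⟩]

/-- A hidden key is hit with small probability. -/
lemma hit_one (hKEYP : T_KEYP) (κ t : ℕ) (h0 : nn 0 ≤ lev κ (str t ++ [false]))
    {Pr : List Instr} {X : Om → List Bool} (hX : Dep (Vis κ t) X) (s : ℕ)
    (i : ℕ × List Bool × List Bool) :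
    coin (A κ t Pr X s i ∩ {ω | zo ω i.1 i.2.1 i.2.2 = true}) ≤
      (2⁻¹ : ℝ≥0∞) ^ (lev κ (str t ++ [false]) / 2) * coin (A κ t Pr X s i) := by
  obtain ⟨κ', x', y⟩ := i
  by_cases hS : ¬ SS κ t κ' x' ∧ y.length = lev κ' x'
  swap
  · have : A κ t Pr X s (κ', x', y) = ∅ := by
      ext ω
      constructor
      · intro h
        exact (hS h.1).elim
      · intro h
        exact h.elim
    rw [this]
    simp
  obtain ⟨hS, hy⟩ := hS
  have hge := hidden_ge κ t hS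
  have hAm := A_meas κ t h0 (Pr := Pr) hX s (κ', x', y)
  have hCiff : ∀ ω ω' : Om, (∀ a ∈ kc κ' x', ω a = ω' a) →
      (ω ∈ K κ' x' y ↔ ω' ∈ K κ' x' y) := fun ω ω' h => K_iff hy h
  have hCm : MeasurableSet (K κ' x' y) := fd (kc_fin κ' x') hCiff
  have hCd : Dep (pc κ' x') ((K κ' x' y).indicator (1 : Om → ℝ≥0∞)) := by
    intro ω ω' h
    have hC := hCiff ω ω' fun a ha => h a (kc_pc κ' x' ha)
    by_cases hω : ω ∈ K κ' x' y
    · rw [Set.indicator_of_mem hω, Set.indicator_of_mem (hC.1 hω)]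
      rfl
    · rw [Set.indicator_of_notMem hω, Set.indicator_of_notMem fun h => hω (hC.2 h)]
  have hAd : Dep (pc κ' x')ᶜ ((A κ t Pr X s (κ', x', y)).indicator (1 : Om → ℝ≥0∞)) := by
    intro ω ω' h
    have hA : ω ∈ A κ t Pr X s (κ', x', y) ↔ ω' ∈ A κ t Pr X s (κ', x', y) :=
      A_iff κ t h0 hX s _ fun a ha => h a (hidden_notMem κ t hS ha)
    by_cases hω : ω ∈ A κ t Pr X s (κ', x', y)
    · rw [Set.indicator_of_mem hω, Set.indicator_of_mem (hA.1 hω)]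
      rfl
    · rw [Set.indicator_of_notMem hω, Set.indicator_of_notMem fun h => hω (hA.2 h)]
  have hsub : A κ t Pr X s (κ', x', y) ∩ {ω | zo ω κ' x' y = true} ⊆
      A κ t Pr X s (κ', x', y) ∩ K κ' x' y := by
    rintro ω ⟨hA, hz⟩
    exact ⟨hA, key_K hz⟩
  have hi := indep (p := pc κ' x') (F := (K κ' x' y).indicator 1)
    (G := (A κ t Pr X s (κ', x', y)).indicator 1)
    (measurable_one.indicator hCm) (measurable_one.indicator hAm) hCd hAd
  rw [lintegral_indicator_one hCm, lintegral_indicator_one hAm] at hi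
  have hmul : ∀ ω : Om, (K κ' x' y).indicator (1 : Om → ℝ≥0∞) ω *
      (A κ t Pr X s (κ', x', y)).indicator 1 ω =
      (A κ t Pr X s (κ', x', y) ∩ K κ' x' y).indicator 1 ω := by
    intro ω
    by_cases ha : ω ∈ A κ t Pr X s (κ', x', y) <;> by_cases hb : ω ∈ K κ' x' y <;>
      simp [Set.indicator, ha, hb]
  simp only [hmul] at hi
  rw [lintegral_indicator_one (hAm.inter hCm)] at hi
  have hCc : coin (K κ' x' y) ≤ (2⁻¹ : ℝ≥0∞) ^ (lev κ' x' / 2) :=
    hKEYP κ' x' y (h0.trans hge) hy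
  calc coin (A κ t Pr X s (κ', x', y) ∩ {ω | zo ω κ' x' y = true})
      ≤ coin (A κ t Pr X s (κ', x', y) ∩ K κ' x' y) := measure_mono hsub
    _ = coin (K κ' x' y) * coin (A κ t Pr X s (κ', x', y)) := hi
    _ ≤ (2⁻¹ : ℝ≥0∞) ^ (lev κ' x' / 2) * coin (A κ t Pr X s (κ', x', y)) :=
        mul_le_mul' hCc le_rfl
    _ ≤ (2⁻¹ : ℝ≥0∞) ^ (lev κ (str t ++ [false]) / 2) *
          coin (A κ t Pr X s (κ', x', y)) := by
        refine mul_le_mul' ?_ le_rfl
        exact pow_le_pow_right_of_le_one' (ENNReal.inv_le_one.2 (by norm_num)) (by omega)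

end HIT_

open HIT_ in
/-- Finding a hidden key. -/
theorem p_HIT_of (hKEYP : T_KEYP) : T_HIT := by
  intro κ t Pr X τ hm0 hXd hXl
  set m := lev κ (str t ++ [false]) with hm
  -- the events that a hidden key is asked
  have hsub : {ω | ∃ s ≤ τ, run (oo ω) Pr (X ω) s ≠ run (ov κ t ω) Pr (X ω) s} ⊆
      ⋃ s ∈ Finset.range τ, ⋃ i : ℕ × List Bool × List Bool,
        (A κ t Pr X s i ∩ {ω | zo ω i.1 i.2.1 i.2.2 = true}) := by
    intro ω hω
    by_contra hcon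
    simp only [Set.mem_iUnion, Finset.mem_range, not_exists, exists_prop, not_and] at hcon
    obtain ⟨s, hsτ, hne⟩ := hω
    apply hne
    refine Pool.Agent.RelM.loc _ _ Pr (X ω) τ (fun s' hs' q hq => ?_) s hsτ
    by_contra hne'
    have hlen := Pool.Agent.RelM.len _ _ _ _ _ hq
    have hXl' := hXl ω
    rcases ocut (SS κ t) (bitsOf (hf ω)) (bitsOf (hs ω (bl κ (str t))))
      (zo ω) (zo ω) (fun _ _ _ _ _ => rfl) q
      (fun h => hne' h.symm) with
      ⟨κ', x', y', hS, hy', hq', hz'⟩ | ⟨κ', x', m', hS, hq', hm'⟩ | ⟨u, hq', hu⟩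
    · refine hcon s' hs' (κ', x', y') ⟨⟨⟨hS, hy'⟩, ?_⟩, hz'⟩
      rw [← hq']
      exact hq
    · have h2 := Pool.Agent.RelM.HitJob.le_length_sq1 κ' x' m'
      rw [← hq'] at h2
      have h4 : 2 ^ m ≤ 2 ^ lev κ' x' :=
        Nat.pow_le_pow_right (by norm_num) (hidden_ge κ t hS)
      omega
    · apply hu
      refine bloc _ _ u fun j hj => ?_
      have h5 : j < bl κ (str t) := by
        by_contra h6
        have h7 : nn (bl κ (str t)) ≤ nn j := nnmono.monotone (by omega)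
        have h10 : m < nn (bl κ (str t)) := (jjspec m).1
        have h8 : 2 ^ m ≤ 2 ^ nn j := Nat.pow_le_pow_right (by norm_num) (by omega)
        have h9 : q.length = u.length + 2 := by rw [hq']; simp
        omega
      exact (hsval ω (bl κ (str t)) j h5).symm
  have hdisj : ∀ s, Pairwise (Function.onFun Disjoint (A κ t Pr X s)) := by
    intro s i j hij
    rw [Function.onFun, Set.disjoint_left]
    rintro ω ⟨_, h1⟩ ⟨_, h2⟩
    apply hij
    obtain ⟨e1, e2, e3⟩ := Pool.Agent.RelM.HitJob.wq_inj' (Pool.Agent.RelM.one _ _ _ _ _ _ h1 h2)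
    exact Prod.ext e1 (Prod.ext e2 e3)
  calc coin {ω | ∃ s ≤ τ, run (oo ω) Pr (X ω) s ≠ run (ov κ t ω) Pr (X ω) s}
      ≤ coin (⋃ s ∈ Finset.range τ, ⋃ i : ℕ × List Bool × List Bool,
        (A κ t Pr X s i ∩ {ω | zo ω i.1 i.2.1 i.2.2 = true})) := measure_mono hsub
    _ ≤ ∑ s ∈ Finset.range τ, coin (⋃ i : ℕ × List Bool × List Bool,
        (A κ t Pr X s i ∩ {ω | zo ω i.1 i.2.1 i.2.2 = true})) :=
        measure_biUnion_finset_le _ _
    _ ≤ ∑ _s ∈ Finset.range τ, (2⁻¹ : ℝ≥0∞) ^ (m / 2) := by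
        refine Finset.sum_le_sum fun s _ => ?_
        calc coin (⋃ i : ℕ × List Bool × List Bool,
              (A κ t Pr X s i ∩ {ω | zo ω i.1 i.2.1 i.2.2 = true}))
            ≤ ∑' i : ℕ × List Bool × List Bool,
              coin (A κ t Pr X s i ∩ {ω | zo ω i.1 i.2.1 i.2.2 = true}) :=
              measure_iUnion_le _
          _ ≤ ∑' i, (2⁻¹ : ℝ≥0∞) ^ (m / 2) * coin (A κ t Pr X s i) :=
              ENNReal.tsum_le_tsum fun i => hit_one hKEYP κ t hm0 hXd s i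
          _ = (2⁻¹ : ℝ≥0∞) ^ (m / 2) * coin (⋃ i, A κ t Pr X s i) := by
              rw [ENNReal.tsum_mul_left, measure_iUnion (hdisj s) fun i =>
                A_meas κ t hm0 hXd s i]
          _ ≤ (2⁻¹ : ℝ≥0∞) ^ (m / 2) * 1 := by
              gcongr
              exact prob_le_one
          _ = (2⁻¹ : ℝ≥0∞) ^ (m / 2) := mul_one _
    _ = τ * (2⁻¹ : ℝ≥0∞) ^ (m / 2) := by
        rw [Finset.sum_const, Finset.card_range, nsmul_eq_mul]

end Pool.Agent.RelY
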