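import Pool.Agent.RelY.NN
import Pool.Agent.RelY.MEAS
import Pool.Agent.RelT.CROSS

/-!
# The hidden language has no null cover (job NONB of RelY)
-/

set_option autoImplicit false

namespace Pool.Agent.RelY

open MeasureTheory Set
open scoped ENNReal
open Pool.Agent.RelM (Lang Instr Cfg step run Halts triple outVal Approx str pre IsDensity
  IsNullCover)
open Pool.Agent.RelO (lev proc levmono levfin)
open Pool.Agent.RelS (Z Rl Idx Om Dep meas_of_dep ovis)
open Pool.Agent.RelT (Fast)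

namespace NONB_

/-! ### Words -/

theorem pre_length (A : Lang) (n : ℕ) : (pre A n).length = n := by simp [pre]

theorem pre_succ (A : Lang) (n : ℕ) : pre A (n + 1) = pre A n ++ [A (str n)] := by
  unfold pre
  rw [List.range_succ, List.map_append]
  rfl

theorem triple_length (k r : ℕ) (w : List Bool) :
    (triple k r w).length = k + r + w.length + 2 := by
  simp [triple]; omega

/-! ### Visible coins -/

theorem lev_mono (κ : ℕ) {t t' : ℕ} (h : t ≤ t') (c c' : Bool) :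
    lev κ (str t ++ [c]) ≤ lev κ (str t' ++ [c']) := by
  refine levmono _ _ _ ?_
  rw [List.length_append, List.length_append, Pool.Agent.RelM.strlen, Pool.Agent.RelM.strlen]
  have := Nat.log_mono_right (b := 2) (show t + 1 ≤ t' + 1 by omega)
  simpa using this

theorem lev_ge (κ t : ℕ) : lev κ (str t) ≤ lev κ (str t ++ [false]) :=
  levmono _ _ _ (by simp)

theorem bl_mono (κ : ℕ) : Monotone fun t => bl κ (str t) := by
  intro s t h
  show jj (lev κ (str s ++ [false])) ≤ jj (lev κ (str t ++ [false]))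
  have h1 := lev_mono κ h false false
  have h2 := (jjspec (lev κ (str t ++ [false]))).1
  exact jj_le (by omega)

theorem vis_mono (κ : ℕ) {s t : ℕ} (h : s ≤ t) : Vis κ s ⊆ Vis κ t := by
  rintro a ⟨h1, h2, h3⟩
  refine ⟨old_mono (bl_mono κ h) h1, ?_, ?_⟩
  · rintro ⟨h4, h5, h6, t', ht', h7⟩
    exact h2 ⟨h4, h5, h6, t', by omega, h7⟩
  · rintro ⟨h4, h5, t', ht', h7⟩
    exact h3 ⟨h4, h5, t', by omega, h7⟩

theorem visfin (κ t : ℕ) : (Vis κ t).Finite :=
  (oldfin _).subset fun _ h => h.1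

theorem start (κ : ℕ) : ∀ t, 2 ^ nn 0 ≤ t → nn 0 ≤ lev κ (str t ++ [false]) := by
  intro t ht
  have h2 := (levfin κ (str t) _ le_rfl).2
  rw [Pool.Agent.RelM.strlen] at h2
  refine le_trans ?_ (h2.trans (lev_ge κ t))
  rw [Nat.le_log_iff_pow_le (by norm_num) (by omega)]
  omega

theorem bl_succ (κ t : ℕ) (h0 : nn 0 ≤ lev κ (str t ++ [false])) :
    ∃ J, bl κ (str t) = J + 1 ∧ nn J ≤ lev κ (str t ++ [false]) ∧
      lev κ (str t ++ [false]) < nn (J + 1) := by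
  obtain ⟨h1, h2⟩ := jjspec (lev κ (str t ++ [false]))
  have hpos : jj (lev κ (str t ++ [false])) ≠ 0 := by
    intro h
    rw [h] at h1
    omega
  refine ⟨jj (lev κ (str t ++ [false])) - 1, ?_, h2 _ (by omega), ?_⟩
  · unfold bl
    omega
  · rw [show jj (lev κ (str t ++ [false])) - 1 + 1 = jj (lev κ (str t ++ [false])) by omega]
    exact h1

/-- The hidden oracle depends only on the visible coins. -/
theorem ov_dep (κ t : ℕ) (h0 : nn 0 ≤ lev κ (str t ++ [false])) {ω ω' : Om}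
    (h : ∀ a ∈ Vis κ t, ω a = ω' a) : ov κ t ω = ov κ t ω' := by
  obtain ⟨J, hJ, hJ1, hJ2⟩ := bl_succ κ t h0
  have hh : hs ω (J + 1) = hs ω' (J + 1) := by
    refine hsdep J ω ω' fun a ha => h a ⟨?_, ?_, ?_⟩
    · rw [hJ]
      exact old_mono (Nat.le_succ J) ha
    · rintro ⟨h1, h2, h3, t', ht', h4⟩
      have h5 := ha.2.2.2.2.1 h2 h3
      rw [h1, h4] at h5
      have h6 := lev_mono κ ht' false false
      omega
    · rintro ⟨h1, h2, t', ht', c, h4⟩
      have h5 := ha.2.2.2.2.2.2 h2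
      rw [h1, h4] at h5
      have h6 := lev_mono κ ht' false c
      omega
  funext q
  unfold ov
  rw [hJ, hh]
  refine ovis _ _ _ _ (fun κ₁ x₁ y₁ hs₁ hy₁ => ?_) q
  have hl : lev κ₁ x₁ < nn (bl κ (str t)) := hs₁.1
  have hv := jj_le hl
  refine zo_congr (fun hx => h _ ⟨old_sgn hx hl, ?_, ?_⟩)
    (op_congr fun m hm => h _ ⟨old_op hv hm, ?_, ?_⟩)
    (fun y' hy' => h _ ⟨old_key hl hy' ?_, ?_, ?_⟩) hy₁
  · rintro ⟨h1, _, _, t', ht', h2⟩
    refine hs₁.2 ⟨h1, t', ht', x₁.getLast hx, ?_⟩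
    have h3 : x₁.dropLast = str t' := h2
    rw [← h3, List.dropLast_append_getLast hx]
  · rintro ⟨_, h1, _⟩
    exact h1 rfl
  · rintro ⟨_, _, h1, _⟩
    exact Nat.succ_ne_zero m h1
  · rintro ⟨_, h1, _⟩
    exact h1 rfl
  · have h2 := op_le ω (jj (lev κ₁ x₁))
    have h3 := kk_le hv
    omega
  · rintro ⟨_, h1, _⟩
    exact key_ne hy' h1
  · rintro ⟨h1, _, t', ht', c, h2⟩
    exact hs₁.2 ⟨h1, t', ht', c, h2⟩

/-! ### The language -/

/-- The hidden language. -/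
def RR (κ : ℕ) (ω : Om) : Lang := Hl κ ω

/-- The input. -/
noncomputable def inp (κ k r t : ℕ) (e : List Bool) (ω : Om) : List Bool :=
  triple k r (pre (RR κ ω) t ++ e)

theorem inp_length (κ k r t : ℕ) (e : List Bool) (ω : Om) :
    (inp κ k r t e ω).length = k + r + (t + e.length) + 2 := by
  unfold inp
  rw [triple_length, List.length_append, pre_length]

/-- The value computed. -/
noncomputable def val (κ t : ℕ) (Pr : List Instr) (T : ℕ → ℕ)
    (I : List Bool) (ω : Om) : ℝ :=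
  |outVal (run (ov κ t ω) Pr I (T I.length))|

theorem bit_dep (κ : ℕ) {s t : ℕ} (h : s < t) :
    Dep (Vis κ t) fun ω => RR κ ω (str s) := by
  intro ω ω' hω
  show ω (κ, str s, [], 0) = ω' (κ, str s, [], 0)
  refine hω _ ⟨?_, ?_, ?_⟩
  · have e1 := lev_mono κ h.le false false
    have e2 : lev κ (str t ++ [false]) < nn (bl κ (str t)) :=
      (jjspec (lev κ (str t ++ [false]))).1
    have e3 := old_sgn (j := bl κ (str t)) (κ := κ) (x := str s ++ [false]) (by simp) (by omega)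
    rwa [List.dropLast_concat] at e3
  · rintro ⟨_, _, _, t', ht', h2⟩
    have := Pool.Agent.RelM.strinj h2
    omega
  · rintro ⟨_, h1, _⟩
    exact h1 rfl

theorem inp_dep (κ : ℕ) (k r t : ℕ) (e : List Bool) :
    Dep (Vis κ t) (inp κ k r t e) := by
  intro ω ω' hω
  unfold inp
  have h1 : pre (RR κ ω) t = pre (RR κ ω') t := by
    unfold pre
    refine List.map_congr_left fun i hi => ?_
    exact bit_dep κ (List.mem_range.mp hi) ω ω' hω
  rw [h1]

theorem val_dep (κ : ℕ) (t : ℕ)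
    (h0 : nn 0 ≤ lev κ (str t ++ [false])) (Pr : List Instr) (T : ℕ → ℕ)
    (k r : ℕ) (e : List Bool) :
    Dep (Vis κ t) fun ω => val κ t Pr T (inp κ k r t e ω) ω := by
  intro ω ω' hω
  show val κ t Pr T (inp κ k r t e ω) ω = val κ t Pr T (inp κ k r t e ω') ω'
  unfold val
  rw [ov_dep κ t h0 hω, inp_dep κ k r t e ω ω' hω]

/-! ### Hits -/

/-- The event that hiding changes a run. -/
def Hit (κ : ℕ) (Pr : List Instr) (T : ℕ → ℕ) (k r t : ℕ) (e : List Bool) : Set Om :=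
  {ω | ∃ s ≤ T (inp κ k r t e ω).length, run (oo ω) Pr (inp κ k r t e ω) s ≠
    run (ov κ t ω) Pr (inp κ k r t e ω) s}

theorem hit_bound (hHIT : T_HIT) (κ : ℕ) (Pr : List Instr)
    (T : ℕ → ℕ) (c k r t : ℕ) (e : List Bool) (h0 : nn 0 ≤ lev κ (str t ++ [false]))
    (hB : ∀ l, l ≤ c * (t + 1) →
      l + T l < 2 ^ lev κ (str t ++ [false]) ∧
        4 * (t + 1) ^ 2 * T l ≤ 2 ^ (lev κ (str t ++ [false]) / 2))
    (hlen : k + r + (t + e.length) + 2 ≤ c * (t + 1)) :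
    coin (Hit κ Pr T k r t e) ≤ ENNReal.ofReal (1 / ((t : ℝ) + 1) ^ 2) := by
  set l : ℕ := k + r + (t + e.length) + 2 with hl
  have hlenI : ∀ ω, (inp κ k r t e ω).length = l := fun ω => inp_length κ k r t e ω
  obtain ⟨hB1, hB2⟩ := hB l hlen
  have hhit := hHIT κ t Pr (inp κ k r t e) (T l) h0
    (inp_dep κ k r t e) (fun ω => by rw [hlenI]; exact hB1)
  unfold Hit
  simp only [hlenI]
  refine hhit.trans ?_
  set L := lev κ (str t ++ [false]) / 2 with hL
  have h3 : (T l : ℝ≥0∞) * (2⁻¹ : ℝ≥0∞) ^ L = ENNReal.ofReal ((T l : ℝ) * (1 / 2) ^ L) := by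
    rw [ENNReal.ofReal_mul (by positivity), ENNReal.ofReal_pow (by positivity)]
    congr 1
    · simp
    · congr 1
      rw [one_div, ENNReal.ofReal_inv_of_pos (by norm_num)]
      simp
  rw [h3]
  apply ENNReal.ofReal_le_ofReal
  have h4 : (4 : ℝ) * ((t : ℝ) + 1) ^ 2 * (T l : ℝ) ≤ 2 ^ L := by exact_mod_cast hB2
  have h5 : (0 : ℝ) < ((t : ℝ) + 1) ^ 2 := by positivity
  rw [le_div_iff₀ h5, one_div_pow]
  have h6 : (0 : ℝ) < 2 ^ L := by positivity
  have h7 : (T l : ℝ) * (1 / 2 ^ L) * ((t : ℝ) + 1) ^ 2 =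
      ((T l : ℝ) * ((t : ℝ) + 1) ^ 2) / 2 ^ L := by ring
  rw [h7, div_le_one h6]
  nlinarith [mul_nonneg (by positivity : (0 : ℝ) ≤ T l) h5.le]

/-- The bounds for the hits are summable. -/
theorem hitsum : ∑' t : ℕ, ENNReal.ofReal (1 / ((t : ℝ) + 1) ^ 2) ≠ ∞ := by
  have h1 : Summable (fun t : ℕ => 1 / ((t : ℝ) + 1) ^ 2) := by
    have := (summable_nat_add_iff 1).mpr (Real.summable_one_div_nat_pow.mpr (by norm_num : 1 < 2))
    simpa using this
  rw [← ENNReal.ofReal_tsum_of_nonneg (fun t => by positivity) h1]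
  exact ENNReal.ofReal_ne_top

theorem val_close {κ : ℕ} {Pr : List Instr} {T : ℕ → ℕ} {ω : Om}
    {d : ℕ → List Bool → ℝ} (hd : ∀ k w, 0 ≤ d k w) (hA : Approx (oo ω) Pr T d)
    (k r t : ℕ) (e : List Bool) (hh : ω ∉ Hit κ Pr T k r t e) :
    |val κ t Pr T (inp κ k r t e ω) ω - d k (pre (RR κ ω) t ++ e)| ≤
      (1 / 2 : ℝ) ^ r := by
  have h1 : run (oo ω) Pr (inp κ k r t e ω) (T (inp κ k r t e ω).length) =
      run (ov κ t ω) Pr (inp κ k r t e ω) (T (inp κ k r t e ω).length) := by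
    by_contra hne
    exact hh ⟨_, le_rfl, hne⟩
  have h3 : |outVal (run (oo ω) Pr (inp κ k r t e ω)
      (T (inp κ k r t e ω).length)) - d k (pre (RR κ ω) t ++ e)|
      ≤ (1 / 2 : ℝ) ^ r := (hA k r (pre (RR κ ω) t ++ e)).2
  rw [h1] at h3
  have h4 : 0 ≤ d k (pre (RR κ ω) t ++ e) := hd k _
  unfold val
  have h5 := abs_abs_sub_abs_le (outVal (run (ov κ t ω) Pr (inp κ k r t e ω)
    (T (inp κ k r t e ω).length))) (d k (pre (RR κ ω) t ++ e))
  rw [abs_of_nonneg h4] at h5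
  exact h5.trans h3

/-! ### Densities -/

theorem dens_step {d : List Bool → ℝ} (hd : IsDensity d) (w : List Bool) (b : Bool) :
    d (w ++ [b]) ≤ 2 * d w := by
  have h1 := hd.avg w
  have h2 := hd.nonneg (w ++ [false])
  have h3 := hd.nonneg (w ++ [true])
  cases b <;> linarith

theorem dens_pre {d : List Bool → ℝ} (hd : IsDensity d) (A : Lang) (n : ℕ) :
    d (pre A n) ≤ 2 ^ n * d [] := by
  induction n with
  | zero => simp [pre]
  | succ n ih =>
    rw [pre_succ]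
    have := dens_step hd (pre A n) (A (str n))
    rw [pow_succ]
    linarith

/-! ### The processes -/

/-- The values at time `i + 1`. -/
noncomputable def XX (κ : ℕ) (Pr : List Instr) (T : ℕ → ℕ) (j i : ℕ) (b : Bool)
    (ω : Om) : ℝ :=
  val κ (j + i) Pr T (inp κ (2 * j) (j + i + 1 + 2 * j + 3) (j + i) [b] ω) ω

/-- The value at time `0`. -/
noncomputable def YY (κ : ℕ) (Pr : List Instr) (T : ℕ → ℕ) (j : ℕ) (ω : Om) : ℝ :=
  val κ j Pr T (inp κ (2 * j) (j + 2 * j + 3) j [] ω) ω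

/-- The bits. -/
noncomputable def bb (κ j i : ℕ) (ω : Om) : Bool := RR κ ω (str (j + i))

/-- The errors. -/
noncomputable def ee (j i : ℕ) : ℝ := 2 * (1 / 2 : ℝ) ^ (j + i + 2 * j + 3)

theorem ee_sum (j : ℕ) : Summable (ee j) ∧ ∑' i, ee j i ≤ (1 / 2 : ℝ) ^ j := by
  have h1 : ∀ i, ee j i = (2 * (1 / 2 : ℝ) ^ (3 * j + 3)) * (1 / 2 : ℝ) ^ i := by
    intro i
    unfold ee
    rw [mul_assoc, ← pow_add]
    congr 2
    ring
  have h2 : HasSum (ee j) ((2 * (1 / 2 : ℝ) ^ (3 * j + 3)) * 2) := by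
    have := hasSum_geometric_two.mul_left (2 * (1 / 2 : ℝ) ^ (3 * j + 3))
    simpa only [← h1] using this
  refine ⟨h2.summable, ?_⟩
  rw [h2.tsum_eq]
  have h3 : (1 / 2 : ℝ) ^ (3 * j + 3) = (1 / 2 : ℝ) ^ j * (1 / 2) ^ (2 * j) * (1 / 8) := by
    rw [show 3 * j + 3 = j + 2 * j + 3 by ring, pow_add, pow_add]
    norm_num
  have h4 : (1 / 2 : ℝ) ^ (2 * j) ≤ 1 := pow_le_one₀ (by norm_num) (by norm_num)
  have h5 : 0 ≤ (1 / 2 : ℝ) ^ j := by positivity
  have h6 : 0 ≤ (1 / 2 : ℝ) ^ (2 * j) := by positivity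
  rw [h3]
  nlinarith [mul_le_mul_of_nonneg_left h4 h5]

/-- The event that a gambler wins. -/
def Win (κ : ℕ) (Pr : List Instr) (T : ℕ → ℕ) (j : ℕ) : Set Om :=
  {ω | YY κ Pr T j ω ≤ 2 * (1 / 2 : ℝ) ^ j ∧
    (∀ i, 1 / 2 * XX κ Pr T j i false ω + (1 - 1 / 2) * XX κ Pr T j i true ω ≤
      proc (bb κ j) (XX κ Pr T j) (YY κ Pr T j) i ω + ee j i) ∧
    ∃ i, 1 / 2 ≤ proc (bb κ j) (XX κ Pr T j) (YY κ Pr T j) i ω}

theorem cross_bound (hF : T_FAIR) {κ : ℕ}
    (Pr : List Instr) (T : ℕ → ℕ) (j : ℕ)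
    (h0 : ∀ t, j ≤ t → nn 0 ≤ lev κ (str t ++ [false])) :
    coin (Win κ Pr T j) ≤ ENNReal.ofReal (6 * (1 / 2 : ℝ) ^ j) := by
  obtain ⟨hs1, hs2⟩ := ee_sum j
  have hXd : ∀ i b, Dep (Vis κ (j + i)) (XX κ Pr T j i b) := fun i b =>
    val_dep κ (j + i) (h0 _ (by omega)) Pr T _ _ _
  have hYd : Dep (Vis κ j) (YY κ Pr T j) :=
    val_dep κ j (h0 _ le_rfl) Pr T _ _ _
  have hfin : ∀ t, (Vis κ t).Finite := visfin κ
  have hc := Pool.Agent.RelT.cross coin (bb κ j) (XX κ Pr T j) (YY κ Pr T j)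
    (fun _ _ => 1 / 2) (fun t ω ω' => ∀ a ∈ Vis κ (j + t), ω a = ω' a) (ee j)
    (2 * (1 / 2 : ℝ) ^ j)
    (fun t => meas_of_dep (hfin (j + t + 1))
      (bit_dep κ (Nat.lt_succ_self (j + t))))
    (fun t i => meas_of_dep (hfin _) (hXd t i)) (meas_of_dep (hfin _) hYd)
    (fun _ => measurable_const)
    (fun t ω ω' h => hYd ω ω' fun a ha => h a (vis_mono κ (by omega) ha))
    (fun s t hst ω ω' h => bit_dep κ (by omega : j + s < j + t) ω ω' h)
    (fun s t hst i ω ω' h => hXd s i ω ω' fun a ha => h a (vis_mono κ (by omega) ha))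
    (fun _ _ _ _ _ _ => rfl) (fun _ _ => by norm_num) (fun _ _ => by norm_num)
    ?_ (fun t i ω => abs_nonneg _) (fun ω => abs_nonneg _)
    (fun t => by unfold ee; positivity) hs1 (by positivity)
  · refine hc.trans ?_
    apply ENNReal.ofReal_le_ofReal
    linarith
  · intro t H hH hHd
    have h1 := hF κ (j + t) H false (h0 _ (by omega)) hH hHd
    have h2 := hF κ (j + t) H true (h0 _ (by omega)) hH hHd
    have h3 : ENNReal.ofReal (1 / 2) = 2⁻¹ := by
      rw [one_div, ENNReal.ofReal_inv_of_pos (by norm_num)]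
      norm_num
    have h4 : ENNReal.ofReal (1 - 1 / 2) = 2⁻¹ := by
      rw [show (1 : ℝ) - 1 / 2 = 1 / 2 by norm_num, h3]
    constructor
    · rw [h3, lintegral_const_mul _ hH]
      exact h1.le
    · rw [h4, lintegral_const_mul _ hH]
      exact h2.le

theorem incl (κ : ℕ) (Pr : List Instr) (T : ℕ → ℕ) (j : ℕ) (hj : 1 ≤ j) :
    {ω | ∃ d : ℕ → List Bool → ℝ, IsNullCover d {Hl κ ω} ∧
      Approx (oo ω) Pr T d} ⊆
    Win κ Pr T j ∪
    (Hit κ Pr T (2 * j) (j + 2 * j + 3) j [] ∪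
      ((⋃ i, Hit κ Pr T (2 * j) (j + i + 1 + 2 * j + 3) (j + i) [false]) ∪
        ⋃ i, Hit κ Pr T (2 * j) (j + i + 1 + 2 * j + 3) (j + i) [true])) := by
  rintro ω ⟨d, hN, hA⟩
  by_contra hcon
  rw [Set.mem_union, Set.mem_union, Set.mem_union, Set.mem_iUnion, Set.mem_iUnion] at hcon
  push Not at hcon
  obtain ⟨hcr, hY, hF, hT⟩ := hcon
  apply hcr
  have hd : ∀ k, IsDensity (d k) := fun k => (hN k).1
  have hdn0 : ∀ k w, 0 ≤ d k w := fun k w => (hd k).nonneg w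
  obtain ⟨R, hR⟩ : ∃ R : Lang, R = RR κ ω := ⟨_, rfl⟩
  have hYc : |YY κ Pr T j ω - d (2 * j) (pre R j)| ≤ (1 / 2 : ℝ) ^ (j + 2 * j + 3) := by
    have := val_close hdn0 hA (2 * j) (j + 2 * j + 3) j [] hY
    rw [List.append_nil, ← hR] at this
    exact this
  have hX : ∀ i b, |XX κ Pr T j i b ω - d (2 * j) (pre R (j + i) ++ [b])|
      ≤ (1 / 2 : ℝ) ^ (j + i + 1 + 2 * j + 3) := by
    intro i b
    rw [hR]
    cases b
    · exact val_close hdn0 hA (2 * j) (j + i + 1 + 2 * j + 3) (j + i) [false] (hF i)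
    · exact val_close hdn0 hA (2 * j) (j + i + 1 + 2 * j + 3) (j + i) [true] (hT i)
  have hproc : ∀ i, |proc (bb κ j) (XX κ Pr T j) (YY κ Pr T j) i ω -
      d (2 * j) (pre R (j + i))| ≤ (1 / 2 : ℝ) ^ (j + i + 2 * j + 3) := by
    intro i
    cases i with
    | zero => exact hYc
    | succ i =>
      have h1 := hX i (bb κ j i ω)
      have h2 : pre R (j + (i + 1)) = pre R (j + i) ++ [bb κ j i ω] := by
        rw [← add_assoc, pre_succ, hR]
        rfl
      rw [h2]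
      exact h1
  have hd0 : d (2 * j) [] ≤ (1 / 2 : ℝ) ^ (2 * j) := (hN (2 * j)).2.1
  have hdn : ∀ n ≤ j, d (2 * j) (pre R n) ≤ (1 / 2 : ℝ) ^ j := by
    intro n hn
    calc d (2 * j) (pre R n) ≤ 2 ^ n * d (2 * j) [] := dens_pre (hd _) R n
      _ ≤ 2 ^ n * (1 / 2 : ℝ) ^ (2 * j) := by gcongr
      _ ≤ 2 ^ j * (1 / 2 : ℝ) ^ (2 * j) := by
          gcongr
          norm_num
      _ = (1 / 2 : ℝ) ^ j := by
          rw [two_mul, pow_add, ← mul_assoc, ← mul_pow]
          norm_num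
  refine ⟨?_, ?_, ?_⟩
  · have h1 := (abs_le.mp hYc).2
    have h2 := hdn j le_rfl
    have h3 : (1 / 2 : ℝ) ^ (j + 2 * j + 3) ≤ (1 / 2 : ℝ) ^ j :=
      pow_le_pow_of_le_one (by norm_num) (by norm_num) (by omega)
    linarith
  · intro i
    have h1 := (abs_le.mp (hX i false)).2
    have h2 := (abs_le.mp (hX i true)).2
    have h3 := (abs_le.mp (hproc i)).1
    have h4 := (hd (2 * j)).avg (pre R (j + i))
    have h5 : (1 / 2 : ℝ) ^ (j + i + 1 + 2 * j + 3) ≤ (1 / 2 : ℝ) ^ (j + i + 2 * j + 3) :=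
      pow_le_pow_of_le_one (by norm_num) (by norm_num) (by omega)
    unfold ee
    linarith
  · obtain ⟨n, hn⟩ := (hN (2 * j)).2.2 R (by rw [hR]; rfl)
    have hlt : j < n := by
      by_contra hle
      have h1 := hdn n (by omega)
      have h2 : (1 / 2 : ℝ) ^ j ≤ (1 / 2 : ℝ) ^ 1 :=
        pow_le_pow_of_le_one (by norm_num) (by norm_num) hj
      norm_num at h2
      norm_num at h1
      linarith
    obtain ⟨i, rfl⟩ := Nat.exists_eq_add_of_lt hlt
    refine ⟨i + 1, ?_⟩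
    have h3 := (abs_le.mp (hproc (i + 1))).1
    rw [show j + (i + 1) = j + i + 1 by omega] at h3
    have h4 : (1 / 2 : ℝ) ^ (j + i + 1 + 2 * j + 3) ≤ (1 / 2 : ℝ) ^ 1 :=
      pow_le_pow_of_le_one (by norm_num) (by norm_num) (by omega)
    rw [pow_one] at h4
    linarith

end NONB_

open NONB_ in
/-- Almost surely, no machine that is fast compared with the keys of the family `κ` has a null
cover of the hidden language. -/
theorem p_NONB_of (hHIT : T_HIT) (hFAIR : T_FAIR) : T_NONB := by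
  intro κ Pr T hfast
  rw [ae_iff]
  simp only [not_not]
  obtain ⟨t₀, ht₀'⟩ := hfast 8
  have ht₀ : ∀ t, t₀ ≤ t → ∀ l, l ≤ 8 * (t + 1) →
      l + T l < 2 ^ lev κ (str t ++ [false]) ∧
        4 * (t + 1) ^ 2 * T l ≤ 2 ^ (lev κ (str t ++ [false]) / 2) := by
    intro t ht l hl
    obtain ⟨h1, h2⟩ := ht₀' t ht l hl
    exact ⟨h1.trans_le (Nat.pow_le_pow_right (by norm_num) (lev_ge κ t)),
      h2.trans (Nat.pow_le_pow_right (by norm_num) (Nat.div_le_div_right (lev_ge κ t)))⟩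
  obtain ⟨t₁, ht₁⟩ : ∃ t₁, ∀ t, t₁ ≤ t → nn 0 ≤ lev κ (str t ++ [false]) := ⟨_, start κ⟩
  obtain ⟨f, hf⟩ : ∃ f : ℕ → ℝ≥0∞, ∀ t, f t = ENNReal.ofReal (1 / ((t : ℝ) + 1) ^ 2) :=
    ⟨_, fun _ => rfl⟩
  have hfs : ∑' t, f t ≠ ∞ := by
    simp only [hf]
    exact hitsum
  have hbound : ∀ j, max 1 (max t₁ t₀) ≤ j →
      coin {ω | ∃ d : ℕ → List Bool → ℝ, IsNullCover d {Hl κ ω} ∧
        Approx (oo ω) Pr T d} ≤
      ENNReal.ofReal (6 * (1 / 2 : ℝ) ^ j) + (f j + (∑' i, f (i + j) + ∑' i, f (i + j))) := by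
    intro j hj
    have hj1 : 1 ≤ j := le_trans (le_max_left _ _) hj
    have hj2 : t₁ ≤ j := le_trans (le_max_left _ _) (le_trans (le_max_right _ _) hj)
    have hj3 : t₀ ≤ j := le_trans (le_max_right _ _) (le_trans (le_max_right _ _) hj)
    have h0 : ∀ t, j ≤ t → nn 0 ≤ lev κ (str t ++ [false]) := fun t ht => ht₁ t (by omega)
    refine (measure_mono (incl κ Pr T j hj1)).trans ?_
    refine (measure_union_le _ _).trans (add_le_add (cross_bound hFAIR Pr T j h0) ?_)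
    refine (measure_union_le _ _).trans (add_le_add ?_ ?_)
    · rw [hf]
      exact hit_bound hHIT κ Pr T 8 _ _ j [] (h0 _ le_rfl) (ht₀ j hj3) (by simp; omega)
    · refine (measure_union_le _ _).trans (add_le_add ?_ ?_)
      · refine (measure_iUnion_le _).trans (ENNReal.tsum_le_tsum fun i => ?_)
        rw [add_comm i j, hf]
        exact hit_bound hHIT κ Pr T 8 _ _ (j + i) [false] (h0 _ (by omega))
          (ht₀ _ (by omega)) (by simp; omega)
      · refine (measure_iUnion_le _).trans (ENNReal.tsum_le_tsum fun i => ?_)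
        rw [add_comm i j, hf]
        exact hit_bound hHIT κ Pr T 8 _ _ (j + i) [true] (h0 _ (by omega))
          (ht₀ _ (by omega)) (by simp; omega)
  have hlim : Filter.Tendsto (fun j : ℕ =>
      ENNReal.ofReal (6 * (1 / 2 : ℝ) ^ j) + (f j + (∑' i, f (i + j) + ∑' i, f (i + j))))
      Filter.atTop (nhds 0) := by
    have h1 : Filter.Tendsto (fun j : ℕ => ENNReal.ofReal (6 * (1 / 2 : ℝ) ^ j)) Filter.atTop
        (nhds 0) := by
      have h2 : Filter.Tendsto (fun j : ℕ => 6 * (1 / 2 : ℝ) ^ j) Filter.atTop (nhds (6 * 0)) :=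
        (tendsto_pow_atTop_nhds_zero_of_lt_one (by norm_num) (by norm_num)).const_mul 6
      have h3 := ENNReal.tendsto_ofReal h2
      simpa using h3
    have h4 : Filter.Tendsto f Filter.atTop (nhds 0) :=
      ENNReal.tendsto_atTop_zero_of_tsum_ne_top hfs
    have h5 := ENNReal.tendsto_sum_nat_add f hfs
    simpa using h1.add (h4.add (h5.add h5))
  refine le_antisymm (ge_of_tendsto hlim ?_) zero_le
  filter_upwards [Filter.eventually_ge_atTop (max 1 (max t₁ t₀))] with j hj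
  exact hbound j hj

end Pool.Agent.RelY
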