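import Pool.Agent.RelY.P_NPM
import Pool.Agent.RelY.P_NONB
import Pool.Agent.RelY.P_UPP
import Pool.Agent.RelC.MAIN

/-!
# RelY: the theorem
-/

set_option autoImplicit false

namespace Pool.Agent.RelY

open MeasureTheory Set
open Pool.Agent.RelM (Lang Instr Decides E1 E2 NP Approx IsNullCover Null1 Null2)
open Pool.Agent.RelO (GaleNull1 GaleNull2)
open Pool.Agent.RelS (Rl orc Om)
open Pool.Agent.RelT (Fast)
open Pool.Agent.RelU (NPco)

/-- `NP ∩ coNP` is not null. -/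
theorem nonnull (hNB : T_NONB) (hNPM : T_NPM) :
    ∀ᵐ ω ∂coin, ¬ Null1 (oo ω) (NPco (oo ω) ∩ E1 (oo ω)) ∧
      ¬ Null2 (oo ω) (NPco (oo ω) ∩ E2 (oo ω)) := by
  have a1 : ∀ᵐ ω ∂coin, ∀ (κ c : ℕ) (Pr : List Instr),
      Fast κ (fun l => (l + 2) ^ c) →
      ¬ ∃ d : ℕ → List Bool → ℝ, IsNullCover d {Hl κ ω} ∧
        Approx (oo ω) Pr (fun l => (l + 2) ^ c) d := by
    refine ae_all_iff.2 fun κ => ae_all_iff.2 fun c => ae_all_iff.2 fun Pr => ?_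
    by_cases h2 : Fast κ (fun l => (l + 2) ^ c)
    · filter_upwards [hNB κ Pr _ h2] with ω hω _
      exact hω
    · exact Filter.Eventually.of_forall fun ω h => (h2 h).elim
  have a2 : ∀ᵐ ω ∂coin, ∀ (κ c : ℕ) (Pr : List Instr),
      Fast κ (fun l => 2 ^ ((Nat.log 2 l + 2) ^ c)) →
      ¬ ∃ d : ℕ → List Bool → ℝ, IsNullCover d {Hl κ ω} ∧
        Approx (oo ω) Pr (fun l => 2 ^ ((Nat.log 2 l + 2) ^ c)) d := by
    refine ae_all_iff.2 fun κ => ae_all_iff.2 fun c => ae_all_iff.2 fun Pr => ?_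
    by_cases h2 : Fast κ (fun l => 2 ^ ((Nat.log 2 l + 2) ^ c))
    · filter_upwards [hNB κ Pr _ h2] with ω hω _
      exact hω
    · exact Filter.Eventually.of_forall fun ω h => (h2 h).elim
  filter_upwards [a1, a2] with ω h1 h2
  exact Pool.Agent.RelC.MAIN_.not_null (L := fun κ => Hl κ ω) (fun κ => (hNPM _ ω κ).1)
    (fun κ hκ => (hNPM _ ω κ).2.1 hκ) (fun κ hκ => (hNPM _ ω κ).2.2 hκ) h1 h2

/-- An oracle relative to which `NP ∩ coNP` is not null, but `UP` has dimension `0`. -/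
theorem main (hNB : T_NONB) (hNPM : T_NPM) (hUPP : T_UPP) : ∃ O : Lang,
    ¬ Null1 O (NPco O ∩ E1 O) ∧ ¬ Null2 O (NPco O ∩ E2 O) ∧
    ∀ s : ℝ, 0 < s → GaleNull1 s O (Pool.Agent.RelQ.UP O) ∧
      GaleNull2 s O (Pool.Agent.RelQ.UP O) := by
  obtain ⟨ω, ⟨h1, h2⟩, h3⟩ := ((nonnull hNB hNPM).and hUPP).exists
  exact ⟨oo ω, h1, h2, h3⟩

end Pool.Agent.RelY
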