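import Pool.Agent.RelY.Targets

/-!
# RelY, CSA: a witness accepted without keys
-/

set_option autoImplicit false

namespace Pool.Agent.RelY

open Pool.Agent.RelS (PF wt)

namespace CSA_

variable {D : Type} [Fintype D]

/-- The probability that all coins in `Q` are `false`. -/
theorem pf_false (s : D → ℝ) (Q : Finset D) :
    PF s {w | ∀ d ∈ Q, w d = false} = ∏ d ∈ Q, s d := by
  classical
  rw [Pool.Agent.RelS.PF_def]
  have h := Finset.prod_univ_sum (fun _ : D => (Finset.univ : Finset Bool))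
    (fun d b => if d ∈ Q ∧ b = true then (0 : ℝ) else if b = true then 1 - s d else s d)
  rw [Fintype.piFinset_univ] at h
  have h1 : ∀ d : D, (∑ b : Bool, if d ∈ Q ∧ b = true then (0 : ℝ) else
      if b = true then 1 - s d else s d) = if d ∈ Q then s d else 1 := by
    intro d
    by_cases hd : d ∈ Q
    · simp [hd]
    · simp [hd]
  have h2 : ∏ d : D, (if d ∈ Q then s d else 1) = ∏ d ∈ Q, s d := by
    rw [Finset.prod_ite_mem]
    simp
  rw [← h2, ← Finset.prod_congr rfl fun d _ => h1 d, h]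
  refine Finset.sum_congr rfl fun V _ => ?_
  by_cases hV : ∀ d ∈ Q, V d = false
  · rw [if_pos (show V ∈ {w : D → Bool | ∀ d ∈ Q, w d = false} from hV)]
    unfold wt
    refine Finset.prod_congr rfl fun d _ => ?_
    by_cases hd : d ∈ Q
    · simp [hV d hd]
    · simp [hd]
  · rw [if_neg (show V ∉ {w : D → Bool | ∀ d ∈ Q, w d = false} from hV)]
    push Not at hV
    obtain ⟨d, hd, hVd⟩ := hV
    have hVt : V d = true := by simpa using hVd
    exact (Finset.prod_eq_zero (Finset.mem_univ d) (by simp [hd, hVt])).symm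

omit [Fintype D] in
/-- A product of factors close to `1`. -/
theorem prod_ge {s : D → ℝ} {ρ : ℝ} (h0 : ∀ d, 0 ≤ s d) (h1 : ∀ d, s d ≤ 1)
    (hρ : ∀ d, 1 - s d ≤ ρ) (Q : Finset D) : 1 - Q.card * ρ ≤ ∏ d ∈ Q, s d := by
  classical
  induction Q using Finset.induction_on with
  | empty => simp
  | insert a Q ha ih =>
    rw [Finset.prod_insert ha, Finset.card_insert_of_notMem ha]
    have hP1 : ∏ d ∈ Q, s d ≤ 1 := Finset.prod_le_one (fun d _ => h0 d) fun d _ => h1 d
    have hk : (1 - s a) * ∏ d ∈ Q, s d ≤ 1 - s a := by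
      have := mul_le_mul_of_nonneg_left hP1 (show 0 ≤ 1 - s a by linarith [h1 a])
      linarith
    have := hρ a
    push_cast
    nlinarith

end CSA_

open CSA_ in
theorem p_CSA : T_CSA := by
  intro D _ U q T s ρ h0 h1 hρ hρ0 hu
  obtain ⟨u, hu⟩ := hu
  have hm : PF s {w | ∀ d ∈ T.Qs u (fun _ => false), w d = false} ≤ PF s {w | ∃ u, T.Ac u w} := by
    refine Pool.Agent.RelS.PF_mono h0 h1 fun w hw => ⟨u, ?_⟩
    exact ((T.loc u (fun _ => false) w fun d hd => (hw d hd).symm).1).1 hu
  rw [pf_false] at hm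
  have hc : ((T.Qs u fun _ => false).card : ℝ) ≤ q := by exact_mod_cast T.card u _
  have hp := prod_ge h0 h1 hρ (T.Qs u fun _ => false)
  have := mul_le_mul_of_nonneg_right hc hρ0
  linarith

end Pool.Agent.RelY
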