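import Pool.Agent.RelY.Targets
import Pool.Agent.RelY.NN
import Pool.Agent.RelY.MEAS

/-!
# Density of a set of positive measure at late stages
-/

set_option autoImplicit false

namespace Pool.Agent.RelY

open MeasureTheory Set
open scoped ENNReal
open Pool.Agent.RelO (lev st)
open Pool.Agent.RelS (Idx Om bern bern_prob Dep mixP mixP_pos mixP_neg mixP_meas fd)

namespace DNS_

/-- The points whose class at stage `j` is contained in `U`. -/
def Ui (U : Set Om) (j : ℕ) : Set Om := {ω | ∀ ω' : Om, (∀ a ∈ Old j, ω' a = ω a) → ω' ∈ U}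

theorem ui_congr {U : Set Om} {j : ℕ} {ω ω' : Om} (h : ∀ a ∈ Old j, ω a = ω' a) :
    ω ∈ Ui U j ↔ ω' ∈ Ui U j := by
  constructor
  · intro h1 τ hτ
    exact h1 τ fun a ha => (hτ a ha).trans (h a ha).symm
  · intro h1 τ hτ
    exact h1 τ fun a ha => (hτ a ha).trans (h a ha)

theorem ui_meas (U : Set Om) (j : ℕ) : MeasurableSet (Ui U j) :=
  fd (oldfin j) fun _ _ h => ui_congr h

theorem ui_mono (U : Set Om) {j j' : ℕ} (h : j ≤ j') : Ui U j ⊆ Ui U j' := fun _ hω τ hτ =>
  hω τ fun a ha => hτ a (old_mono h ha)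

theorem ui_sub (U : Set Om) (j : ℕ) : Ui U j ⊆ U := fun ω hω => hω ω fun _ _ => rfl

theorem ui_cover {U : Set Om} (hU : IsOpen U) {ω : Om} (hω : ω ∈ U) : ∃ j, ω ∈ Ui U j := by
  obtain ⟨I, u, h1, h2⟩ := isOpen_pi_iff.1 hU ω hω
  choose M hM using old_all
  refine ⟨I.sup M, fun τ hτ => h2 ?_⟩
  intro a ha
  have := hτ a (old_mono (Finset.le_sup (f := M) ha) (hM a))
  rw [this]
  exact (h1 a ha).2

theorem bound {S : Set Om} (hS : MeasurableSet S) {q : ℝ≥0∞} {j : ℕ}
    (h : ∀ ω : Om, coin {τ | mixP (Old j) ω τ ∈ S} ≤ q) (U : Set Om) :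
    coin (Ui U j ∩ S) ≤ coin U * q := by
  have hm := ui_meas U j
  have h1 := lint_mix (p := Old j) hS (H := (Ui U j).indicator 1)
    (measurable_one.indicator hm) (by
      intro ω ω' hω
      by_cases hh : ω ∈ Ui U j
      · rw [indicator_of_mem hh, indicator_of_mem ((ui_congr hω).1 hh)]
        simp
      · rw [indicator_of_notMem hh, indicator_of_notMem (fun h' => hh ((ui_congr hω).2 h'))])
  have h2 : ∫⁻ ω in S, (Ui U j).indicator 1 ω ∂coin = coin (Ui U j ∩ S) := by
    rw [lintegral_indicator_one hm, Measure.restrict_apply hm]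
  rw [h2] at h1
  rw [h1]
  calc ∫⁻ ω, (Ui U j).indicator 1 ω * coin {τ | mixP (Old j) ω τ ∈ S} ∂coin
      ≤ ∫⁻ ω, (Ui U j).indicator 1 ω * q ∂coin :=
        lintegral_mono fun ω => mul_le_mul' le_rfl (h ω)
    _ = coin (Ui U j) * q := by
        rw [lintegral_mul_const _ (measurable_one.indicator hm), lintegral_indicator_one hm]
    _ ≤ coin U * q := mul_le_mul' (measure_mono (ui_sub U j)) le_rfl

end DNS_

open DNS_ in
theorem p_DNS : T_DNS := by
  intro S hS h0 ε hε e m
  by_contra hcon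
  push Not at hcon
  set δ : ℝ := min ε (1 / 2) with hδ
  have hδ0 : 0 < δ := lt_min hε (by norm_num)
  have hδ1 : δ ≤ 1 / 2 := min_le_right _ _
  set q : ℝ≥0∞ := ENNReal.ofReal (1 - δ) with hq
  have hq0 : q ≠ 0 := by
    rw [hq, Ne, ENNReal.ofReal_eq_zero, not_le]
    linarith
  have hq1 : q < 1 := by
    rw [hq, ENNReal.ofReal_lt_one]
    linarith
  have hb : ∀ j, m ≤ j → st j = e → ∀ ω : Om, coin {τ | mixP (Old j) ω τ ∈ S} ≤ q := by
    intro j hj he ω
    have h1 := hcon j hj he ω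
    have hm : MeasurableSet {τ | mixP (Old j) ω τ ∈ S} :=
      ((mixP_meas (Old j)).comp (measurable_const.prodMk measurable_id)) hS
    have h2 : coin.real {τ | mixP (Old j) ω τ ∉ S} =
        1 - coin.real {τ | mixP (Old j) ω τ ∈ S} := probReal_compl_eq_one_sub (μ := coin) hm
    have h3 : coin.real {τ | mixP (Old j) ω τ ∈ S} ≤ 1 - δ := by
      have : δ ≤ ε := min_le_left _ _
      linarith
    rw [hq]
    exact (ENNReal.le_ofReal_iff_toReal_le (measure_ne_top _ _) (by linarith)).2 h3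
  have hlt : coin S < coin S / q := by
    rw [ENNReal.lt_div_iff_mul_lt (Or.inl hq0) (Or.inl hq1.ne_top)]
    calc coin S * q < coin S * 1 := by
          exact ENNReal.mul_lt_mul_right h0 (measure_ne_top _ _) hq1
      _ = coin S := mul_one _
  obtain ⟨U, hSU, hU, hUlt⟩ := S.exists_isOpen_lt_of_lt _ hlt
  have hle : coin S ≤ coin U * q := by
    have hun : S = ⋃ k : ℕ, Ui U (Nat.pair e (m + k)) ∩ S := by
      ext ω
      simp only [mem_iUnion, mem_inter_iff]
      constructor
      · intro hω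
        obtain ⟨j, hj⟩ := ui_cover hU (hSU hω)
        exact ⟨j, ui_mono U ((Nat.le_add_left j m).trans (Nat.right_le_pair e (m + j))) hj, hω⟩
      · rintro ⟨_, _, h⟩
        exact h
    have hmono : Monotone fun k : ℕ => Ui U (Nat.pair e (m + k)) ∩ S := by
      intro k k' hk
      refine inter_subset_inter_left _ (ui_mono U ?_)
      rcases hk.lt_or_eq with h | h
      · exact (Nat.pair_lt_pair_right e (by omega)).le
      · rw [h]
    calc coin S = coin (⋃ k : ℕ, Ui U (Nat.pair e (m + k)) ∩ S) := congrArg coin hun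
      _ = ⨆ k : ℕ, coin (Ui U (Nat.pair e (m + k)) ∩ S) := hmono.measure_iUnion
      _ ≤ coin U * q := iSup_le fun k => bound hS (hb _ ((Nat.le_add_right m k).trans
          (Nat.right_le_pair e (m + k))) (by simp [st])) U
  exact absurd ((ENNReal.lt_div_iff_mul_lt (Or.inl hq0) (Or.inl hq1.ne_top)).1 hUlt)
    (not_lt.2 hle)

end Pool.Agent.RelY
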