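import Pool.Agent.RelY.NN
import Pool.Agent.RelY.MEAS

/-!
# A hidden key is hit with small probability
-/

set_option autoImplicit false

namespace Pool.Agent.RelY

open MeasureTheory Set
open scoped ENNReal
open Pool.Agent.RelO (lev)
open Pool.Agent.RelS (Idx Om)

namespace KEYP_

/-- The words of length `L`. -/
def Ys (L : ℕ) : Finset (List Bool) :=
  (Finset.univ : Finset (List.Vector Bool L)).image List.Vector.toList

lemma mem_Ys {L : ℕ} {y : List Bool} : y ∈ Ys L ↔ y.length = L := by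
  unfold Ys
  rw [Finset.mem_image]
  constructor
  · rintro ⟨v, _, rfl⟩
    exact v.2
  · intro h
    exact ⟨⟨y, h⟩, Finset.mem_univ _, rfl⟩

lemma card_Ys (L : ℕ) : (Ys L).card = 2 ^ L := by
  unfold Ys
  rw [Finset.card_image_of_injective _ List.Vector.toList_injective, Finset.card_univ, card_vector]
  simp

/-- The key coins of the pair with the option `i`. -/
def Cs (κ : ℕ) (x : List Bool) (i : ℕ) : Finset Idx :=
  (Ys (lev κ x)).image fun y => (κ, x, y, i)

lemma sv_key {κ i : ℕ} {x y : List Bool} (hy : y.length = lev κ x) :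
    sv (κ, x, y, i) = Real.exp (-(2 ^ i * 2 ^ (lev κ x / 8) / 2 ^ lev κ x)) := by
  unfold sv
  exact if_neg (key_ne hy)

lemma prod_sv (κ : ℕ) (x : List Bool) (i : ℕ) :
    ∏ a ∈ Cs κ x i, sv a = Real.exp (-(2 ^ i * 2 ^ (lev κ x / 8))) := by
  unfold Cs
  rw [Finset.prod_image (by
    intro y _ y' _ h
    simpa using h)]
  rw [Finset.prod_congr rfl fun y hy => sv_key (i := i) (mem_Ys.1 hy), ← Real.exp_sum]
  congr 1
  rw [Finset.sum_const, card_Ys, nsmul_eq_mul]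
  push_cast
  field_simp

/-- A word of a late level has keys with very large probability. -/
theorem nokey (κ : ℕ) (x : List Bool) (i : ℕ) (h : nn 0 ≤ lev κ x) :
    coin {ω | NoKey ω κ x i} ≤ ENNReal.ofReal ((1 / 8) ^ lev κ x) := by
  have h1 : {ω : Om | NoKey ω κ x i} = {ω : Om | ∀ a ∈ Cs κ x i, ω a = false} := by
    ext ω
    constructor
    · intro h2 a ha
      unfold Cs at ha
      obtain ⟨y, hy, rfl⟩ := Finset.mem_image.1 ha
      exact h2 y (mem_Ys.1 hy)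
    · intro h2 y hy
      exact h2 _ (Finset.mem_image.2 ⟨y, mem_Ys.2 hy, rfl⟩)
  rw [h1, coin_false, prod_sv]
  refine ENNReal.ofReal_le_ofReal (le_trans (Real.exp_le_exp.2 ?_) (nnexp (lev κ x) h))
  have h3 : (1 : ℝ) ≤ 2 ^ i := one_le_pow₀ (by norm_num)
  have h4 : (0 : ℝ) < 2 ^ (lev κ x / 8) := by positivity
  nlinarith

lemma sum_two (n : ℕ) : ∑ i ∈ Finset.range n, (2 : ℝ) ^ i ≤ 2 ^ n := by
  induction n with
  | zero => simp
  | succ n ih => rw [Finset.sum_range_succ, pow_succ]; linarith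

lemma arith {l K : ℕ} (hl : 24 ≤ l) (hK : K ≤ l / 8) :
    ∑ i ∈ Finset.range (K + 1), ((2 : ℝ) ^ i * 2 ^ (l / 8) / 2 ^ l + (1 / 8) ^ l) ≤
      (1 / 2) ^ (l / 2) := by
  rw [Finset.sum_add_distrib, Finset.sum_const, Finset.card_range, nsmul_eq_mul]
  have h1 : ∑ i ∈ Finset.range (K + 1), (2 : ℝ) ^ i * 2 ^ (l / 8) / 2 ^ l ≤
      (1 / 2) ^ (l / 2 + 1) := by
    have e1 : ∑ i ∈ Finset.range (K + 1), (2 : ℝ) ^ i * 2 ^ (l / 8) / 2 ^ l =
        (∑ i ∈ Finset.range (K + 1), (2 : ℝ) ^ i) * (2 ^ (l / 8) / 2 ^ l) := by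
      rw [Finset.sum_mul]
      exact Finset.sum_congr rfl fun i _ => by ring
    rw [e1]
    have e2 := sum_two (K + 1)
    have e3 : (2 : ℝ) ^ (K + 1) ≤ 2 ^ (l / 8 + 1) := pow_le_pow_right₀ (by norm_num) (by omega)
    have e4 : (2 : ℝ) ^ (l / 8 + 1) * (2 ^ (l / 8) / 2 ^ l) ≤ (1 / 2) ^ (l / 2 + 1) := by
      rw [← mul_div_assoc, ← pow_add, one_div, inv_pow, div_le_iff₀ (by positivity),
        inv_mul_eq_div, le_div_iff₀ (by positivity), ← pow_add]
      exact pow_le_pow_right₀ (by norm_num) (by omega)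
    exact le_trans (mul_le_mul_of_nonneg_right (e2.trans e3) (by positivity)) e4
  have h2 : ((K + 1 : ℕ) : ℝ) * (1 / 8) ^ l ≤ (1 / 2) ^ (l / 2 + 1) := by
    have e1 : ((K + 1 : ℕ) : ℝ) ≤ 2 ^ l := by
      have e2 : K + 1 ≤ 2 ^ l := by
        have h3 : K < 2 ^ K := Nat.lt_two_pow_self
        have h4 : 2 ^ K ≤ 2 ^ l := Nat.pow_le_pow_right (by norm_num) (by omega)
        omega
      exact_mod_cast e2
    calc ((K + 1 : ℕ) : ℝ) * (1 / 8) ^ l ≤ 2 ^ l * (1 / 8) ^ l := by gcongr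
      _ = (1 / 2) ^ (2 * l) := by
        rw [← mul_pow, pow_mul]; norm_num
      _ ≤ (1 / 2) ^ (l / 2 + 1) := pow_le_pow_of_le_one (by norm_num) (by norm_num) (by omega)
  have h3 : (1 / 2 : ℝ) ^ (l / 2 + 1) = (1 / 2) ^ (l / 2) / 2 := by rw [pow_succ]; ring
  linarith

/-- The probability of one key coin. -/
lemma one_key {κ i : ℕ} {x y : List Bool} (hy : y.length = lev κ x) :
    coin {ω | ω (κ, x, y, i) = true} ≤
      ENNReal.ofReal (2 ^ i * 2 ^ (lev κ x / 8) / 2 ^ lev κ x) := by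
  rw [coin_true, sv_key hy]
  refine ENNReal.ofReal_le_ofReal ?_
  have := Real.one_sub_le_exp_neg ((2 : ℝ) ^ i * 2 ^ (lev κ x / 8) / 2 ^ lev κ x)
  linarith

end KEYP_

open KEYP_

theorem p_KEYP : T_KEYP := by
  intro κ x y h hy
  obtain ⟨l, hl⟩ : ∃ l, l = lev κ x := ⟨_, rfl⟩
  obtain ⟨K, hKd⟩ : ∃ K, K = kk (jj (lev κ x)) := ⟨_, rfl⟩
  have hl24 : 24 ≤ l := by
    have := nnge 0
    omega
  have hK : K ≤ l / 8 := by
    have h1 := (jjspec (lev κ x)).1
    have h2 := (jjspec (lev κ x)).2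
    have h3 : jj (lev κ x) ≠ 0 := by
      intro h4
      rw [h4] at h1
      omega
    rw [hKd, hl]
    exact Nat.div_le_div_right (h2 (jj (lev κ x) - 1) (by omega))
  rw [← hKd, ← hl]
  have hsub : {ω : Om | ∃ i ≤ K, ω (κ, x, y, i) = true ∨ NoKey ω κ x i} ⊆
      ⋃ i ∈ Finset.range (K + 1), ({ω : Om | ω (κ, x, y, i) = true} ∪ {ω | NoKey ω κ x i}) := by
    rintro ω ⟨i, hi, h1⟩
    simp only [Set.mem_iUnion, Finset.mem_range]
    exact ⟨i, by omega, h1⟩
  refine (measure_mono hsub).trans ((measure_biUnion_finset_le _ _).trans ?_)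
  have hone : ∀ i ∈ Finset.range (K + 1),
      coin ({ω : Om | ω (κ, x, y, i) = true} ∪ {ω | NoKey ω κ x i}) ≤
        ENNReal.ofReal (2 ^ i * 2 ^ (l / 8) / 2 ^ l + (1 / 8) ^ l) := by
    intro i _
    rw [ENNReal.ofReal_add (by positivity) (by positivity)]
    refine (measure_union_le _ _).trans (add_le_add ?_ ?_)
    · rw [hl]
      exact one_key hy
    · rw [hl]
      exact nokey κ x i h
  refine (Finset.sum_le_sum hone).trans ?_
  rw [← ENNReal.ofReal_sum_of_nonneg fun i _ => by positivity]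
  refine (ENNReal.ofReal_le_ofReal (arith hl24 hK)).trans (le_of_eq ?_)
  rw [ENNReal.ofReal_pow (by norm_num), one_div, ENNReal.ofReal_inv_of_pos (by norm_num)]
  norm_num

end Pool.Agent.RelY
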