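import Pool.Agent.RelY.ACC

/-!
# Acceptance as a function of the new key coins
-/

set_option autoImplicit false

namespace Pool.Agent.RelY

open MeasureTheory Set
open Pool.Agent.RelM (Lang str)
open Pool.Agent.RelO (lev st)
open Pool.Agent.RelS (Z Rl orcV orc acc Idx Om Dep mixP mixP_pos mixP_neg)
open Pool.Agent.RelB (ML qbs qf ee DD WW iot WW_lt WW_mid)

namespace LKY_

/-- The coins of the new words. -/
theorem new_world {j κ : ℕ} {x : List Bool} (ω τ : Om)
    (h : nn j ≤ lev κ x ∧ lev κ x < nn (j + 1)) {y : List Bool} (hy : y.length = lev κ x) :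
    zo (mixP (Old j) ω τ) κ x y = zo τ κ x y := by
  have hj : jj (lev κ x) = j + 1 := jj_eq h.1 h.2
  refine zo_congr ?_ ?_ ?_ hy
  · intro hx
    refine mixP_neg fun h1 => ?_
    have h2 : lev κ (x.dropLast ++ [false]) < nn j := h1.2.2.2.2.1 rfl rfl
    have h3 : (x.dropLast ++ [false]).length = x.length := by
      have := List.length_pos_iff.2 hx
      simp
      omega
    rw [lev_len h3] at h2
    omega
  · rw [hj]
    refine op_congr fun m _ => mixP_neg fun h1 => ?_
    have h2 : j + 1 ≤ j := h1.2.2.2.2.2.1 rfl (Nat.succ_ne_zero m)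
    omega
  · intro y' hy'
    refine mixP_neg fun h1 => ?_
    have h2 : lev κ x < nn j := h1.2.2.2.2.2.2 (key_ne hy')
    omega

theorem world {j : ℕ} (ω τ : Om) (hτ : τ ∉ NK j) (κ : ℕ) (x y : List Bool)
    (h1 : lev κ x < nn (j + 1)) (hy : y.length = lev κ x) :
    zo (mixP (Old j) ω τ) κ x y =
      Wz j ω τ (fun d => τ (iot (nn j) (nn (j + 1)) (op τ (j + 1)) d)) κ x y := by
  unfold Wz
  by_cases h2 : lev κ x < nn j
  · rw [WW_lt h2]
    exact zo_old (fun a ha => mixP_pos ha) h2 hy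
  · have h3 : nn j ≤ lev κ x ∧ lev κ x < nn (j + 1) := ⟨not_lt.1 h2, h1⟩
    rw [new_world ω τ h3 hy]
    have h4 := WW_mid (z0 := zo ω)
      (z := fun d : DD (nn j) (nn (j + 1)) => sgn τ d.1.1 d.1.2.1 &&
        τ (iot (nn j) (nn (j + 1)) (op τ (j + 1)) d)) ⟨(κ, x, y), h3.1, h3.2, hy⟩
    refine Eq.trans ?_ h4.symm
    have hN : ¬ NoKey τ κ x (op τ (j + 1)) := fun h5 =>
      hτ ⟨κ, x, op τ (j + 1), h3.1, h3.2, op_le τ (j + 1), h5⟩
    unfold zo
    rw [jj_eq h3.1 h3.2, @decide_eq_false _ (Classical.propDecidable _) hN, Bool.or_false]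
    rfl

end LKY_

open LKY_ in
theorem p_LKY : T_LKY := by
  intro j t η ω τ ht hτ
  have key : ∀ y, accw (oh η (mixP (Old j) ω τ)) (ucode (st j)) (str t) y ↔
      Aw j η ω τ (ucode (st j)) t y
        fun d => τ (iot (nn j) (nn (j + 1)) (op τ (j + 1)) d) := fun y =>
    accw_stage ht (fun _ _ => rfl) (world ω τ hτ) y
  constructor
  · exact (acc_iff _ _ _).trans (exists_congr key)
  · unfold ans2 amb
    refine exists_congr fun y => exists_congr fun y' => and_congr_right fun _ => ?_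
    rw [key y, key y']

end Pool.Agent.RelY
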