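import Pool.Agent.RelY.NN
import Pool.Agent.RelY.MEAS

/-!
# RelY, NKB: all new signed words have keys with probability `1 - 1 / (j + 1)`
-/

set_option autoImplicit false

namespace Pool.Agent.RelY

open MeasureTheory Set
open scoped ENNReal
open Pool.Agent.RelO (lev levfin)
open Pool.Agent.RelS (Idx Om)

namespace NKB_

/-- The words of length `L`. -/
def Ys (L : ℕ) : Finset (List Bool) :=
  (Finset.univ : Finset (List.Vector Bool L)).image List.Vector.toList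

lemma mem_Ys {L : ℕ} {y : List Bool} : y ∈ Ys L ↔ y.length = L := by
  unfold Ys
  rw [Finset.mem_image]
  constructor
  · rintro ⟨v, _, rfl⟩
    exact v.2
  · intro h
    exact ⟨⟨y, h⟩, Finset.mem_univ _, rfl⟩

lemma card_Ys (L : ℕ) : (Ys L).card = 2 ^ L := by
  unfold Ys
  rw [Finset.card_image_of_injective _ List.Vector.toList_injective, Finset.card_univ, card_vector]
  simp

/-- The probability that a signed word has no key with the option `i`. -/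
theorem nokey {κ i : ℕ} {x : List Bool} (h : nn 0 ≤ lev κ x) :
    coin {ω | NoKey ω κ x i} ≤ ENNReal.ofReal ((1 / 8) ^ lev κ x) := by
  classical
  have e : {ω : Om | NoKey ω κ x i} =
      {ω | ∀ a ∈ (Ys (lev κ x)).image fun y => ((κ, x, y, i) : Idx), ω a = false} := by
    ext ω
    simp only [NoKey, Set.mem_ofPred_eq, Finset.mem_image, forall_exists_index, and_imp,
      forall_apply_eq_imp_iff₂, mem_Ys]
  rw [e, coin_false]
  refine ENNReal.ofReal_le_ofReal ?_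
  rw [Finset.prod_image (by
    intro y _ y' _ hh
    simpa using hh)]
  have hs : ∀ y ∈ Ys (lev κ x), sv (κ, x, y, i) =
      Real.exp (-(2 ^ i * 2 ^ (lev κ x / 8) / 2 ^ lev κ x)) := by
    intro y hy
    unfold sv
    rw [if_neg (key_ne (mem_Ys.1 hy))]
  rw [Finset.prod_congr rfl hs, Finset.prod_const, card_Ys, ← Real.exp_nat_mul]
  refine le_trans (Real.exp_le_exp.2 ?_) (nnexp _ h)
  have h2 : (0 : ℝ) < 2 ^ lev κ x := by positivity
  have h3 : (1 : ℝ) ≤ 2 ^ i := one_le_pow₀ (by norm_num)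
  have h4 : (0 : ℝ) < 2 ^ (lev κ x / 8) := by positivity
  have h5 : ((2 ^ lev κ x : ℕ) : ℝ) * -(2 ^ i * 2 ^ (lev κ x / 8) / 2 ^ lev κ x) =
      -(2 ^ i * 2 ^ (lev κ x / 8)) := by
    push_cast
    field_simp
  rw [h5]
  nlinarith

/-- The words of length at most `l`. -/
def Wl (l : ℕ) : Finset (List Bool) := (Finset.range (l + 1)).biUnion Ys

lemma mem_Wl {l : ℕ} {y : List Bool} : y ∈ Wl l ↔ y.length ≤ l := by
  unfold Wl
  rw [Finset.mem_biUnion]
  constructor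
  · rintro ⟨n, hn, hy⟩
    rw [mem_Ys] at hy
    rw [Finset.mem_range] at hn
    omega
  · intro h
    exact ⟨y.length, Finset.mem_range.2 (by omega), mem_Ys.2 rfl⟩

lemma card_Wl (l : ℕ) : (Wl l).card ≤ 2 ^ (l + 1) := by
  unfold Wl
  refine Finset.card_biUnion_le.trans ?_
  simp only [card_Ys]
  have := Nat.geomSum_lt (m := 2) (n := l + 1) (s := Finset.range (l + 1)) le_rfl
    fun k hk => Finset.mem_range.1 hk
  exact this.le

/-- The words of one level. -/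
theorem lev_bound {l : ℕ} (hj : nn 0 ≤ l) (K : ℕ) (hK : K ≤ l) :
    coin.real {τ | ∃ (κ : ℕ) (x : List Bool) (i : ℕ), lev κ x = l ∧ i ≤ K ∧ NoKey τ κ x i} ≤
      ((l : ℝ) + 1) ^ 2 * 2 ^ (l + 1) * (1 / 8) ^ l := by
  classical
  have hsub : {τ : Om | ∃ (κ : ℕ) (x : List Bool) (i : ℕ), lev κ x = l ∧ i ≤ K ∧
      NoKey τ κ x i} ⊆ ⋃ p ∈ Finset.range (l + 1) ×ˢ (Wl l ×ˢ Finset.range (l + 1)),
        {τ | lev p.1 p.2.1 = l ∧ NoKey τ p.1 p.2.1 p.2.2} := by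
    rintro τ ⟨κ, x, i, h1, h2, h3⟩
    obtain ⟨h4, h5⟩ := levfin κ x l h1.le
    rw [Set.mem_iUnion₂]
    refine ⟨(κ, x, i), ?_, h1, h3⟩
    rw [Finset.mem_product, Finset.mem_product, Finset.mem_range, Finset.mem_range, mem_Wl]
    exact ⟨Nat.lt_succ_of_le h4, h5, Nat.lt_succ_of_le (h2.trans hK)⟩
  refine (measureReal_mono hsub (measure_ne_top _ _)).trans
    ((measureReal_biUnion_finset_le _ _).trans ?_)
  have hone : ∀ p ∈ Finset.range (l + 1) ×ˢ (Wl l ×ˢ Finset.range (l + 1)),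
      coin.real {τ | lev p.1 p.2.1 = l ∧ NoKey τ p.1 p.2.1 p.2.2} ≤ (1 / 8 : ℝ) ^ l := by
    intro p _
    by_cases hp : lev p.1 p.2.1 = l
    · refine (measureReal_mono (s₂ := {τ | NoKey τ p.1 p.2.1 p.2.2}) (fun τ h => h.2)
        (measure_ne_top _ _)).trans ?_
      refine ENNReal.toReal_le_of_le_ofReal (by positivity) ?_
      have := nokey (κ := p.1) (x := p.2.1) (i := p.2.2) (by rw [hp]; exact hj)
      rwa [hp] at this
    · have : {τ : Om | lev p.1 p.2.1 = l ∧ NoKey τ p.1 p.2.1 p.2.2} = ∅ := by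
        ext τ
        simp [hp]
      rw [this]
      simp
  refine (Finset.sum_le_sum hone).trans ?_
  rw [Finset.sum_const, nsmul_eq_mul, Finset.card_product, Finset.card_product,
    Finset.card_range]
  have hc : ((Wl l).card : ℝ) ≤ 2 ^ (l + 1) := by exact_mod_cast card_Wl l
  push_cast
  have h8 : (0 : ℝ) ≤ (1 / 8) ^ l := by positivity
  have h9 : ((l : ℝ) + 1) * (((Wl l).card : ℝ) * (l + 1)) ≤ (l + 1) ^ 2 * 2 ^ (l + 1) := by
    have : (0 : ℝ) ≤ ((l : ℝ) + 1) ^ 2 := by positivity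
    nlinarith
  exact mul_le_mul_of_nonneg_right h9 h8

lemma sq_le {l : ℕ} (h : 24 ≤ l) : (l + 1) ^ 2 ≤ 2 ^ l := by
  induction l, h using Nat.le_induction with
  | base => norm_num
  | succ l hl ih =>
    rw [pow_succ 2 l]
    nlinarith

lemma term_le {l : ℕ} (h : 24 ≤ l) :
    ((l : ℝ) + 1) ^ 2 * 2 ^ (l + 1) * (1 / 8) ^ l ≤ 2 * (1 / 2) ^ l := by
  have h1 : ((l : ℝ) + 1) ^ 2 ≤ 2 ^ l := by exact_mod_cast sq_le h
  have h2 : (2 : ℝ) ^ l * 2 ^ (l + 1) * (1 / 8) ^ l = 2 * (1 / 2) ^ l := by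
    have : (2 : ℝ) ^ l * 2 ^ (l + 1) * (1 / 8) ^ l = 2 * (2 * 2 * (1 / 8)) ^ l := by
      rw [mul_pow, mul_pow]
      ring
    rw [this]
    norm_num
  rw [← h2]
  gcongr

end NKB_

open NKB_ in
theorem p_NKB : T_NKB := by
  classical
  intro j
  have hnj := nnge j
  have h0j : nn 0 ≤ nn j := nnmono.monotone (Nat.zero_le j)
  have hkk : kk (j + 1) ≤ nn j := Nat.div_le_self _ _
  have hsub : NK j ⊆ ⋃ l ∈ Finset.Ico (nn j) (nn (j + 1)),
      {τ | ∃ (κ : ℕ) (x : List Bool) (i : ℕ), lev κ x = l ∧ i ≤ kk (j + 1) ∧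
        NoKey τ κ x i} := by
    rintro τ ⟨κ, x, i, h1, h2, h3, h4⟩
    rw [Set.mem_iUnion₂]
    exact ⟨lev κ x, Finset.mem_Ico.2 ⟨h1, h2⟩, κ, x, i, rfl, h3, h4⟩
  refine (measureReal_mono hsub (measure_ne_top _ _)).trans
    ((measureReal_biUnion_finset_le _ _).trans ?_)
  have hone : ∀ l ∈ Finset.Ico (nn j) (nn (j + 1)),
      coin.real {τ | ∃ (κ : ℕ) (x : List Bool) (i : ℕ), lev κ x = l ∧ i ≤ kk (j + 1) ∧
        NoKey τ κ x i} ≤ 2 * (1 / 2 : ℝ) ^ l := by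
    intro l hl
    obtain ⟨hl1, -⟩ := Finset.mem_Ico.1 hl
    exact (lev_bound (h0j.trans hl1) _ (hkk.trans hl1)).trans (term_le (by omega))
  refine (Finset.sum_le_sum hone).trans ?_
  rw [← Finset.mul_sum]
  have hg := geom_sum_Ico_le_of_lt_one (x := (1 / 2 : ℝ)) (m := nn j) (n := nn (j + 1))
    (by norm_num) (by norm_num)
  have h2 : (1 / 2 : ℝ) ^ nn j ≤ (1 / 2) ^ (j + 3) :=
    pow_le_pow_of_le_one (by norm_num) (by norm_num) (by omega)
  have h3 : (1 / 2 : ℝ) ^ (j + 3) * 4 ≤ 1 / ((j : ℝ) + 1) := by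
    have h4 : ((j : ℝ) + 1) ≤ 2 ^ j := by exact_mod_cast (Nat.lt_two_pow_self (n := j))
    have h5 : (0 : ℝ) < (j : ℝ) + 1 := by positivity
    rw [le_div_iff₀ h5]
    have h6 : (1 / 2 : ℝ) ^ (j + 3) * 4 * (2 ^ j) = 1 / 2 := by
      rw [pow_add, show (1 / 2 : ℝ) ^ j * (1 / 2) ^ 3 * 4 * 2 ^ j =
        (1 / 2 * 2 : ℝ) ^ j * (1 / 2) by rw [mul_pow]; ring]
      norm_num
    have h7 : (0 : ℝ) ≤ (1 / 2) ^ (j + 3) * 4 := by positivity
    nlinarith [mul_le_mul_of_nonneg_left h4 h7]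
  have h8 : (1 / 2 : ℝ) ^ nn j / (1 - 1 / 2) = 2 * (1 / 2 : ℝ) ^ nn j := by ring
  rw [h8] at hg
  linarith

end Pool.Agent.RelY
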