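import Pool.Agent.RelY.Targets
import Pool.Agent.RelB.IO

/-!
# The probability of the language of a successful stage
-/

set_option autoImplicit false

namespace Pool.Agent.RelY

open MeasureTheory Set
open scoped ENNReal
open Pool.Agent.RelM (Lang str pre)
open Pool.Agent.RelS (Idx Om mixP)
open Pool.Agent.RelB (qf qf_nonneg pre_length pre_getD)

namespace PWL_

theorem pp_eq (j t : ℕ) (ω : Om) : hf ω j t = pp j t ω := by
  show hs ω (j + 1) j t = _
  rw [hs, Function.update_self]
  rfl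

theorem pp0 (j t : ℕ) (ω : Om) : 0 ≤ pp j t ω := by
  unfold pp pa
  exact measureReal_nonneg

theorem pp1 (j t : ℕ) (ω : Om) : pp j t ω ≤ 1 := by
  unfold pp pa
  exact measureReal_le_one

theorem ql0 (j t : ℕ) (ω : Om) : 0 ≤ ql j t ω :=
  qf_nonneg (pp0 j t ω) (pp1 j t ω) _

end PWL_

open PWL_ in
theorem p_PWL : T_PWL := by
  classical
  intro δ j ω hω
  obtain ⟨N, hN⟩ : ∃ N, N = 2 ^ (nn j + j) := ⟨_, rfl⟩
  have hNn : 2 ^ nn j ≤ N := by
    rw [hN]
    exact Nat.pow_le_pow_right (by norm_num) (by omega)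
  have h1 : ¬ δ * 2 ^ (nn j + j) ≤ loss j ω := fun h => hω (Or.inl h)
  have h2 : ∀ t ∈ Wd j, ql j t ω ≠ 0 := fun t ht h => hω (Or.inr ⟨t, ht, h⟩)
  have hpos : ∀ t ∈ Wd j, 0 < ql j t ω := fun t ht =>
    lt_of_le_of_ne (ql0 j t ω) (Ne.symm (h2 t ht))
  have hprod : Pw (hf ω) j (pre (Lj j ω) N) =
      (1 / 2) ^ 2 ^ nn j * ∏ t ∈ Wd j, ql j t ω := by
    unfold Pw
    rw [pre_length, Finset.range_eq_Ico, ← Finset.prod_Ico_consecutive _ (Nat.zero_le _) hNn]
    congr 1
    · have h3 : ∀ t ∈ Finset.Ico 0 (2 ^ nn j), qf (hv (hf ω) j t)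
          ((pre (Lj j ω) N).getD t false) = 1 / 2 := by
        intro t ht
        rw [Finset.mem_Ico] at ht
        have h4 : hv (hf ω) j t = 1 / 2 := by
          unfold hv
          rw [if_neg (by omega)]
        rw [h4]
        unfold qf
        split_ifs <;> norm_num
      rw [Finset.prod_congr rfl h3, Finset.prod_const]
      simp
    · unfold Wd
      rw [hN]
      refine Finset.prod_congr rfl fun t ht => ?_
      have ht' := Finset.mem_Ico.1 ht
      rw [pre_getD _ ht'.2]
      have h4 : hv (hf ω) j t = pp j t ω := by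
        unfold hv
        rw [if_pos ht', pp_eq, min_eq_right (pp1 j t ω), max_eq_right (pp0 j t ω)]
      rw [h4]
      unfold ql
      congr 1
  rw [← hN, hprod]
  have hexp : ∏ t ∈ Wd j, ql j t ω = Real.exp (-loss j ω) := by
    unfold loss
    rw [Finset.sum_neg_distrib, neg_neg, Real.exp_sum]
    refine Finset.prod_congr rfl fun t ht => ?_
    rw [Real.exp_log (hpos t ht)]
  have hhalf : Real.exp (-(2 : ℝ) ^ nn j) ≤ (1 / 2) ^ 2 ^ nn j := by
    have h3 : Real.exp (-1) ≤ 1 / 2 := by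
      rw [Real.exp_neg, one_div]
      apply inv_anti₀ (by norm_num)
      have := Real.add_one_le_exp (1 : ℝ)
      linarith
    calc Real.exp (-(2 : ℝ) ^ nn j) = Real.exp (-1) ^ 2 ^ nn j := by
          rw [← Real.exp_nat_mul]
          push_cast
          ring_nf
      _ ≤ (1 / 2) ^ 2 ^ nn j := by
          gcongr
  rw [hexp, neg_add, Real.exp_add, mul_comm]
  refine mul_le_mul hhalf (Real.exp_le_exp.2 ?_) (Real.exp_pos _).le (by positivity)
  linarith [not_le.1 h1]

end Pool.Agent.RelY
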