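import Pool.Agent.RelY.Targets

/-!
# RelY, RHO: the densities of the keys with the options
-/

set_option autoImplicit false

namespace Pool.Agent.RelY

open MeasureTheory Set
open scoped ENNReal
open Pool.Agent.RelO (lev)
open Pool.Agent.RelS (Z Rl orcV orc acc Idx Om bern bern_prob Dep mixP PF wt)
open Pool.Agent.RelB (ML qbs qf ee DD WW iot)

namespace RHO_

theorem lev_pos' (κ : ℕ) (x : List Bool) : 0 < lev κ x := by
  unfold lev
  split_ifs <;> positivity

/-- The probability that a new key coin with the option `i` is `false`. -/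
theorem si_eq (j i : ℕ) (d : Dj j) : si j i d =
    Real.exp (-(2 ^ i * 2 ^ (lev d.1.1 d.1.2.1 / 8) / 2 ^ lev d.1.1 d.1.2.1)) := by
  obtain ⟨⟨κ, x, y⟩, h1, h2, h3⟩ := d
  have hy : y ≠ [] := by
    rintro rfl
    have h4 := lev_pos' κ x
    have h5 : ([] : List Bool).length = lev κ x := h3
    rw [List.length_nil] at h5
    omega
  show sv (κ, x, y, i) = _
  unfold sv
  rw [if_neg hy]

theorem bound {i n l : ℕ} (h1 : n ≤ l) (h2 : i ≤ n / 8) :
    (2 : ℝ) ^ i * 2 ^ (l / 8) / 2 ^ l ≤ (1 / 2) ^ (n / 2) := by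
  rw [div_pow, one_pow, div_le_div_iff₀ (by positivity) (by positivity), one_mul,
    ← pow_add, ← pow_add]
  exact pow_le_pow_right₀ (by norm_num) (by omega)

end RHO_

open RHO_

theorem p_RHO : T_RHO := by
  refine ⟨fun j i d hi => ?_, fun j i => ?_⟩
  · rw [si_eq]
    have h1 : i ≤ nn j / 8 := hi
    have h2 := bound d.2.1 h1
    have h3 := Real.add_one_le_exp
      (-((2 : ℝ) ^ i * 2 ^ (lev d.1.1 d.1.2.1 / 8) / 2 ^ lev d.1.1 d.1.2.1))
    linarith
  · funext d
    rw [si_eq, si_eq, ← Real.exp_nat_mul]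
    congr 1
    rw [pow_succ]
    push_cast
    ring

end Pool.Agent.RelY
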