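import Pool.Agent.RelY.Targets

/-!
# RelY: the sprinkling lemma (SPR)
-/

set_option autoImplicit false

namespace Pool.Agent.RelY

open Pool.Agent.RelS (PF wt wt_nonneg wt_sum PF_def)

namespace SPR_

/-- The probability that one coin is `true`. -/
theorem mean {D : Type} [Fintype D] [DecidableEq D] (s : D → ℝ) (d : D) :
    ∑ V : D → Bool, (if V d = true then wt s V else 0) = 1 - s d := by
  have h := Finset.prod_univ_sum (fun _ : D => (Finset.univ : Finset Bool))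
    (fun e b => if e = d then (if b = true then 1 - s d else 0)
      else if b = true then 1 - s e else s e)
  rw [Fintype.piFinset_univ] at h
  have h1 : ∀ V : D → Bool, (if V d = true then wt s V else 0) =
      ∏ e, if e = d then (if V e = true then 1 - s d else 0)
        else if V e = true then 1 - s e else s e := by
    intro V
    by_cases hV : V d = true
    · rw [if_pos hV]
      unfold wt
      refine Finset.prod_congr rfl fun e _ => ?_
      by_cases he : e = d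
      · rw [if_pos he, he, if_pos hV, if_pos hV]
      · rw [if_neg he]
    · rw [if_neg hV]
      symm
      refine Finset.prod_eq_zero (Finset.mem_univ d) ?_
      rw [if_pos rfl, if_neg hV]
  rw [Finset.sum_congr rfl fun V _ => h1 V, ← h]
  rw [Finset.prod_eq_single d]
  · simp
  · intro e _ he
    simp [he]
  · intro h2
    exact absurd (Finset.mem_univ d) h2

/-- Two witnesses of the union. -/
theorem two {D : Type} [Fintype D] {U : Type} {q : ℕ} (T : Tree D U q)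
    (hF : ∀ u, ¬ T.Ac u fun _ => false) {w₁ w₂ : D → Bool} {u₁ u₂ : U} (h1 : T.Ac u₁ w₁)
    (h2 : T.Ac u₂ w₂) (h3 : ∀ d ∈ T.Qs u₁ w₁, w₂ d = false)
    (h4 : ∀ d ∈ T.Qs u₂ w₂, w₁ d = false) :
    ∃ u u', u ≠ u' ∧ T.Ac u (fun d => w₁ d || w₂ d) ∧ T.Ac u' fun d => w₁ d || w₂ d := by
  obtain ⟨a1, b1⟩ := T.loc u₁ w₁ (fun d => w₁ d || w₂ d) fun d hd => by
    simp [h3 d hd]
  obtain ⟨a2, b2⟩ := T.loc u₂ w₂ (fun d => w₁ d || w₂ d) fun d hd => by
    simp [h4 d hd]
  refine ⟨u₁, u₂, fun he => ?_, a1.1 h1, a2.1 h2⟩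
  subst he
  have h5 : ∀ d ∈ T.Qs u₁ w₁, w₁ d = (fun _ => false : D → Bool) d := by
    intro d hd
    rw [← b1, b2] at hd
    exact h4 d hd
  exact hF u₁ ((T.loc u₁ w₁ (fun _ => false) h5).1.1 h1)

end SPR_

/-- **SPR**: the sprinkling lemma. -/
theorem p_SPR_of (hOR : T_OR) : T_SPR := by
  classical
  intro D _ U q T s ρ h0 h1 hρ hρ0 hF
  have hch : ∀ w : D → Bool, ∃ Q : Finset D, Q.card ≤ q ∧
      ((∃ u, T.Ac u w) → ∃ u, T.Ac u w ∧ Q = T.Qs u w) := by
    intro w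
    by_cases h : ∃ u, T.Ac u w
    · obtain ⟨u, hu⟩ := h
      exact ⟨T.Qs u w, T.card u w, fun _ => ⟨u, hu, rfl⟩⟩
    · exact ⟨∅, by simp, fun h' => absurd h' h⟩
  choose Q hQc hQ using hch
  have wn : ∀ V, 0 ≤ wt s V := fun V => wt_nonneg h0 h1 V
  have sn : ∀ (V V' : D → Bool), 0 ≤ ∑ d ∈ Q V, (if V' d = true then wt s V' else 0) := by
    intro V V'
    refine Finset.sum_nonneg fun d _ => ?_
    split_ifs
    · exact wn V'
    · exact le_rfl
  have big : ∀ (V V' : D → Bool), (∃ d ∈ Q V, V' d = true) →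
      wt s V' ≤ ∑ d ∈ Q V, (if V' d = true then wt s V' else 0) := by
    rintro V V' ⟨d, hd, hd'⟩
    refine le_trans ?_ (Finset.single_le_sum (f := fun d => if V' d = true then wt s V' else 0)
      (fun e _ => ?_) hd)
    · simp only [hd', if_true]
      exact le_rfl
    · split_ifs
      · exact wn V'
      · exact le_rfl
  have key : ∀ V₁ V₂ : D → Bool,
      (if V₁ ∈ {w | ∃ u, T.Ac u w} then wt s V₁ else 0) *
        (if V₂ ∈ {w | ∃ u, T.Ac u w} then wt s V₂ else 0) ≤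
      wt s V₁ * wt s V₂ * (if (fun d => V₁ d || V₂ d) ∈
        {w | ∃ u u', u ≠ u' ∧ T.Ac u w ∧ T.Ac u' w} then 1 else 0) +
      (wt s V₁ * ∑ d ∈ Q V₁, (if V₂ d = true then wt s V₂ else 0) +
        wt s V₂ * ∑ d ∈ Q V₂, (if V₁ d = true then wt s V₁ else 0)) := by
    intro V₁ V₂
    have p1 := mul_nonneg (wn V₁) (wn V₂)
    have p2 := mul_nonneg (wn V₁) (sn V₁ V₂)
    have p3 := mul_nonneg (wn V₂) (sn V₂ V₁)
    have p4 : 0 ≤ wt s V₁ * wt s V₂ * (if (fun d => V₁ d || V₂ d) ∈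
        {w | ∃ u u', u ≠ u' ∧ T.Ac u w ∧ T.Ac u' w} then 1 else 0) := by
      split_ifs
      · rw [mul_one]
        exact p1
      · rw [mul_zero]
    by_cases hA1 : V₁ ∈ {w | ∃ u, T.Ac u w}
    · by_cases hA2 : V₂ ∈ {w | ∃ u, T.Ac u w}
      · rw [if_pos hA1, if_pos hA2]
        by_cases c1 : ∃ d ∈ Q V₁, V₂ d = true
        · have := mul_le_mul_of_nonneg_left (big V₁ V₂ c1) (wn V₁)
          linarith
        · by_cases c2 : ∃ d ∈ Q V₂, V₁ d = true
          · have := mul_le_mul_of_nonneg_left (big V₂ V₁ c2) (wn V₂)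
            linarith
          · push Not at c1 c2
            obtain ⟨u₁, a1, b1⟩ := hQ V₁ hA1
            obtain ⟨u₂, a2, b2⟩ := hQ V₂ hA2
            rw [b1] at c1
            rw [b2] at c2
            have h5 := SPR_.two T hF a1 a2 (fun d hd => by simpa using c1 d hd)
              (fun d hd => by simpa using c2 d hd)
            have h6 : (fun d => V₁ d || V₂ d) ∈
              {w | ∃ u u', u ≠ u' ∧ T.Ac u w ∧ T.Ac u' w} := h5
            rw [if_pos h6]
            linarith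
      · rw [if_neg hA2, mul_zero]
        linarith
    · rw [if_neg hA1, zero_mul]
      linarith
  have one : ∑ V₁ : D → Bool, ∑ V₂ : D → Bool,
      wt s V₁ * ∑ d ∈ Q V₁, (if V₂ d = true then wt s V₂ else 0) ≤ q * ρ := by
    calc ∑ V₁ : D → Bool, ∑ V₂ : D → Bool,
          wt s V₁ * ∑ d ∈ Q V₁, (if V₂ d = true then wt s V₂ else 0)
        = ∑ V₁ : D → Bool, wt s V₁ * ∑ d ∈ Q V₁, (1 - s d) := by
          refine Finset.sum_congr rfl fun V₁ _ => ?_
          rw [← Finset.mul_sum, Finset.sum_comm]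
          congr 1
          exact Finset.sum_congr rfl fun d _ => SPR_.mean s d
      _ ≤ ∑ V₁ : D → Bool, wt s V₁ * (q * ρ) := by
          refine Finset.sum_le_sum fun V₁ _ => mul_le_mul_of_nonneg_left ?_ (wn V₁)
          calc ∑ d ∈ Q V₁, (1 - s d) ≤ ∑ _d ∈ Q V₁, ρ := Finset.sum_le_sum fun d _ => hρ d
            _ = (Q V₁).card * ρ := by rw [Finset.sum_const, nsmul_eq_mul]
            _ ≤ q * ρ := mul_le_mul_of_nonneg_right (by exact_mod_cast hQc V₁) hρ0
      _ = q * ρ := by rw [← Finset.sum_mul, wt_sum, one_mul]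
  have two : ∑ V₁ : D → Bool, ∑ V₂ : D → Bool,
      wt s V₂ * ∑ d ∈ Q V₂, (if V₁ d = true then wt s V₁ else 0) ≤ q * ρ := by
    rw [Finset.sum_comm]
    exact one
  calc PF s {w | ∃ u, T.Ac u w} ^ 2
      = ∑ V₁ : D → Bool, ∑ V₂ : D → Bool,
        (if V₁ ∈ {w | ∃ u, T.Ac u w} then wt s V₁ else 0) *
          (if V₂ ∈ {w | ∃ u, T.Ac u w} then wt s V₂ else 0) := by
        rw [PF_def, sq, Finset.sum_mul_sum]
    _ ≤ ∑ V₁ : D → Bool, ∑ V₂ : D → Bool,
        (wt s V₁ * wt s V₂ * (if (fun d => V₁ d || V₂ d) ∈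
          {w | ∃ u u', u ≠ u' ∧ T.Ac u w ∧ T.Ac u' w} then 1 else 0) +
        (wt s V₁ * ∑ d ∈ Q V₁, (if V₂ d = true then wt s V₂ else 0) +
          wt s V₂ * ∑ d ∈ Q V₂, (if V₁ d = true then wt s V₁ else 0))) :=
        Finset.sum_le_sum fun V₁ _ => Finset.sum_le_sum fun V₂ _ => key V₁ V₂
    _ = PF (fun d => s d ^ 2) {w | ∃ u u', u ≠ u' ∧ T.Ac u w ∧ T.Ac u' w} +
        (∑ V₁ : D → Bool, ∑ V₂ : D → Bool,
          wt s V₁ * ∑ d ∈ Q V₁, (if V₂ d = true then wt s V₂ else 0) +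
        ∑ V₁ : D → Bool, ∑ V₂ : D → Bool,
          wt s V₂ * ∑ d ∈ Q V₂, (if V₁ d = true then wt s V₁ else 0)) := by
        rw [hOR D s {w | ∃ u u', u ≠ u' ∧ T.Ac u w ∧ T.Ac u' w}]
        simp only [Finset.sum_add_distrib]
    _ ≤ PF (fun d => s d ^ 2) {w | ∃ u u', u ≠ u' ∧ T.Ac u w ∧ T.Ac u' w} + 2 * (q * ρ) := by
        linarith

end Pool.Agent.RelY
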