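import Pool.Agent.RelY.Targets
import Pool.Agent.RelY.ACC

/-!
# The tree of questions of the machine of a stage
-/

set_option autoImplicit false

namespace Pool.Agent.RelY

open Pool.Agent.RelM (Lang Instr Cfg run Halts pair triple str pre hq wq sq0 sq1 Asks code qb)
open Pool.Agent.RelO (lev st)
open Pool.Agent.RelS (Z Rl orcV orc acc Idx Om)
open Pool.Agent.RelB (ML qbs ask_len qb_le_qbs DD WW orc_eq)
open Pool.Agent.RelM.HFIX_ (qb_bound)
open Pool.Agent.RelU (NM)

namespace TRE_

/-- The question `d` is asked in the first `S` steps. -/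
def As (O : Lang) (v : NM) (x y : List Bool) (j : ℕ) (d : Dj j) : Prop :=
  ∃ s < (x.length + 2) ^ v.2.2, Asks O v.1 (pair x y) s (wq d.1.1 d.1.2.1 d.1.2.2)

open Classical in
/-- The questions asked. -/
noncomputable def Qy (O : Lang) (v : NM) (x y : List Bool) (j : ℕ) : Finset (Dj j) :=
  if y.length ≤ (x.length + 2) ^ v.2.1 then Finset.univ.filter fun d => As O v x y j d else ∅

theorem Qy_card (O : Lang) (v : NM) (x y : List Bool) (j : ℕ) :
    (Qy O v x y j).card ≤ qb v x.length := by
  classical
  unfold Qy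
  split_ifs with hy
  · have h2 : ∀ d ∈ (Finset.univ.filter fun d : Dj j => As O v x y j d),
        ∃ s ∈ Finset.range ((x.length + 2) ^ v.2.2),
        Asks O v.1 (pair x y) s (wq d.1.1 d.1.2.1 d.1.2.2) := by
      intro d hd
      obtain ⟨s, h3, h4⟩ := (Finset.mem_filter.1 hd).2
      exact ⟨s, Finset.mem_range.2 h3, h4⟩
    have h5 := Finset.card_le_card_of_forall_subsingleton
      (fun (d : Dj j) (s : ℕ) => Asks O v.1 (pair x y) s (wq d.1.1 d.1.2.1 d.1.2.2)) h2 ?_
    · rw [Finset.card_range] at h5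
      have := qb_bound v x.length
      omega
    · intro s _ d1 hd1 d2 hd2
      have h6 := Pool.Agent.RelM.one _ _ _ _ _ _ hd1.2 hd2.2
      obtain ⟨e1, e2, e3⟩ := Pool.Agent.RelM.wq_inj h6
      exact Subtype.ext (Prod.ext e1 (Prod.ext e2 e3))
  · simp

/-- The answers to the questions asked determine the run. -/
theorem run_eq {j t : ℕ} {η : ℕ → ℕ → ℝ} {ω τ : Om} (ht : t ∈ Wd j) {y : List Bool}
    {w w' : Dj j → Bool}
    (hy : y.length ≤ ((str t).length + 2) ^ (ucode (st j)).2.1)
    (hw : ∀ d ∈ Qy (orc (bitsOf η) (Wz j ω τ w)) (ucode (st j)) (str t) y j, w d = w' d)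
    (s : ℕ) (hs : s ≤ ((str t).length + 2) ^ (ucode (st j)).2.2) :
    run (orc (bitsOf η) (Wz j ω τ w')) (ucode (st j)).1 (pair (str t) y) s =
      run (orc (bitsOf η) (Wz j ω τ w)) (ucode (st j)).1 (pair (str t) y) s := by
  classical
  obtain ⟨-, q2, -⟩ := qb_small ht
  have q3 := qb_le j (str t).length
  refine Pool.Agent.RelM.loc _ _ _ _ (((str t).length + 2) ^ (ucode (st j)).2.2)
    (fun s hs q hq => ?_) s hs
  have hl := ask_len hy hs hq
  have hd : ∀ d : Dj j, q = wq d.1.1 d.1.2.1 d.1.2.2 → w' d = w d := by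
    intro d hd
    refine (hw d ?_).symm
    unfold Qy
    rw [if_pos hy, Finset.mem_filter]
    exact ⟨Finset.mem_univ _, s, hs, by rw [← hd]; exact hq⟩
  rw [Bool.eq_iff_iff]
  exact ⟨orc_eq (by omega) fun d h => by rw [hd d h],
    orc_eq (by omega) fun d h => by rw [hd d h]⟩

end TRE_

open TRE_ in
theorem p_TRE : T_TRE := by
  classical
  intro j t η ω τ ht
  refine ⟨{ Ac := fun y w => Aw j η ω τ (ucode (st j)) t y w
            Qs := fun y w => Qy (orc (bitsOf η) (Wz j ω τ w)) (ucode (st j)) (str t) y j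
            card := fun y w => (Qy_card _ _ _ _ _).trans (qb_le j _)
            loc := ?_ }, fun y w => Iff.rfl⟩
  intro y w w' hw
  by_cases hy : y.length ≤ ((str t).length + 2) ^ (ucode (st j)).2.1
  · have hr := run_eq ht hy hw
    constructor
    · show accw _ _ _ _ ↔ accw _ _ _ _
      unfold accw
      rw [hr _ le_rfl]
    · unfold Qy
      rw [if_pos hy, if_pos hy]
      refine Finset.filter_congr fun d _ => ?_
      unfold As
      refine exists_congr fun s => and_congr_right fun hs => ?_
      unfold Asks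
      rw [hr s hs.le]
  · constructor
    · constructor
      · intro h
        exact absurd h.1 hy
      · intro h
        exact absurd h.1 hy
    · unfold Qy
      rw [if_neg hy, if_neg hy]

end Pool.Agent.RelY
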