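import Pool.Agent.RelU.MAIN
import Pool.Agent.RelU.P_HK
import Pool.Agent.RelU.P_FUB
import Pool.Agent.RelU.P_CH
import Pool.Agent.RelU.P_UC
import Pool.Agent.RelU.P_NC
import Pool.Agent.RelU.P_THIN
import Pool.Agent.RelU.P_CRT
import Pool.Agent.RelU.P_LNK
import Pool.Agent.RelU.P_UNF
import Pool.Agent.RelU.P_PAQ
import Pool.Agent.RelU.P_ENT
import Pool.Agent.RelU.P_DNS
import Pool.Agent.RelU.P_SUC
import Pool.Agent.RelU.P_PWL
import Pool.Agent.RelU.P_IOS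
import Pool.Agent.RelU.P_HIT
import Pool.Agent.RelU.P_FAIR
import Pool.Agent.RelB.P_AFF
import Pool.Agent.RelB.P_NPA
import Pool.Agent.RelB.P_APP
import Pool.Agent.RelY.MAIN
import Pool.Agent.RelY.P_OR
import Pool.Agent.RelY.P_SPR
import Pool.Agent.RelY.P_CSA
import Pool.Agent.RelY.P_TRE
import Pool.Agent.RelY.P_LKY
import Pool.Agent.RelY.P_NKB
import Pool.Agent.RelY.P_RHO
import Pool.Agent.RelY.P_AVG
import Pool.Agent.RelY.P_PAQ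
import Pool.Agent.RelY.P_KEYP
import Pool.Agent.RelY.P_HIT
import Pool.Agent.RelY.P_FAIR
import Pool.Agent.RelY.P_DNS
import Pool.Agent.RelY.P_SUC
import Pool.Agent.RelY.P_PWL
import Pool.Agent.RelY.P_IOS

/-!
# The two oracles
-/

set_option autoImplicit false

namespace Pool.Agent.RelY

open Pool.Agent.RelM (Lang NP E1 E2 Null1 Null2)
open Pool.Agent.RelO (GaleNull1 GaleNull2)
open Pool.Agent.RelQ (UP)
open Pool.Agent.RelU (NPco)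

/-- `UP` not null, `NP ∩ coNP` of dimension `0`. -/
theorem fin_u : ∃ O : Lang, ¬ Null1 O (UP O ∩ E1 O) ∧ ¬ Null2 O (UP O ∩ E2 O) ∧
    ∀ s : ℝ, 0 < s → GaleNull1 s O (NPco O) ∧ GaleNull2 s O (NPco O) := by
  have hNC := Pool.Agent.RelU.p_NC_of Pool.Agent.RelU.p_HK Pool.Agent.RelU.p_FUB
    Pool.Agent.RelU.p_CH Pool.Agent.RelU.p_UC
  have hPAQ := Pool.Agent.RelU.p_PAQ_of hNC Pool.Agent.RelU.p_THIN Pool.Agent.RelU.p_CRT
    Pool.Agent.RelU.p_LNK Pool.Agent.RelU.p_UNF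
  have hIOS := Pool.Agent.RelU.p_IOS_of hPAQ Pool.Agent.RelU.p_ENT Pool.Agent.RelU.p_DNS
    Pool.Agent.RelU.p_SUC
  have hUPP := Pool.Agent.RelU.p_UPP_of hIOS Pool.Agent.RelU.p_PWL Pool.Agent.RelB.p_AFF
  exact Pool.Agent.RelU.main
    (Pool.Agent.RelU.p_NONB_of Pool.Agent.RelU.p_HIT Pool.Agent.RelU.p_FAIR)
    Pool.Agent.RelU.p_UPM hUPP

/-- `NP ∩ coNP` not null, `UP` of dimension `0`. -/
theorem fin_y : ∃ O : Lang, ¬ Null1 O (NPco O ∩ E1 O) ∧ ¬ Null2 O (NPco O ∩ E2 O) ∧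
    ∀ s : ℝ, 0 < s → GaleNull1 s O (UP O) ∧ GaleNull2 s O (UP O) := by
  have hPAQ := p_PAQ_of (p_SPR_of p_OR) p_CSA p_TRE p_LKY p_NKB p_RHO p_AVG
  have hIOS := p_IOS_of hPAQ Pool.Agent.RelU.p_ENT p_DNS p_SUC
  have hUPP := p_UPP_of hIOS p_PWL Pool.Agent.RelB.p_AFF
  exact main (p_NONB_of (p_HIT_of p_KEYP) p_FAIR)
    (p_NPM_of Pool.Agent.RelB.p_NPA Pool.Agent.RelB.p_APP) hUPP

end Pool.Agent.RelY
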