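import Pool.Agent.RelY.Targets
import Pool.Agent.RelY.NN
import Pool.Agent.RelT.NPR
import Pool.Agent.RelB.Targets2

/-!
# NPM: the hidden language is in `NP ∩ coNP` and in `E` or `E_2`
-/

set_option autoImplicit false

namespace Pool.Agent.RelY

open Pool.Agent.RelM (Lang Instr NP E1 E2)
open Pool.Agent.RelS (Z Rl orc Om)
open Pool.Agent.RelU (NPco)

namespace NPM_

theorem rl_true (ω : Om) (κ : ℕ) : (fun x => Rl (zo ω) κ (x ++ [true])) = Hl κ ω := by
  funext x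
  rw [rl_zo, sgn_snoc]
  unfold Hl
  cases ω (κ, x, [], 0) <;> rfl

theorem rl_false (ω : Om) (κ : ℕ) :
    (fun x => Rl (zo ω) κ (x ++ [false])) = fun x => !Hl κ ω x := by
  funext x
  rw [rl_zo, sgn_snoc]
  unfold Hl
  cases ω (κ, x, [], 0) <;> rfl

end NPM_

open NPM_

theorem p_NPM_of (hNPA : Pool.Agent.RelB.T_NPA) (hAPP : Pool.Agent.RelB.T_APP) : T_NPM := by
  intro G ω κ
  refine ⟨⟨?_, ?_⟩, fun hκ => ?_, fun hκ => ?_⟩
  · rw [← rl_true]
    exact hNPA G (zo ω) κ [true]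
  · show (fun x => !Hl κ ω x) ∈ NP (orc G (zo ω))
    rw [← rl_false]
    exact hNPA G (zo ω) κ [false]
  · rw [← rl_true]
    exact (hAPP _ _ [true]).1 (Pool.Agent.RelT.e1r G (zo ω) κ hκ)
  · rw [← rl_true]
    exact (hAPP _ _ [true]).2 (Pool.Agent.RelT.e2r G (zo ω) κ hκ)

end Pool.Agent.RelY
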