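import Pool.Agent.RelY.Targets
import Pool.Agent.RelB.NN

/-!
# RelY, THR: the stages exist
-/

set_option autoImplicit false

namespace Pool.Agent.RelY

open MeasureTheory Set
open scoped ENNReal
open Pool.Agent.RelM (Lang Instr Cfg step run Halts Decides E1 E2 NP pair triple binVal outVal
  Approx IsDensity str pre IsNullCover Null1 Null2 wq sq0 sq1 Asks hq code qb)
open Pool.Agent.RelO (lev IsGale IsGaleCover GaleNull1 GaleNull2 st)
open Pool.Agent.RelS (Z Rl orcV orc acc Idx Om bern bern_prob Dep mixP PF wt)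
open Pool.Agent.RelB (ML qbs qf ee DD WW iot)
open Pool.Agent.RelU (NM)

namespace THR_

theorem poly_half (e j : ℕ) (C : ℝ) (hC : 0 ≤ C) :
    ∃ N : ℕ, ∀ n, N ≤ n → C * ((n + j + 2 : ℕ) : ℝ) ^ e ≤ 2 ^ (n / 2) := by
  obtain ⟨N, hN⟩ := Pool.Agent.RelB.NN_.exp_bound_real e j (C * 2 ^ e) (by positivity)
    (one_pos : (0 : ℝ) < 1)
  refine ⟨2 * N, fun n hn => ?_⟩
  have h1 := hN (n / 2) (by omega)
  rw [one_mul] at h1
  have h2 : ((n + j + 2 : ℕ) : ℝ) ≤ 2 * ((n / 2 + j + 2 : ℕ) : ℝ) := by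
    have : n + j + 2 ≤ 2 * (n / 2 + j + 2) := by omega
    exact_mod_cast this
  calc C * ((n + j + 2 : ℕ) : ℝ) ^ e ≤ C * (2 * ((n / 2 + j + 2 : ℕ) : ℝ)) ^ e := by
        gcongr
    _ = C * 2 ^ e * ((n / 2 + j + 2 : ℕ) : ℝ) ^ e := by rw [mul_pow]; ring
    _ ≤ 2 ^ (n / 2) := h1

theorem exp_three : Real.exp (-3) ≤ 1 / 8 := by
  rw [Real.exp_neg, show (1 / 8 : ℝ) = 8⁻¹ by norm_num]
  refine inv_anti₀ (by norm_num) ?_
  have h1 : (2 : ℝ) ≤ Real.exp 1 := by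
    have := Real.add_one_le_exp (1 : ℝ)
    linarith
  have h2 : Real.exp 3 = Real.exp 1 ^ 3 := by
    rw [← Real.exp_nat_mul]
    norm_num
  rw [h2]
  calc (8 : ℝ) = 2 ^ 3 := by norm_num
    _ ≤ Real.exp 1 ^ 3 := by gcongr

theorem exp_part : ∃ N : ℕ, ∀ n, N ≤ n → Real.exp (-(2 : ℝ) ^ (n / 8)) ≤ (1 / 8) ^ n := by
  obtain ⟨N, hN⟩ := Pool.Agent.RelB.NN_.exp_bound_real 1 0 24 (by norm_num)
    (one_pos : (0 : ℝ) < 1)
  refine ⟨8 * N, fun n hn => ?_⟩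
  have h1 := hN (n / 8) (by omega)
  rw [one_mul, pow_one] at h1
  have h2 : 3 * (n : ℝ) ≤ 24 * ((n / 8 + 0 + 2 : ℕ) : ℝ) := by
    have : 3 * n ≤ 24 * (n / 8 + 0 + 2) := by omega
    exact_mod_cast this
  calc Real.exp (-(2 : ℝ) ^ (n / 8)) ≤ Real.exp ((n : ℝ) * (-3)) := by
        apply Real.exp_le_exp.2
        linarith
    _ = Real.exp (-3) ^ n := Real.exp_nat_mul (-3) n
    _ ≤ (1 / 8) ^ n := by
        gcongr
        exact exp_three

theorem qbs_ms (j m : ℕ) : qbs (ms j) m =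
    (m + 2) ^ ((ucode (st j)).2.1 + (ucode (st j)).2.2 + 3) := by
  show max (qb (ucode (st j)) m) 0 = _
  rw [max_eq_left (Nat.zero_le _)]
  rfl

end THR_

open THR_

theorem p_THR : T_THR := by
  intro j
  obtain ⟨N1, h1⟩ := Pool.Agent.RelB.NN_.list_bound j (1 : ℝ) (by norm_num)
    (one_pos : (0 : ℝ) < 1) (ms j)
  obtain ⟨N2, h2⟩ := poly_half ((ucode (st j)).2.1 + (ucode (st j)).2.2 + 3) j
    (((j : ℝ) + 1) * 2) (by positivity)
  obtain ⟨N3, h3⟩ := exp_part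
  refine ⟨max N1 (max N2 N3), fun n hn => ⟨?_, ?_, ?_⟩⟩
  · exact (h1 n ((le_max_left _ _).trans hn)).1
  · have h4 := h2 n ((le_max_left _ _).trans ((le_max_right _ _).trans hn))
    rw [qbs_ms]
    push_cast at h4 ⊢
    linarith
  · exact h3 n ((le_max_right _ _).trans ((le_max_right _ _).trans hn))

end Pool.Agent.RelY
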